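import Pool.Agent.H77.PUC.StmtsE

/-! # Small reusable lemmas -/

universe u

namespace PUC

open Polynomial Filter Topology Metric

/-- the value group of an algebraically closed nontrivially normed field is dense -/
theorem exists_norm_between {K : Type*} [NontriviallyNormedField K] [IsAlgClosed K] {a b : ℝ}
    (ha : 0 ≤ a) (hab : a < b) : ∃ c : K, a < ‖c‖ ∧ ‖c‖ < b := by
  rcases ha.eq_or_lt with rfl | ha
  · exact NormedField.exists_norm_lt K hab
  obtain ⟨x, hx⟩ := NormedField.exists_one_lt_norm K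
  have hba : 1 < b / a := by rwa [one_lt_div ha]
  obtain ⟨n, hn⟩ := pow_unbounded_of_one_lt ‖x‖ hba
  have hn0 : n ≠ 0 := by
    rintro rfl
    rw [pow_zero] at hn; linarith
  obtain ⟨y, hy⟩ := IsAlgClosed.exists_pow_nat_eq x (Nat.pos_of_ne_zero hn0)
  have hyn : ‖y‖ ^ n = ‖x‖ := by rw [← norm_pow, hy]
  have hy1 : 1 < ‖y‖ := by
    by_contra h
    push Not at h
    have := pow_le_one₀ (norm_nonneg y) h (n := n)
    linarith
  have hyb : ‖y‖ < b / a := by
    by_contra h
    push Not at h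
    have := pow_le_pow_left₀ (by positivity) h n
    linarith
  have hb : 0 < b := by linarith
  obtain ⟨k, hk⟩ := exists_mem_Ioc_zpow hb hy1
  refine ⟨y ^ k, ?_, ?_⟩
  · rw [norm_zpow]
    have h1 := hk.2
    rw [zpow_add₀ (by positivity), zpow_one] at h1
    have h2 : 0 < ‖y‖ ^ k := by positivity
    by_contra h
    push Not at h
    have h3 : b ≤ a * ‖y‖ := by nlinarith
    rw [lt_div_iff₀ ha] at hyb
    nlinarith
  · rw [norm_zpow]; exact hk.1

theorem norm_sub_le_max' {K : Type*} [NormedField K] [IsUltrametricDist K] (a b : K) :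
    ‖a - b‖ ≤ max ‖a‖ ‖b‖ := by
  rw [sub_eq_add_neg, ← norm_neg b]
  exact IsUltrametricDist.norm_add_le_max _ _

/-- one of the pieces of a finite cover belongs to the ultrafilter -/
theorem exists_piece {K E : Type*} [NormedField K] [Field E] [Algebra K E]
    (𝒰 : Ultrafilter (Place K E)) {n : ℕ} {T : Fin n → Finset E}
    (h : ∀ᶠ P in (𝒰 : Filter (Place K E)), ∃ i, P ∈ Dom K (T i)) :
    ∃ i, ∀ᶠ P in (𝒰 : Filter (Place K E)), P ∈ Dom K (T i) := by
  rwa [Ultrafilter.eventually_exists_iff] at h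

/-- If `f(P) → f(Q)` along the ultrafilter for all `f` finite at `Q`, then every domain that
belongs to the ultrafilter contains `Q`. -/
theorem mem_dom_of_lim {K E : Type*} [NontriviallyNormedField K] [IsUltrametricDist K] [Field E]
    [Algebra K E] (𝒰 : Ultrafilter (Place K E)) (Q : Place K E)
    (hlim : ∀ f ∈ Q.ring, ∀ ε : ℝ, 0 < ε →
      ∀ᶠ P in (𝒰 : Filter (Place K E)), f ∈ P.ring ∧ ‖P.val f - Q.val f‖ ≤ ε)
    {T : Finset E} (hT : ∀ᶠ P in (𝒰 : Filter (Place K E)), P ∈ Dom K T) : Q ∈ Dom K T := by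
  intro t ht
  have hmem : t ∈ Q.ring := by
    by_contra hn
    have h1 := hlim t⁻¹ (Q.inv_mem_of_not_mem hn) (1 / 2) (by norm_num)
    rw [Q.val_inv_of_not_mem hn] at h1
    obtain ⟨P, ⟨hP1, hP2⟩, hP3⟩ := (h1.and hT).exists
    obtain ⟨h4, h5⟩ := hP3 t ht
    have ht0 : t ≠ 0 := by rintro rfl; exact hn Q.ring.zero_mem
    have h6 := P.val_mul h4 hP1
    rw [mul_inv_cancel₀ ht0, P.val_one] at h6
    rw [sub_zero] at hP2
    have h7 := congrArg norm h6
    rw [norm_one, norm_mul] at h7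
    nlinarith [norm_nonneg (P.val t), norm_nonneg (P.val t⁻¹)]
  refine ⟨hmem, ?_⟩
  obtain ⟨P, ⟨hP1, hP2⟩, hP3⟩ := ((hlim t hmem (1 / 2) (by norm_num)).and hT).exists
  obtain ⟨h4, h5⟩ := hP3 t ht
  have e : Q.val t = P.val t - (P.val t - Q.val t) := by ring
  rw [e]
  exact (norm_sub_le_max' _ _).trans (max_le h5 (hP2.trans (by norm_num)))

end PUC
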