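import Pool.Agent.H77.PUC.PCO
import Pool.Agent.H77.PUC.Util

universe u

namespace PUC

open Polynomial Filter Topology Metric

/-- the valuation ring `{v ≤ 1}` -/
def DON_ring {Ω : Type*} [Field Ω] (v : AbsoluteValue Ω ℝ) (hv : IsNonarchimedean v) :
    ValuationSubring Ω where
  carrier := {f | v f ≤ 1}
  mul_mem' := by
    intro a b ha hb
    show v (a * b) ≤ 1
    rw [map_mul]
    exact mul_le_one₀ ha (v.nonneg _) hb
  one_mem' := by show v 1 ≤ 1; rw [map_one]
  add_mem' := by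
    intro a b ha hb
    exact (hv a b).trans (max_le ha hb)
  zero_mem' := by show v 0 ≤ 1; rw [map_zero]; exact zero_le_one
  neg_mem' := by
    intro a ha
    show v (-a) ≤ 1
    rw [v.map_neg]; exact ha
  mem_or_inv_mem' := by
    intro a
    by_cases h : v a ≤ 1
    · exact Or.inl h
    · right
      show v a⁻¹ ≤ 1
      rw [map_inv₀]
      exact inv_le_one_of_one_le₀ (not_le.1 h).le

theorem DON_mem {Ω : Type*} [Field Ω] (v : AbsoluteValue Ω ℝ) (hv : IsNonarchimedean v) (f : Ω) :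
    f ∈ DON_ring v hv ↔ v f ≤ 1 := Iff.rfl

theorem sDon (hOpn : SOpn.{u}) (hVal : SVal.{u}) (hAxd : SAxd.{u}) : SDon.{u} := by
  classical
  intro K Ω _ _ _ _ _ _ _ _ _ _ _ p hp hp1 TA G η hη hG hFC 𝒰 v0 hA hv0 hd
  have : CharZero (RatFunc K) := charZero_of_injective_algebraMap (algebraMap K (RatFunc K)).injective
  obtain ⟨n, T, g, hT1, hT2⟩ := hFC
  obtain ⟨v, hvna, hvK, hvlim⟩ := hVal K Ω 𝒰 v0 hv0
  -- the piece
  obtain ⟨i, hi⟩ := exists_piece 𝒰 (T := T) (by
    filter_upwards [hA] with P hP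
    exact hT1 P hP)
  -- elements of `Dom` have `v ≤ 1`
  have hvle : ∀ (f : Ω) (B : ℝ), (∀ᶠ P in (𝒰 : Filter (Place K Ω)), ‖P.val f‖ ≤ B) → v f ≤ B :=
    fun f B h => le_of_tendsto (hvlim f).1 h
  have hTi : ∀ t ∈ T i, v t ≤ 1 := fun t ht => hvle t 1 (hi.mono fun P hP => (hP t ht).2)
  have hTAv : ∀ t ∈ TA, v (algebraMap (RatFunc K) Ω t) ≤ 1 :=
    fun t ht => hvle _ 1 (hA.mono fun P hP => (hP t ht).2)
  have hσrat : ∀ (σ : Ω ≃ₐ[RatFunc K] Ω) (t : RatFunc K),
      σ (algebraMap (RatFunc K) Ω t) = algebraMap (RatFunc K) Ω t := fun σ t => σ.commutes t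
  have hDomR : ∀ (P : Place K Ω) (σ : Ω ≃ₐ[RatFunc K] Ω) (S : Finset (RatFunc K)),
      P.gact σ ∈ DomR S ↔ P ∈ DomR S := by
    intro P σ S
    unfold DomR
    simp only [Set.mem_ofPred_eq, Place.mem_gact, Place.val_gact, hσrat]
  -- values of algebraMap of rational functions
  have hvv0 : ∀ h : RatFunc K, h ≠ 0 → v (algebraMap (RatFunc K) Ω h) = v0 h := fun h hh =>
    tendsto_nhds_unique (hvlim _).1 (hv0 h hh).2
  have hpp : v ((p : ℕ) : Ω) = ‖(p : K)‖ := by
    have := hvK (p : K)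
    rwa [map_natCast] at this
  have hppos : 0 < ‖(p : K)‖ := by
    rw [norm_pos_iff]; exact_mod_cast hp.ne_zero
  -- Ax
  obtain ⟨b, hb⟩ := hAxd (RatFunc K) Ω p v hp hvna (by rw [hpp]; exact hp1) (g i) η hη (by
    intro σ hσ
    by_contra hcon
    push Not at hcon
    obtain ⟨c, hc1, hc2⟩ := exists_norm_between (K := K) hη.le hcon
    have hcne : c ≠ 0 := norm_pos_iff.1 (hη.trans hc1)
    set q : Ω := σ (g i) - g i with hq
    have hqne : q ≠ 0 := by
      intro h0
      rw [h0, map_zero] at hcon; linarith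
    set T1 : Finset Ω := insert (algebraMap K Ω c / q)
      (T i ∪ (T i).image σ ∪ TA.image (algebraMap (RatFunc K) Ω)) with hT1def
    obtain ⟨T', hT'1, hT'2⟩ := hOpn K Ω (DON_ring v hvna) T1 (by
      intro t ht
      rw [DON_mem]
      rw [hT1def, Finset.mem_insert, Finset.mem_union, Finset.mem_union, Finset.mem_image,
        Finset.mem_image] at ht
      rcases ht with rfl | (ht | ⟨t, ht, rfl⟩) | ⟨t, ht, rfl⟩
      · rw [map_div₀, hvK, div_le_one (by linarith)]
        exact hc2.le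
      · exact hTi t ht
      · rw [hσ]; exact hTi t ht
      · exact hTAv t ht)
    obtain ⟨P, hP⟩ := hd T' (by
      intro h hh
      by_cases h0 : h = 0
      · exact Or.inl h0
      · right
        rw [← hvv0 h h0]
        exact hT'1 h hh)
    obtain ⟨τ, hτ⟩ := hT'2 P hP
    -- both `P.gact τ` and `(P.gact τ).gact σ` belong to the piece
    set P1 := P.gact τ with hP1
    have hP1i : P1 ∈ Dom K (T i) := fun t ht => hτ t (by
      rw [hT1def]; simp [ht])
    have hP2i : P1.gact σ ∈ Dom K (T i) := by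
      intro t ht
      rw [Place.mem_gact, Place.val_gact]
      exact hτ (σ t) (by
        rw [hT1def, Finset.mem_insert, Finset.mem_union, Finset.mem_union]
        right; left; right
        exact Finset.mem_image_of_mem _ ht)
    have hP1A : P1 ∈ DomR TA := by
      intro t ht
      exact hτ _ (by
        rw [hT1def, Finset.mem_insert, Finset.mem_union, Finset.mem_union]
        right; right
        exact Finset.mem_image_of_mem _ ht)
    have hP2A : P1.gact σ ∈ DomR TA := (hDomR P1 σ TA).2 hP1A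
    obtain ⟨a1, a2⟩ := hT2 i P1 hP1A hP1i
    obtain ⟨b1, b2⟩ := hT2 i (P1.gact σ) hP2A hP2i
    rw [hG P1 hP1A σ, Place.val_gact] at b2
    rw [Place.mem_gact] at b1
    have hqv : ‖P1.val q‖ ≤ η := by
      rw [hq, P1.val_sub b1 a1]
      have e : P1.val (σ (g i)) - P1.val (g i) = (G P1 - P1.val (g i)) -
        (G P1 - P1.val (σ (g i))) := by ring
      rw [e]
      exact (norm_sub_le_max' _ _).trans (max_le a2 b2)
    obtain ⟨c1, c2⟩ := hτ (algebraMap K Ω c / q) (Finset.mem_insert_self _ _)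
    have hqmem : q ∈ P1.ring := by
      rw [hq, sub_eq_add_neg]; exact P1.ring.add_mem _ _ b1 (P1.ring.neg_mem _ a1)
    have hprod : P1.val (algebraMap K Ω c / q) * P1.val q = c := by
      rw [← P1.val_mul c1 hqmem, div_mul_cancel₀ _ hqne, P1.val_algebraMap]
    have := congrArg norm hprod
    rw [norm_mul] at this
    have h3 : ‖P1.val (algebraMap K Ω c / q)‖ * ‖P1.val q‖ ≤ 1 * η := by
      gcongr
    linarith)
  have hbp : v (g i - algebraMap (RatFunc K) Ω b) < ‖(p : K)‖⁻¹ ^ 3 * η := by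
    refine lt_of_le_of_lt hb ?_
    have h1 : v ((p : Ω)⁻¹) = ‖(p : K)‖⁻¹ := by rw [map_inv₀, hpp]
    have hone : 1 < ‖(p : K)‖⁻¹ := (one_lt_inv₀ hppos).2 hp1
    have h2 : ‖(p : K)‖⁻¹ ^ 2 * η < ‖(p : K)‖⁻¹ ^ 3 * η := by
      have : ‖(p : K)‖⁻¹ ^ 2 < ‖(p : K)‖⁻¹ ^ 3 := pow_lt_pow_right₀ hone (by norm_num)
      exact mul_lt_mul_of_pos_right this hη
    rw [h1]; exact h2
  obtain ⟨c, hc1, hc2⟩ := exists_norm_between (K := K) (v.nonneg _) hbp
  have hcne : c ≠ 0 := norm_pos_iff.1 (lt_of_le_of_lt (v.nonneg _) hc1)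
  set q : Ω := (g i - algebraMap (RatFunc K) Ω b) / algebraMap K Ω c with hq
  set U : Finset Ω := insert q (T i) with hU
  obtain ⟨T', hT'1, hT'2⟩ := hOpn K Ω (ulim 𝒰) U (by
    intro t ht
    rw [mem_ulim]
    rw [hU, Finset.mem_insert] at ht
    rcases ht with rfl | ht
    · have hlt : v q < 1 := by
        rw [hq, map_div₀, hvK, div_lt_one (norm_pos_iff.2 hcne)]
        exact hc1
      filter_upwards [(hvlim q).2, (hvlim q).1.eventually (gt_mem_nhds hlt)] with P h1 h2
      exact ⟨h1, h2.le⟩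
    · filter_upwards [hi] with P hP
      exact hP t ht)
  refine ⟨T' ∪ TA, b, ?_, ?_⟩
  · have h1 : ∀ᶠ P in (𝒰 : Filter (Place K Ω)), ∀ t ∈ T',
        algebraMap (RatFunc K) Ω t ∈ P.ring ∧ ‖P.val (algebraMap (RatFunc K) Ω t)‖ ≤ 1 := by
      rw [Filter.eventually_all_finset]
      intro t ht
      exact hT'1 t ht
    filter_upwards [h1, hA] with P h2 h3
    intro t ht
    rw [Finset.mem_union] at ht
    rcases ht with ht | ht
    · exact h2 t ht
    · exact h3 t ht
  · intro P hP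
    have hPA : P ∈ DomR TA := fun t ht => hP t (Finset.mem_union_right _ ht)
    obtain ⟨σ, hσ⟩ := hT'2 P fun t ht => hP t (Finset.mem_union_left _ ht)
    set P1 := P.gact σ with hP1
    have hP1A : P1 ∈ DomR TA := (hDomR P σ TA).2 hPA
    have hP1i : P1 ∈ Dom K (T i) := fun t ht => hσ t (Finset.mem_insert_of_mem ht)
    obtain ⟨a1, a2⟩ := hT2 i P1 hP1A hP1i
    obtain ⟨c1, c2⟩ := hσ q (Finset.mem_insert_self _ _)
    have hcΩ : algebraMap K Ω c ≠ 0 := by rw [Ne, map_eq_zero]; exact hcne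
    have hbeq : algebraMap (RatFunc K) Ω b = g i - q * algebraMap K Ω c := by
      rw [hq, div_mul_cancel₀ _ hcΩ]; ring
    have hqc : q * algebraMap K Ω c ∈ P1.ring := P1.ring.mul_mem _ _ c1 (P1.alg_mem _)
    have hbmem1 : algebraMap (RatFunc K) Ω b ∈ P1.ring := by
      rw [hbeq, sub_eq_add_neg]; exact P1.ring.add_mem _ _ a1 (P1.ring.neg_mem _ hqc)
    have hbmem : algebraMap (RatFunc K) Ω b ∈ P.ring := by
      have := hbmem1
      rwa [hP1, Place.mem_gact, hσrat] at this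
    refine ⟨hPA, hbmem, ?_⟩
    have hval : P.val (algebraMap (RatFunc K) Ω b) = P1.val (algebraMap (RatFunc K) Ω b) := by
      rw [hP1, Place.val_gact, hσrat]
    rw [hval, ← hG P hPA σ, ← hP1, hbeq, P1.val_sub a1 hqc, P1.val_mul c1 (P1.alg_mem _),
      P1.val_algebraMap]
    have e : G P1 - (P1.val (g i) - P1.val q * c) = (G P1 - P1.val (g i)) + P1.val q * c := by ring
    rw [e]
    refine (IsUltrametricDist.norm_add_le_max _ _).trans (max_le ?_ ?_)
    · have h1 := PON_one_le (K := K) hp hp1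
      nlinarith
    · rw [norm_mul]
      calc ‖P1.val q‖ * ‖c‖ ≤ 1 * ‖c‖ := by gcongr
        _ ≤ _ := by linarith

end PUC
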