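import Pool.Agent.H77.PUC.PCO

universe u

namespace PUC

open Polynomial Filter Topology Metric

theorem sDpl (hOpn : SOpn.{u}) : SDpl.{u} := by
  classical
  intro K Ω _ _ _ _ _ _ _ _ _ _ _ TA G η hη hG hFC P0 hP0
  obtain ⟨n, T, g, hT1, hT2⟩ := hFC
  obtain ⟨i, hi⟩ := hT1 P0 hP0
  obtain ⟨hg0, hg1⟩ := hT2 i P0 hP0 hi
  obtain ⟨c, hc0, hc⟩ := NormedField.exists_norm_lt K hη
  have hcne : c ≠ 0 := norm_pos_iff.1 hc0
  have hcΩ : algebraMap K Ω c ≠ 0 := by rw [Ne, map_eq_zero]; exact hcne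
  set q : Ω := (g i - algebraMap K Ω (P0.val (g i))) / algebraMap K Ω c with hq
  set U : Finset Ω := insert q (T i) with hU
  have hqmem : ∀ P : Place K Ω, g i ∈ P.ring → q ∈ P.ring ∧
      P.val q = (P.val (g i) - P0.val (g i)) * c⁻¹ := by
    intro P hP
    have h1 : g i - algebraMap K Ω (P0.val (g i)) ∈ P.ring := by
      rw [sub_eq_add_neg]; exact P.ring.add_mem _ _ hP (P.ring.neg_mem _ (P.alg_mem _))
    have h2 : q = (g i - algebraMap K Ω (P0.val (g i))) * algebraMap K Ω c⁻¹ := by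
      rw [hq, map_inv₀, div_eq_mul_inv]
    rw [h2]
    refine ⟨P.ring.mul_mem _ _ h1 (P.alg_mem _), ?_⟩
    rw [P.val_mul h1 (P.alg_mem _), P.val_algebraMap, P.val_sub hP (P.alg_mem _), P.val_algebraMap]
  obtain ⟨T', hT'1, hT'2⟩ := hOpn K Ω (ulim (pure P0)) U (by
    intro t ht
    rw [mem_ulim]
    rw [Ultrafilter.coe_pure]
    rw [Filter.eventually_pure]
    rw [hU, Finset.mem_insert] at ht
    rcases ht with rfl | ht
    · obtain ⟨h1, h2⟩ := hqmem P0 hg0
      refine ⟨h1, ?_⟩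
      rw [h2, sub_self, zero_mul, norm_zero]; exact zero_le_one
    · exact hi t ht)
  refine ⟨T' ∪ TA, ?_, ?_⟩
  · intro t ht
    rw [Finset.mem_union] at ht
    rcases ht with ht | ht
    · have := hT'1 t ht
      rw [mem_ulim, Ultrafilter.coe_pure, Filter.eventually_pure] at this
      exact this
    · exact hP0 t ht
  · intro P hP
    have hPA : P ∈ DomR TA := fun t ht => hP t (Finset.mem_union_right _ ht)
    refine ⟨hPA, ?_⟩
    obtain ⟨σ, hσ⟩ := hT'2 P fun t ht => hP t (Finset.mem_union_left _ ht)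
    have hσA : P.gact σ ∈ DomR TA := by
      intro t ht
      have h3 : σ (algebraMap (RatFunc K) Ω t) = algebraMap (RatFunc K) Ω t := σ.commutes _
      rw [Place.mem_gact, Place.val_gact, h3]
      exact hPA t ht
    have hσi : P.gact σ ∈ Dom K (T i) := fun t ht => hσ t (Finset.mem_insert_of_mem ht)
    obtain ⟨h4, h5⟩ := hT2 i _ hσA hσi
    obtain ⟨h6, h7⟩ := hqmem _ h4
    have h8 := (hσ q (Finset.mem_insert_self _ _)).2
    rw [h7, norm_mul, norm_inv, mul_inv_le_iff₀ hc0, one_mul] at h8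
    rw [← hG P hPA σ]
    have e : G (P.gact σ) - G P0 = (G (P.gact σ) - (P.gact σ).val (g i)) +
      (((P.gact σ).val (g i) - P0.val (g i)) - (G P0 - P0.val (g i))) := by ring
    rw [e]
    refine (IsUltrametricDist.norm_add_le_max _ _).trans (max_le h5 ?_)
    exact (PCO_sub _ _).trans (max_le (h8.trans hc.le) hg1)

end PUC
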