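import Pool.Agent.H77.PUC.Util

/-! # Approximable functions: common refinements (modules FCS, FCP, FCM, FCC) -/

universe u

namespace PUC

open Polynomial Filter Topology Metric

section
variable {K Ω : Type*} [NontriviallyNormedField K] [Field Ω] [Algebra K Ω]

theorem FCx_of_finite {A : Set (Place K Ω)} {η : ℝ} {G : Place K Ω → K} {κ : Type*} [Finite κ]
    (T : κ → Finset Ω) (g : κ → Ω) (h1 : ∀ P ∈ A, ∃ i, P ∈ Dom K (T i))
    (h2 : ∀ i, ∀ P ∈ A, P ∈ Dom K (T i) → g i ∈ P.ring ∧ ‖G P - P.val (g i)‖ ≤ η) :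
    FCon A η G := by
  obtain ⟨n, ⟨e⟩⟩ := Finite.exists_equiv_fin κ
  refine ⟨n, fun i => T (e.symm i), fun i => g (e.symm i), ?_, ?_⟩
  · intro P hP
    obtain ⟨i, hi⟩ := h1 P hP
    exact ⟨e i, by simpa using hi⟩
  · intro i P hP hi
    exact h2 _ P hP hi

theorem FCx_multi {A : Set (Place K Ω)} {η : ℝ} {ι : Type*} [Finite ι] (G : ι → Place K Ω → K)
    (h : ∀ i, FCon A η (G i)) :
    ∃ (n : ℕ) (T : Fin n → Finset Ω) (g : Fin n → ι → Ω), (∀ P ∈ A, ∃ k, P ∈ Dom K (T k)) ∧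
      ∀ k, ∀ P ∈ A, P ∈ Dom K (T k) → ∀ i, g k i ∈ P.ring ∧ ‖G i P - P.val (g k i)‖ ≤ η := by
  classical
  have := Fintype.ofFinite ι
  choose n T g h1 h2 using h
  obtain ⟨m, ⟨e⟩⟩ := Finite.exists_equiv_fin (∀ i, Fin (n i))
  refine ⟨m, fun k => Finset.univ.biUnion fun i => T i (e.symm k i),
    fun k i => g i (e.symm k i), ?_, ?_⟩
  · intro P hP
    choose f hf using fun i => h1 i P hP
    refine ⟨e f, ?_⟩
    intro t ht
    rw [Finset.mem_biUnion] at ht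
    obtain ⟨i, -, hi⟩ := ht
    rw [Equiv.symm_apply_apply] at hi
    exact hf i t hi
  · intro k P hP hk i
    apply h2 i _ P hP
    intro t ht
    exact hk t (Finset.mem_biUnion.2 ⟨i, Finset.mem_univ _, ht⟩)

theorem FCx_two {A : Set (Place K Ω)} {η : ℝ} {G G' : Place K Ω → K}
    (h : FCon A η G) (h' : FCon A η G') :
    ∃ (n : ℕ) (T : Fin n → Finset Ω) (g g' : Fin n → Ω), (∀ P ∈ A, ∃ k, P ∈ Dom K (T k)) ∧
      ∀ k, ∀ P ∈ A, P ∈ Dom K (T k) → (g k ∈ P.ring ∧ ‖G P - P.val (g k)‖ ≤ η) ∧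
        (g' k ∈ P.ring ∧ ‖G' P - P.val (g' k)‖ ≤ η) := by
  obtain ⟨n, T, g, h1, h2⟩ := FCx_multi (A := A) (η := η) (fun b : Bool => if b then G else G')
    (by intro b; cases b <;> simpa)
  refine ⟨n, T, fun k => g k true, fun k => g k false, h1, fun k P hP hk => ⟨?_, ?_⟩⟩
  · simpa using h2 k P hP hk true
  · simpa using h2 k P hP hk false

theorem FCx_mono {A B : Set (Place K Ω)} {η : ℝ} {G : Place K Ω → K} (hAB : A ⊆ B)
    (h : FCon B η G) : FCon A η G := by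
  obtain ⟨n, T, g, h1, h2⟩ := h
  exact ⟨n, T, g, fun P hP => h1 P (hAB hP), fun i P hP hi => h2 i P (hAB hP) hi⟩

theorem FCx_le {A : Set (Place K Ω)} {η η' : ℝ} {G : Place K Ω → K} (hη : η ≤ η')
    (h : FCon A η G) : FCon A η' G := by
  obtain ⟨n, T, g, h1, h2⟩ := h
  exact ⟨n, T, g, h1, fun i P hP hi => ⟨(h2 i P hP hi).1, (h2 i P hP hi).2.trans hη⟩⟩

theorem FCx_congr {A : Set (Place K Ω)} {η : ℝ} {G G' : Place K Ω → K}
    (hG : ∀ P ∈ A, G P = G' P) (h : FCon A η G) : FCon A η G' := by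
  obtain ⟨n, T, g, h1, h2⟩ := h
  refine ⟨n, T, g, h1, fun i P hP hi => ⟨(h2 i P hP hi).1, ?_⟩⟩
  rw [← hG P hP]
  exact (h2 i P hP hi).2

theorem FCx_const (A : Set (Place K Ω)) {η : ℝ} (hη : 0 ≤ η) (c : K) :
    FCon A η (fun _ => c) := by
  refine ⟨1, fun _ => ∅, fun _ => algebraMap K Ω c, fun P _ => ⟨0, by intro t ht; simp at ht⟩,
    fun i P _ _ => ⟨P.alg_mem c, ?_⟩⟩
  rw [P.val_algebraMap, sub_self, norm_zero]; exact hη

theorem FCx_fun (A : Set (Place K Ω)) {η : ℝ} (hη : 0 ≤ η) (b : Ω) (hb : ∀ P ∈ A, b ∈ P.ring) :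
    FCon A η (fun P => P.val b) := by
  refine ⟨1, fun _ => ∅, fun _ => b, fun P _ => ⟨0, by intro t ht; simp at ht⟩,
    fun i P hP _ => ⟨hb P hP, ?_⟩⟩
  rw [sub_self, norm_zero]; exact hη

variable [IsUltrametricDist K]

theorem FCx_add {A : Set (Place K Ω)} {η : ℝ} {G G' : Place K Ω → K}
    (h : FCon A η G) (h' : FCon A η G') : FCon A η (fun P => G P + G' P) := by
  obtain ⟨n, T, g, g', h1, h2⟩ := FCx_two h h'
  refine ⟨n, T, fun k => g k + g' k, h1, fun k P hP hk => ?_⟩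
  obtain ⟨⟨a1, a2⟩, b1, b2⟩ := h2 k P hP hk
  refine ⟨P.ring.add_mem _ _ a1 b1, ?_⟩
  rw [P.val_add a1 b1]
  have e : G P + G' P - (P.val (g k) + P.val (g' k)) = (G P - P.val (g k)) +
    (G' P - P.val (g' k)) := by ring
  rw [e]
  exact (IsUltrametricDist.norm_add_le_max _ _).trans (max_le a2 b2)

theorem FCx_neg {A : Set (Place K Ω)} {η : ℝ} {G : Place K Ω → K}
    (h : FCon A η G) : FCon A η (fun P => - G P) := by
  obtain ⟨n, T, g, h1, h2⟩ := h
  refine ⟨n, T, fun k => - g k, h1, fun k P hP hk => ?_⟩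
  obtain ⟨a1, a2⟩ := h2 k P hP hk
  refine ⟨P.ring.neg_mem _ a1, ?_⟩
  rw [P.val_neg]
  have e : - G P - - P.val (g k) = -(G P - P.val (g k)) := by ring
  rw [e, norm_neg]
  exact a2

theorem FCx_sub {A : Set (Place K Ω)} {η : ℝ} {G G' : Place K Ω → K}
    (h : FCon A η G) (h' : FCon A η G') : FCon A η (fun P => G P - G' P) := by
  have := FCx_add h (FCx_neg h')
  simpa [sub_eq_add_neg] using this

theorem FCx_sum {A : Set (Place K Ω)} {η : ℝ} (hη : 0 ≤ η) {ι : Type*} [Fintype ι]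
    (G : ι → Place K Ω → K)
    (h : ∀ i, FCon A η (G i)) : FCon A η (fun P => ∑ i, G i P) := by
  classical
  have key : ∀ s : Finset ι, FCon A η (fun P => ∑ i ∈ s, G i P) := by
    intro s
    induction s using Finset.induction_on with
    | empty => simpa using FCx_const A hη 0
    | insert a s ha ih =>
      have := FCx_add (h a) ih
      refine FCx_congr ?_ this
      intro P _
      rw [Finset.sum_insert ha]
  exact key Finset.univ

/-- translation by a `K`-automorphism -/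
theorem FCx_act {A : Set (Place K Ω)} {η : ℝ} {G : Place K Ω → K} (σ : Ω ≃ₐ[K] Ω)
    (hA : ∀ P, P ∈ A → P.act σ ∈ A) (h : FCon A η G) : FCon A η (fun P => G (P.act σ)) := by
  classical
  obtain ⟨n, T, g, h1, h2⟩ := h
  refine ⟨n, fun i => (T i).image σ, fun i => σ (g i), ?_, ?_⟩
  · intro P hP
    obtain ⟨i, hi⟩ := h1 _ (hA P hP)
    refine ⟨i, ?_⟩
    intro t ht
    rw [Finset.mem_image] at ht
    obtain ⟨t', ht', rfl⟩ := ht
    have := hi t' ht'
    rw [Place.mem_act, Place.val_act] at this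
    exact this
  · intro i P hP hi
    have h3 : P.act σ ∈ Dom K (T i) := by
      intro t ht
      rw [Place.mem_act, Place.val_act]
      exact hi _ (Finset.mem_image_of_mem _ ht)
    have := h2 i _ (hA P hP) h3
    rw [Place.mem_act, Place.val_act] at this
    exact this

/-- pieces -/
theorem FCx_pieces {A : Set (Place K Ω)} {η : ℝ} {G : Place K Ω → K} {κ : Type*} [Finite κ]
    (T : κ → Finset Ω) (h1 : ∀ P ∈ A, ∃ i, P ∈ Dom K (T i))
    (h2 : ∀ i, FCon (A ∩ Dom K (T i)) η G) : FCon A η G := by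
  classical
  choose n T' g h3 h4 using h2
  refine FCx_of_finite (κ := Σ i, Fin (n i)) (fun k => T k.1 ∪ T' k.1 k.2) (fun k => g k.1 k.2) ?_ ?_
  · intro P hP
    obtain ⟨i, hi⟩ := h1 P hP
    obtain ⟨j, hj⟩ := h3 i P ⟨hP, hi⟩
    refine ⟨⟨i, j⟩, ?_⟩
    intro t ht
    rw [Finset.mem_union] at ht
    rcases ht with ht | ht
    · exact hi t ht
    · exact hj t ht
  · rintro ⟨i, j⟩ P hP hk
    exact h4 i j P ⟨hP, fun t ht => hk t (Finset.mem_union_left _ ht)⟩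
      fun t ht => hk t (Finset.mem_union_right _ ht)

theorem FCx_close {A : Set (Place K Ω)} {η : ℝ} {G G' : Place K Ω → K}
    (h : FCon A η G) (h' : ∀ P ∈ A, ‖G P - G' P‖ ≤ η) : FCon A η G' := by
  obtain ⟨n, T, g, h1, h2⟩ := h
  refine ⟨n, T, g, h1, fun i P hP hi => ⟨(h2 i P hP hi).1, ?_⟩⟩
  have e : G' P - P.val (g i) = (G P - P.val (g i)) - (G P - G' P) := by ring
  rw [e]
  exact (norm_sub_le_max' _ _).trans (max_le (h2 i P hP hi).2 (h' P hP))

theorem FCx_mulfun {A : Set (Place K Ω)} {η κ : ℝ} (hη : 0 ≤ η) {G : Place K Ω → K} (b : Ω)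
    (h : FCon A η G) (hb : ∀ P ∈ A, b ∈ P.ring ∧ ‖P.val b‖ ≤ κ) :
    FCon A (κ * η) (fun P => G P * P.val b) := by
  obtain ⟨n, T, g, h1, h2⟩ := h
  refine ⟨n, T, fun k => g k * b, h1, fun k P hP hk => ?_⟩
  obtain ⟨a1, a2⟩ := h2 k P hP hk
  obtain ⟨b1, b2⟩ := hb P hP
  refine ⟨P.ring.mul_mem _ _ a1 b1, ?_⟩
  rw [P.val_mul a1 b1, ← sub_mul, norm_mul, mul_comm]
  have hκ : 0 ≤ κ := (norm_nonneg _).trans b2
  exact mul_le_mul b2 a2 (norm_nonneg _) hκ

theorem FCx_prod_est {η M : ℝ} (hη : 0 < η) (hηM : η ≤ M) {ι : Type*} (s : Finset ι)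
    (a b : ι → K) (ha : ∀ i ∈ s, ‖a i‖ ≤ M) (hab : ∀ i ∈ s, ‖a i - b i‖ ≤ η) :
    ‖∏ i ∈ s, a i - ∏ i ∈ s, b i‖ ≤ η * M ^ (s.card - 1) := by
  classical
  have hM : 0 < M := lt_of_lt_of_le hη hηM
  have hb : ∀ i ∈ s, ‖b i‖ ≤ M := by
    intro i hi
    have e : b i = a i - (a i - b i) := by ring
    rw [e]
    exact (norm_sub_le_max' _ _).trans (max_le (ha i hi) ((hab i hi).trans hηM))
  induction s using Finset.induction_on with
  | empty => simp only [Finset.prod_empty, sub_self, norm_zero]; positivity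
  | insert j s hj ih =>
    rw [Finset.prod_insert hj, Finset.prod_insert hj, Finset.card_insert_of_notMem hj,
      Nat.add_sub_cancel]
    have ih' := ih (fun i hi => ha i (Finset.mem_insert_of_mem hi))
      (fun i hi => hab i (Finset.mem_insert_of_mem hi))
      (fun i hi => hb i (Finset.mem_insert_of_mem hi))
    have hpb : ‖∏ i ∈ s, b i‖ ≤ M ^ s.card := by
      rw [norm_prod]
      calc ∏ i ∈ s, ‖b i‖ ≤ ∏ i ∈ s, M := Finset.prod_le_prod (fun i _ => norm_nonneg _)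
            fun i hi => hb i (Finset.mem_insert_of_mem hi)
        _ = M ^ s.card := by rw [Finset.prod_const]
    have e : a j * ∏ i ∈ s, a i - b j * ∏ i ∈ s, b i =
      a j * (∏ i ∈ s, a i - ∏ i ∈ s, b i) + (a j - b j) * ∏ i ∈ s, b i := by ring
    rw [e]
    refine (IsUltrametricDist.norm_add_le_max _ _).trans (max_le ?_ ?_)
    · rw [norm_mul]
      rcases Nat.eq_zero_or_pos s.card with h0 | h0
      · rw [Finset.card_eq_zero] at h0
        subst h0
        simp only [Finset.prod_empty, sub_self, norm_zero, mul_zero]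
        positivity
      · calc ‖a j‖ * ‖∏ i ∈ s, a i - ∏ i ∈ s, b i‖ ≤ M * (η * M ^ (s.card - 1)) := by
              gcongr
              exact ha j (Finset.mem_insert_self _ _)
          _ = η * M ^ (s.card - 1 + 1) := by rw [pow_succ]; ring
          _ = η * M ^ s.card := by rw [Nat.sub_add_cancel h0]
    · rw [norm_mul]
      gcongr
      exact hab j (Finset.mem_insert_self _ _)

theorem FCx_prod {A : Set (Place K Ω)} {η M : ℝ} (hη : 0 < η) (hηM : η ≤ M) {ι : Type*} [Fintype ι]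
    (G : ι → Place K Ω → K) (h : ∀ i, FCon A η (G i)) (hM : ∀ i, ∀ P ∈ A, ‖G i P‖ ≤ M) :
    FCon A (η * M ^ (Fintype.card ι - 1)) (fun P => ∏ i, G i P) := by
  obtain ⟨n, T, g, h1, h2⟩ := FCx_multi G h
  refine ⟨n, T, fun k => ∏ i, g k i, h1, fun k P hP hk => ?_⟩
  have h3 := h2 k P hP hk
  refine ⟨P.prod_mem _ _ fun i _ => (h3 i).1, ?_⟩
  rw [P.val_prod _ _ fun i _ => (h3 i).1, ← Finset.card_univ]
  exact FCx_prod_est hη hηM _ _ _ (fun i _ => hM i P hP) fun i _ => (h3 i).2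

theorem FCx_mul {A : Set (Place K Ω)} {η : ℝ} (hη : 0 < η) (hη1 : η ≤ 1) {G G' : Place K Ω → K}
    (h : FCon A η G) (h' : FCon A η G') (hb : ∀ P ∈ A, ‖G P‖ ≤ 1 ∧ ‖G' P‖ ≤ 1) :
    FCon A η (fun P => G P * G' P) := by
  obtain ⟨n, T, g, g', h1, h2⟩ := FCx_two h h'
  refine ⟨n, T, fun k => g k * g' k, h1, fun k P hP hk => ?_⟩
  obtain ⟨⟨a1, a2⟩, b1, b2⟩ := h2 k P hP hk
  obtain ⟨c1, c2⟩ := hb P hP
  refine ⟨P.ring.mul_mem _ _ a1 b1, ?_⟩
  rw [P.val_mul a1 b1]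
  have e : G P * G' P - P.val (g k) * P.val (g' k) = G P * (G' P - P.val (g' k)) +
    (G P - P.val (g k)) * P.val (g' k) := by ring
  have hg' : ‖P.val (g' k)‖ ≤ 1 := by
    have e : P.val (g' k) = G' P - (G' P - P.val (g' k)) := by ring
    rw [e]
    exact (norm_sub_le_max' _ _).trans (max_le c2 (b2.trans hη1))
  rw [e]
  refine (IsUltrametricDist.norm_add_le_max _ _).trans (max_le ?_ ?_)
  · rw [norm_mul]
    calc ‖G P‖ * ‖G' P - P.val (g' k)‖ ≤ 1 * η := by gcongr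
      _ = η := one_mul _
  · rw [norm_mul]
    calc ‖G P - P.val (g k)‖ * ‖P.val (g' k)‖ ≤ η * 1 := by gcongr
      _ = η := mul_one _

theorem FCx_pow {A : Set (Place K Ω)} {η : ℝ} (hη : 0 < η) (hη1 : η ≤ 1) {G : Place K Ω → K}
    (n : ℕ) (h : FCon A η G) (hb : ∀ P ∈ A, ‖G P‖ ≤ 1) :
    FCon A η (fun P => G P ^ n) := by
  induction n with
  | zero => simpa using FCx_const A hη.le 1
  | succ n ih =>
    have := FCx_mul hη hη1 ih h (fun P hP => ⟨by
      rw [norm_pow]; exact pow_le_one₀ (norm_nonneg _) (hb P hP), hb P hP⟩)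
    simpa [pow_succ] using this

end

theorem sFcs : SFcs.{u} := by
  intro K Ω _ _ _ _ _ _ A η hη
  refine ⟨fun G G' h h' => ⟨FCx_add h h', FCx_sub h h', FCx_neg h⟩, FCx_const A hη, FCx_fun A hη,
    fun ι _ G h => FCx_sum hη G h, fun G σ hA h => ?_⟩
  exact FCx_act (σ.restrictScalars K) (fun P hP => (hA P).1 hP) h

theorem sFcp : SFcp.{u} := by
  intro K Ω _ _ _ _ A η M hη hηM
  exact ⟨fun ι _ G h hM => FCx_prod hη hηM G h hM, fun G G' h h' hb h1 => FCx_mul hη h1 h h' hb,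
    fun G n h hb h1 => FCx_pow hη h1 n h hb⟩

theorem sFcm : SFcm.{u} := by
  intro K Ω _ _ _ _ A η κ hη hκ G b h hb
  exact FCx_mulfun hη.le b h hb

theorem sFcc : SFcc.{u} := by
  intro K Ω _ _ _ _ η hη
  exact ⟨fun A G G' h h' => FCx_close h h', fun A n T G h1 h2 => FCx_pieces T h1 h2,
    fun A B G hAB h => FCx_mono hAB h⟩

end PUC
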