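import Pool.Agent.H77.PUC.StmtsE

universe u

namespace PUC

open Polynomial Filter Topology

theorem FFX_no_root (K : Type u) [Field K] (g : ℕ) (s : K) (h : RatFunc K) :
    h ^ 2 + h ≠ algebraMap K[X] (RatFunc K) (X ^ (2 * g + 1) + C s * X) ∨ g = 0 := by
  by_cases hg : g = 0
  · exact Or.inr hg
  left
  intro he
  have hint : IsIntegral K[X] h := by
    refine ⟨X ^ 2 + X - C (X ^ (2 * g + 1) + C s * X), ?_, ?_⟩
    · monicity!
    · simp only [eval₂_sub, eval₂_add, eval₂_pow, eval₂_X, eval₂_C]
      rw [he, sub_self]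
  obtain ⟨Q, hQ⟩ := IsIntegrallyClosed.isIntegral_iff.1 hint
  rw [← hQ, ← map_pow, ← map_add] at he
  have he' := (IsFractionRing.injective K[X] (RatFunc K)) he
  have h1 : (X ^ (2 * g + 1) + C s * X : K[X]).natDegree = 2 * g + 1 := by
    have : (C s * X : K[X]).natDegree < (X ^ (2 * g + 1) : K[X]).natDegree := by
      rw [natDegree_X_pow]
      calc (C s * X : K[X]).natDegree ≤ 1 := (natDegree_C_mul_le _ _).trans natDegree_X_le
        _ < 2 * g + 1 := by omega
    rw [natDegree_add_eq_left_of_natDegree_lt this, natDegree_X_pow]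
  have h2 : (Q ^ 2 + Q).natDegree = 2 * Q.natDegree := by
    by_cases hQ0 : Q.natDegree = 0
    · obtain ⟨c, rfl⟩ : ∃ c, Q = C c := ⟨_, eq_C_of_natDegree_eq_zero hQ0⟩
      rw [← C_pow, ← C_add, natDegree_C, natDegree_C]
    · have : Q.natDegree < (Q ^ 2).natDegree := by
        rw [natDegree_pow]; omega
      rw [natDegree_add_eq_left_of_natDegree_lt this, natDegree_pow]
  rw [he', h1] at h2
  omega

/-- FFX -/
theorem sFfx : SFfx.{u} := by
  intro K _ _ _ g s hg
  set f : (RatFunc K)[X] := X ^ 2 + X - C (algebraMap K[X] (RatFunc K) (X ^ (2 * g + 1) + C s * X))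
    with hf
  have hmon : f.Monic := by
    rw [hf]; monicity!
  have hdeg : f.natDegree = 2 := by
    rw [hf]; compute_degree!
  have hirr : Irreducible f := by
    rw [Monic.irreducible_iff_roots_eq_zero_of_degree_le_three hmon (by omega) (by omega)]
    rw [Multiset.eq_zero_iff_forall_notMem]
    intro a ha
    rw [mem_roots hmon.ne_zero, IsRoot.def, hf] at ha
    simp only [eval_sub, eval_add, eval_pow, eval_X, eval_C] at ha
    rcases FFX_no_root K g s a with h | h
    · exact h (sub_eq_zero.1 ha)
    · omega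
  have : Fact (Irreducible f) := ⟨hirr⟩
  have hX : algebraMap K[X] (RatFunc K) X = RatFunc.X := RatFunc.algebraMap_X
  refine ⟨AdjoinRoot f, inferInstance, inferInstance, algebraMap (RatFunc K) (AdjoinRoot f) RatFunc.X,
    AdjoinRoot.root f, ?_, ?_, ?_⟩
  · rw [transcendental_algebraMap_iff (algebraMap (RatFunc K) (AdjoinRoot f)).injective]
    exact RatFunc.transcendental_X
  · have h1 : aeval (AdjoinRoot.root f) f = 0 := by
      rw [AdjoinRoot.aeval_eq, AdjoinRoot.mk_self]
    have h2 : aeval (AdjoinRoot.root f) f = AdjoinRoot.root f ^ 2 + AdjoinRoot.root f -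
        algebraMap (RatFunc K) (AdjoinRoot f)
          (algebraMap K[X] (RatFunc K) (X ^ (2 * g + 1) + C s * X)) := by
      conv_lhs => rw [AdjoinRoot.aeval_eq]
      rw [AdjoinRoot.algebraMap_eq]
      have hfe := congrArg (AdjoinRoot.mk f) hf
      rw [hfe]
      simp only [map_sub, map_add, map_pow, AdjoinRoot.mk_X, AdjoinRoot.mk_C]
    rw [h2, sub_eq_zero] at h1
    rw [h1]
    simp only [map_add, map_pow, map_mul, hX]
    congr 2
  · rw [eq_top_iff]
    rintro r -
    set E := IntermediateField.adjoin K {algebraMap (RatFunc K) (AdjoinRoot f) RatFunc.X,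
      AdjoinRoot.root f}
    have hx : algebraMap (RatFunc K) (AdjoinRoot f) RatFunc.X ∈ E :=
      IntermediateField.subset_adjoin _ _ (by simp)
    have hy : AdjoinRoot.root f ∈ E := IntermediateField.subset_adjoin _ _ (by simp)
    have hpol : ∀ Q : K[X], algebraMap (RatFunc K) (AdjoinRoot f) (algebraMap K[X] (RatFunc K) Q) ∈ E := by
      intro Q
      have : algebraMap (RatFunc K) (AdjoinRoot f) (algebraMap K[X] (RatFunc K) Q) =
          aeval (algebraMap (RatFunc K) (AdjoinRoot f) RatFunc.X) Q := by
        rw [aeval_algebraMap_apply, ← hX, aeval_algebraMap_apply, aeval_X_left_apply]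
      rw [this]
      rw [aeval_eq_sum_range]
      apply sum_mem
      intro i _
      exact E.smul_mem (pow_mem hx i)
    have hrat : ∀ c : RatFunc K, algebraMap (RatFunc K) (AdjoinRoot f) c ∈ E := by
      intro c
      rw [← RatFunc.num_div_denom c, map_div₀]
      exact E.div_mem (hpol _) (hpol _)
    induction r using AdjoinRoot.induction_on with
    | ih p =>
      rw [← AdjoinRoot.aeval_eq, aeval_eq_sum_range]
      apply E.sum_mem
      intro i _
      rw [Algebra.smul_def]
      exact E.mul_mem (hrat _) (pow_mem hy i)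

end PUC
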