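import Pool.Agent.H77.PUC.PCO

universe u

namespace PUC

open Polynomial Filter Topology Metric

theorem sLcf (hDon : SDon.{u}) (hZpl : SZpl.{u}) (hEvr : SEvr.{u}) (hEva : SEva.{u}) :
    SLcf.{u} := by
  classical
  intro K Ω _ _ _ _ _ _ _ _ _ _ _ p hp hp1 a0 c0 η H hD 𝓕 hF v0 hF0 hv0 hdec hd
  obtain ⟨hc0, hη, G, hGH, hFC⟩ := hD
  obtain ⟨hz1, -, -⟩ := hZpl K Ω
  choose Pa hPa1 hPa2 using hz1
  -- `RV` and `DomR`
  have hRV : ∀ (P : Place K Ω) (h : RatFunc K), zz K Ω ∈ P.ring →
      ((algebraMap (RatFunc K) Ω h ∈ P.ring ∧ ‖P.val (algebraMap (RatFunc K) Ω h)‖ ≤ 1) ↔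
        RV (P.val (zz K Ω)) h) := by
    intro P h hz
    obtain ⟨h1, h2⟩ := hEvr K Ω P h hz
    constructor
    · rintro ⟨h3, h4⟩
      refine ⟨h1.1 h3, ?_⟩
      rw [← h2 (h1.1 h3)]; exact h4
    · rintro ⟨h3, h4⟩
      refine ⟨h1.2 h3, ?_⟩
      rw [h2 h3]; exact h4
  set t : RatFunc K := algebraMap K[X] (RatFunc K) (C c0⁻¹ * (X - C a0)) with ht
  have hRVt : ∀ a : K, RV a t ↔ ‖a - a0‖ ≤ ‖c0‖ := by
    intro a
    obtain ⟨h1, h2⟩ := (hEva K a 0 0).2.2 (C c0⁻¹ * (X - C a0))
    unfold RV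
    rw [ht, h2]
    simp only [eval_mul, eval_C, eval_sub, eval_X, norm_mul, norm_inv]
    constructor
    · rintro ⟨-, h3⟩
      rwa [inv_mul_le_iff₀ (norm_pos_iff.2 hc0), mul_one] at h3
    · intro h3
      refine ⟨h1, ?_⟩
      rwa [inv_mul_le_iff₀ (norm_pos_iff.2 hc0), mul_one]
  -- the domain of `t` is the disc
  have hTA : ∀ P : Place K Ω, P ∈ DomR ({t} : Finset (RatFunc K)) ↔ P ∈ (Disc a0 c0 : Set (Place K Ω)) := by
    intro P
    by_cases hz : zz K Ω ∈ P.ring
    · constructor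
      · intro h
        have h1 := (hRV P t hz).1 (h t (Finset.mem_singleton_self _))
        exact ⟨hz, (hRVt _).1 h1⟩
      · rintro ⟨h1, h2⟩ t' ht'
        rw [Finset.mem_singleton] at ht'
        subst ht'
        exact (hRV P _ hz).2 ((hRVt _).2 h2)
    · constructor
      · intro h
        exfalso
        apply hz
        obtain ⟨h1, -⟩ := h t (Finset.mem_singleton_self _)
        have h2 : zz K Ω = algebraMap K Ω c0 * algebraMap (RatFunc K) Ω t + algebraMap K Ω a0 := by
          rw [ht, map_mul, map_mul, map_sub, map_sub]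
          have hC : ∀ c : K, algebraMap (RatFunc K) Ω (algebraMap K[X] (RatFunc K) (C c)) =
              algebraMap K Ω c := by
            intro c
            rw [IsScalarTower.algebraMap_apply K (RatFunc K) Ω]
            rfl
          rw [hC, hC, RatFunc.algebraMap_X, map_inv₀]
          unfold zz
          have : algebraMap K Ω c0 ≠ 0 := by
            rw [Ne, map_eq_zero]; exact hc0
          field_simp
          ring
        rw [h2]
        exact P.ring.add_mem _ _ (P.ring.mul_mem _ _ (P.alg_mem _) h1) (P.alg_mem _)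
      · intro h; exact absurd h.1 hz
  have hTAset : (DomR ({t} : Finset (RatFunc K)) : Set (Place K Ω)) = Disc a0 c0 := by
    ext P; exact hTA P
  let 𝒰 : Ultrafilter (Place K Ω) := Ultrafilter.of (map Pa 𝓕)
  have hle : (𝒰 : Filter (Place K Ω)) ≤ map Pa 𝓕 := Ultrafilter.of_le _
  obtain ⟨T', b, hT'1, hT'2⟩ := hDon K Ω p hp hp1 {t} G η hη
    (by
      intro P hP σ
      have h1 := (hTA P).1 hP
      have h2 : (P.gact σ) ∈ (Disc a0 c0 : Set (Place K Ω)) := by
        have h3 : σ (zz K Ω) = zz K Ω := σ.commutes _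
        refine ⟨?_, ?_⟩
        · rw [Place.mem_gact, h3]; exact h1.1
        · rw [Place.val_gact, h3]; exact h1.2
      rw [hGH P h1, hGH _ h2, Place.val_gact]
      have h3 : σ (zz K Ω) = zz K Ω := σ.commutes _
      rw [h3])
    (by rw [hTAset]; exact hFC) 𝒰 v0
    (by
      apply hle
      rw [Filter.mem_map]
      filter_upwards [hF0] with a ha
      show Pa a ∈ DomR {t}
      rw [hTA]
      exact ⟨hPa1 a, by rw [hPa2]; exact ha⟩)
    (by
      intro h hh
      refine ⟨(hv0 h hh).1, ?_⟩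
      refine Tendsto.mono_left ?_ hle
      rw [tendsto_map'_iff]
      refine (hv0 h hh).2.congr' ?_
      have hpos := (hv0 h hh).1
      filter_upwards [(hv0 h hh).2.eventually (lt_mem_nhds hpos)] with a ha
      show ‖ev a h‖ = ‖(Pa a).val (algebraMap (RatFunc K) Ω h)‖
      have hreg : reg a h := by
        by_contra hr
        unfold reg at hr
        push Not at hr
        have : ev a h = 0 := by
          unfold ev RatFunc.eval
          have h5 : eval₂ (RingHom.id K) a h.denom = 0 := hr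
          rw [h5, div_zero]
        rw [this, norm_zero] at ha
        exact lt_irrefl _ ha
      rw [(hEvr K Ω (Pa a) h (hPa1 a)).2 (by rw [hPa2]; exact hreg), hPa2])
    (by
      intro T1 hT1
      obtain ⟨a, ha⟩ := hd T1 hT1
      refine ⟨Pa a, fun h hh => (hRV (Pa a) h (hPa1 a)).2 ?_⟩
      rw [hPa2]; exact ha h hh)
  refine ⟨T', b, ?_, ?_⟩
  · intro h hh
    rcases hdec h with h1 | h1
    · exact h1
    · exfalso
      have h2 : ∀ᶠ P in (𝒰 : Filter (Place K Ω)), ¬ (algebraMap (RatFunc K) Ω h ∈ P.ring ∧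
          ‖P.val (algebraMap (RatFunc K) Ω h)‖ ≤ 1) := by
        apply hle
        rw [Filter.mem_map]
        filter_upwards [h1] with a ha
        show ¬ _
        rw [hRV (Pa a) h (hPa1 a), hPa2]
        exact ha
      obtain ⟨P, hP1, hP2⟩ := (hT'1.and h2).exists
      exact hP2 (hP1 h hh)
  · intro a ha
    have h1 : Pa a ∈ DomR T' := fun h hh => (hRV (Pa a) h (hPa1 a)).2 (by rw [hPa2]; exact ha h hh)
    obtain ⟨h2, h3, h4⟩ := hT'2 (Pa a) h1
    have h5 := (hEvr K Ω (Pa a) b (hPa1 a)).1.1 h3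
    have h6 := (hEvr K Ω (Pa a) b (hPa1 a)).2 h5
    rw [hPa2] at h5 h6
    refine ⟨h5, ?_⟩
    rw [hGH (Pa a) ((hTA _).1 h2), hPa2, h6] at h4
    exact h4

end PUC
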