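import Pool.Agent.H77.PUC.StmtsE

universe u

namespace PUC

open Polynomial Filter Topology Metric

theorem sMai (hOut : SOut.{u}) (hUnr : SUnr.{u}) (hAct : SAct.{u}) : SMai.{u} := by
  intro K F₀ F _ _ _ _ _ _ _ _ _ p g hp hp1 hg s x0 y0 x y hs hclose h0 h hiso
  set s0 : K := if p ∣ 2 * g + 1 then 1 else 0 with hs0
  have hA0 : Adm p g s0 := by
    unfold Adm
    by_cases hd : p ∣ 2 * g + 1
    · right; refine ⟨hd, ?_⟩; rw [hs0, if_pos hd]; simp
    · left; refine ⟨hd, ?_⟩; rw [hs0, if_neg hd]; simp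
  have hA : Adm p g s := by
    unfold Adm
    by_cases hd : p ∣ 2 * g + 1
    · right; refine ⟨hd, ?_⟩; rw [hs0, if_pos hd] at hclose; exact hclose
    · left; refine ⟨hd, ?_⟩; rw [hs0, if_neg hd, sub_zero] at hclose; exact hclose
  have hs01 : s0 = 0 ∨ s0 = 1 := by
    by_cases hd : p ∣ 2 * g + 1
    · right; rw [hs0, if_pos hd]
    · left; rw [hs0, if_neg hd]
  obtain ⟨ξ, hξ, υ, hυ, heq, hnc⟩ := hOut K F₀ F p g hp hp1 hg s0 s x0 y0 x y hA0 hA h0 h hiso
  let L : IntermediateField F₀ (AlgebraicClosure F₀) := IntermediateField.adjoin F₀ {ξ, υ}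
  have hLU : L ≤ UC K F₀ := by
    rw [IntermediateField.adjoin_le_iff]
    intro a ha
    rcases ha with rfl | ha
    · exact hξ
    · rw [Set.mem_singleton_iff] at ha; subst ha; exact hυ
  have hfd : FiniteDimensional F₀ L := by
    apply IntermediateField.finiteDimensional_adjoin
    intro a _
    exact (Algebra.IsAlgebraic.isAlgebraic (R := F₀) a).isIntegral
  have hL : Unr K F₀ L := hUnr K F₀ g s0 x0 y0 (by omega) hs01 h0 L hLU hfd
  have hξL : ξ ∈ L := IntermediateField.subset_adjoin _ _ (by simp)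
  have hυL : υ ∈ L := IntermediateField.subset_adjoin _ _ (by simp)
  have hcoe : ∀ c : K, ((algebraMap K L c : L) : AlgebraicClosure F₀) =
      algebraMap K (AlgebraicClosure F₀) c := fun c => rfl
  obtain ⟨c, hc⟩ := hAct K F₀ L g s0 s x0 y0 (by omega) hs01 h0 hL hs ⟨ξ, hξL⟩ ⟨υ, hυL⟩ (by
    apply Subtype.ext
    simpa [hcoe] using heq)
  apply hnc
  refine ⟨c, ?_⟩
  have := congrArg (Subtype.val) hc
  simpa [hcoe] using this

end PUC
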