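import Pool.Agent.H77.PUC.StmtsE

universe u

namespace PUC

open Polynomial Filter Topology

/-- OPN -/
theorem sOpn (hCnj : SCnj.{u}) (hCoa : SCoa.{u}) : SOpn.{u} := by
  intro K Ω _ _ _ _ _ _ _ _ _ _ A T hT
  classical
  by_contra hcon
  push Not at hcon
  have : CharZero (RatFunc K) :=
    charZero_of_injective_algebraMap (algebraMap K (RatFunc K)).injective
  have : IsAlgClosure (RatFunc K) Ω := ⟨inferInstance, inferInstance⟩
  have : Normal (RatFunc K) Ω := IsAlgClosure.normal (RatFunc K) Ω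
  set X := {t : RatFunc K // algebraMap (RatFunc K) Ω t ∈ A} with hX
  have key : ∀ F : Finset X, ∃ P : Place K Ω, P ∈ DomR (F.image Subtype.val) ∧
      ∀ σ : Ω ≃ₐ[RatFunc K] Ω, P.gact σ ∉ Dom K T := by
    intro F
    obtain ⟨P, h1, h2⟩ := hcon (F.image Subtype.val) (by
      intro t ht
      rw [Finset.mem_image] at ht
      obtain ⟨x, _, rfl⟩ := ht
      exact x.2)
    exact ⟨P, h1, h2⟩
  choose P hP1 hP2 using key
  set 𝒱 : Ultrafilter (Finset X) := Ultrafilter.of atTop with h𝒱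
  set 𝒰 : Ultrafilter (Place K Ω) := 𝒱.map P with h𝒰
  have hle : (𝒱 : Filter (Finset X)) ≤ atTop := Ultrafilter.of_le _
  have hmem : ∀ t : RatFunc K, algebraMap (RatFunc K) Ω t ∈ A →
      algebraMap (RatFunc K) Ω t ∈ ulim 𝒰 := by
    intro t ht
    rw [mem_ulim, h𝒰, Ultrafilter.coe_map, Filter.eventually_map]
    apply hle
    filter_upwards [Filter.eventually_ge_atTop ({⟨t, ht⟩} : Finset X)] with F hF
    apply hP1 F t
    rw [Finset.mem_image]
    exact ⟨⟨t, ht⟩, hF (Finset.mem_singleton_self _), rfl⟩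
  obtain ⟨B, hB1, hB2⟩ := hCoa (RatFunc K) Ω A ((ulim 𝒰).comap (algebraMap (RatFunc K) Ω))
    (fun c hc => by rw [ValuationSubring.mem_comap]; exact hmem c hc)
  obtain ⟨σ, hσ⟩ := hCnj (RatFunc K) Ω (ulim 𝒰) B (by
    intro c
    rw [hB2 c, ValuationSubring.mem_comap])
  have hev : ∀ᶠ Q in (𝒰 : Filter (Place K Ω)), ∀ t ∈ T, σ t ∈ Q.ring ∧ ‖Q.val (σ t)‖ ≤ 1 := by
    rw [Filter.eventually_all_finset]
    intro t ht
    have := (hσ t).1 (hB1 (hT t ht))
    rwa [mem_ulim] at this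
  rw [h𝒰, Ultrafilter.coe_map, Filter.eventually_map] at hev
  obtain ⟨F, hF⟩ := hev.exists
  apply hP2 F σ
  intro t ht
  rw [Place.mem_gact, Place.val_gact]
  exact hF t ht

end PUC
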