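import Pool.Agent.H77.PUC.Util

/-! # Orthogonality of principal parts (modules OPO, OPC) -/

universe u

namespace PUC

open Polynomial Filter Topology Metric

section Key

variable {K : Type u} [NormedField K] [IsUltrametricDist K]

theorem OPx_sum_lt {ι : Type*} {s : Finset ι} {f : ι → K} {M : ℝ} (hM : 0 < M)
    (h : ∀ i ∈ s, ‖f i‖ < M) : ‖∑ i ∈ s, f i‖ < M := by
  rcases s.eq_empty_or_nonempty with rfl | hs
  · simpa using hM
  · obtain ⟨i, hi, h1⟩ := IsUltrametricDist.exists_norm_finsetSum_le_of_nonempty hs f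
    exact h1.trans_lt (h i hi)

theorem OPx_add_eq {a b : K} (h : ‖b‖ < ‖a‖) : ‖a + b‖ = ‖a‖ := by
  apply le_antisymm
  · exact (IsUltrametricDist.norm_add_le_max _ _).trans (max_le le_rfl h.le)
  · have e : a = (a + b) - b := by ring
    have h1 : ‖a‖ ≤ max ‖a + b‖ ‖b‖ := by
      nth_rewrite 1 [e]; exact norm_sub_le_max' _ _
    rcases le_max_iff.1 h1 with h2 | h2
    · exact h2
    · exact absurd h2 (not_le.2 h)

theorem OPx_mul_le {r : ℝ} (hr : 0 < r) {P Q : K[X]} {n : ℕ} {M : ℝ} (hM : 0 ≤ M)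
    (h : ∀ i j, i + j = n → ‖P.coeff i‖ * r ^ i * (‖Q.coeff j‖ * r ^ j) ≤ M) :
    ‖(P * Q).coeff n‖ * r ^ n ≤ M := by
  have hrn : 0 < r ^ n := pow_pos hr n
  rw [← le_div_iff₀ hrn, coeff_mul]
  apply IsUltrametricDist.norm_sum_le_of_forall_le_of_nonneg (by positivity)
  intro x hx
  rw [Finset.HasAntidiagonal.mem_antidiagonal] at hx
  rw [le_div_iff₀ hrn, norm_mul, ← hx, pow_add]
  have := h _ _ hx
  nlinarith

theorem OPx_mul_lt {r : ℝ} (hr : 0 < r) {P Q : K[X]} {n : ℕ} {M : ℝ} (hM : 0 < M)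
    (h : ∀ i j, i + j = n → ‖P.coeff i‖ * r ^ i * (‖Q.coeff j‖ * r ^ j) < M) :
    ‖(P * Q).coeff n‖ * r ^ n < M := by
  have hrn : 0 < r ^ n := pow_pos hr n
  rw [← lt_div_iff₀ hrn, coeff_mul]
  apply OPx_sum_lt (by positivity)
  intro x hx
  rw [Finset.HasAntidiagonal.mem_antidiagonal] at hx
  rw [lt_div_iff₀ hrn, norm_mul, ← hx, pow_add]
  have := h _ _ hx
  nlinarith

theorem OPx_mul_eq {r : ℝ} (hr : 0 < r) {P Q : K[X]} {n i0 j0 : ℕ} (h0 : i0 + j0 = n) {M : ℝ}
    (hM : 0 < M) (hM' : ‖P.coeff i0‖ * r ^ i0 * (‖Q.coeff j0‖ * r ^ j0) = M)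
    (h : ∀ i j, i + j = n → i ≠ i0 → ‖P.coeff i‖ * r ^ i * (‖Q.coeff j‖ * r ^ j) < M) :
    ‖(P * Q).coeff n‖ * r ^ n = M := by
  classical
  have hrn : 0 < r ^ n := pow_pos hr n
  have hmem : (i0, j0) ∈ Finset.HasAntidiagonal.antidiagonal n := Finset.HasAntidiagonal.mem_antidiagonal.2 h0
  rw [coeff_mul, ← Finset.add_sum_erase _ _ hmem]
  have h1 : ‖P.coeff i0 * Q.coeff j0‖ = M / r ^ n := by
    rw [eq_div_iff hrn.ne', norm_mul, ← hM', ← h0, pow_add]; ring
  have h2 : ‖∑ x ∈ (Finset.HasAntidiagonal.antidiagonal n).erase (i0, j0), P.coeff x.1 * Q.coeff x.2‖ < M / r ^ n := by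
    apply OPx_sum_lt (by positivity)
    intro x hx
    rw [Finset.mem_erase, Finset.HasAntidiagonal.mem_antidiagonal] at hx
    have hne : x.1 ≠ i0 := by
      intro he
      apply hx.1
      ext
      · exact he
      · have := hx.2
        simp only
        omega
    rw [lt_div_iff₀ hrn, norm_mul]
    nth_rewrite 1 [← hx.2]
    rw [pow_add]
    have := h _ _ hx.2 hne
    nlinarith
  rw [OPx_add_eq (by rw [h1]; exact h2), h1, div_mul_cancel₀ _ hrn.ne']

/-- maximum of the weighted coefficients -/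
theorem OPx_max {r : ℝ} (hr : 0 < r) (Q : K[X]) : ∃ M : ℝ, 0 ≤ M ∧
    (∀ i, ‖Q.coeff i‖ * r ^ i ≤ M) ∧
    (0 < M → ∃ i0, Q.coeff i0 ≠ 0 ∧ ‖Q.coeff i0‖ * r ^ i0 = M ∧ ∀ i < i0, ‖Q.coeff i‖ * r ^ i < M) ∧
    (0 < M → ∃ j0, Q.coeff j0 ≠ 0 ∧ ‖Q.coeff j0‖ * r ^ j0 = M ∧
      ∀ j, j0 < j → ‖Q.coeff j‖ * r ^ j < M) := by
  classical
  by_cases hQ : Q = 0
  · subst hQ
    exact ⟨0, le_rfl, by simp, fun h => absurd h (lt_irrefl _), fun h => absurd h (lt_irrefl _)⟩
  have hs : Q.support.Nonempty := nonempty_support_iff.2 hQ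
  obtain ⟨m, hm, hmax⟩ := Q.support.exists_max_image (fun i => ‖Q.coeff i‖ * r ^ i) hs
  have hm0 : Q.coeff m ≠ 0 := mem_support_iff.1 hm
  set M := ‖Q.coeff m‖ * r ^ m with hM
  have hMpos : 0 < M := by
    have := norm_pos_iff.2 hm0
    positivity
  have hle : ∀ i, ‖Q.coeff i‖ * r ^ i ≤ M := by
    intro i
    by_cases hi : Q.coeff i = 0
    · rw [hi, norm_zero, zero_mul]; exact hMpos.le
    · exact hmax i (mem_support_iff.2 hi)
  set S := Q.support.filter (fun i => ‖Q.coeff i‖ * r ^ i = M) with hS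
  have hSne : S.Nonempty := ⟨m, Finset.mem_filter.2 ⟨hm, rfl⟩⟩
  have hmemS : ∀ i, ‖Q.coeff i‖ * r ^ i = M → i ∈ S := by
    intro i hi
    rw [hS, Finset.mem_filter]
    refine ⟨mem_support_iff.2 fun h0 => ?_, hi⟩
    rw [h0, norm_zero, zero_mul] at hi
    linarith
  refine ⟨M, hMpos.le, hle, fun _ => ⟨S.min' hSne, ?_, ?_, ?_⟩, fun _ => ⟨S.max' hSne, ?_, ?_, ?_⟩⟩
  · exact mem_support_iff.1 (Finset.mem_filter.1 (S.min'_mem hSne)).1
  · exact (Finset.mem_filter.1 (S.min'_mem hSne)).2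
  · intro i hi
    refine lt_of_le_of_ne (hle i) fun he => ?_
    exact absurd (S.min'_le i (hmemS i he)) (not_le.2 hi)
  · exact mem_support_iff.1 (Finset.mem_filter.1 (S.max'_mem hSne)).1
  · exact (Finset.mem_filter.1 (S.max'_mem hSne)).2
  · intro i hi
    refine lt_of_le_of_ne (hle i) fun he => ?_
    exact absurd (S.le_max' i (hmemS i he)) (not_le.2 hi)

/-- the key inequality -/
theorem OPx_key {r η : ℝ} (hr : 0 < r) (hη : 0 ≤ η) {U V G1 G2 : K[X]} (hU : U.degree < G1.degree)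
    (h1 : G1.Monic) (h1w : ∀ j, ‖G1.coeff j‖ * r ^ j ≤ r ^ G1.natDegree)
    (h2w : ∀ j, ‖G2.coeff j‖ * r ^ j ≤ ‖G2.coeff 0‖) (h20 : G2.coeff 0 ≠ 0)
    (hs : (∀ j < G1.natDegree, ‖G1.coeff j‖ * r ^ j < r ^ G1.natDegree) ∨
      (∀ j, 0 < j → ‖G2.coeff j‖ * r ^ j < ‖G2.coeff 0‖))
    (hb : ∀ i, ‖(U * G2 + V * G1).coeff i‖ * r ^ i ≤ η * (r ^ G1.natDegree * ‖G2.coeff 0‖)) :
    (∀ i, ‖U.coeff i‖ * r ^ i ≤ η * r ^ G1.natDegree) ∧
    (∀ i, ‖V.coeff i‖ * r ^ i ≤ η * ‖G2.coeff 0‖) := by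
  set n := G1.natDegree with hn
  set R := r ^ n with hR
  set g := ‖G2.coeff 0‖ with hg
  have hRpos : 0 < R := pow_pos hr n
  have hgpos : 0 < g := norm_pos_iff.2 h20
  obtain ⟨MU, hMU0, hMU, hMUlow, -⟩ := OPx_max hr U
  obtain ⟨MV, hMV0, hMV, -, hMVhigh⟩ := OPx_max hr V
  have hUdeg : ∀ i, U.coeff i ≠ 0 → i < n := by
    intro i hi
    by_contra hcon
    push Not at hcon
    apply hi
    apply coeff_eq_zero_of_degree_lt
    refine hU.trans_le ?_
    rw [degree_eq_natDegree h1.ne_zero, ← hn]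
    exact_mod_cast hcon
  -- weak bounds
  have wU : ∀ i, ‖(U * G2).coeff i‖ * r ^ i ≤ MU * g := fun i =>
    OPx_mul_le hr (by positivity) fun i j _ => mul_le_mul (hMU i) (h2w j) (by positivity) hMU0
  have wV : ∀ i, ‖(V * G1).coeff i‖ * r ^ i ≤ MV * R := fun i =>
    OPx_mul_le hr (by positivity) fun i j _ => mul_le_mul (hMV i) (h1w j) (by positivity) hMV0
  -- exact values
  have eU : 0 < MU → ∃ i0 < n, ‖(U * G2).coeff i0‖ * r ^ i0 = MU * g := by
    intro hpos
    obtain ⟨i0, a1, a2, a3⟩ := hMUlow hpos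
    refine ⟨i0, hUdeg i0 a1, OPx_mul_eq (i0 := i0) (j0 := 0) hr (by omega) (by positivity) ?_ ?_⟩
    · rw [a2, pow_zero, mul_one]
    · intro i j hij hne
      have hlt : i < i0 := by omega
      calc ‖U.coeff i‖ * r ^ i * (‖G2.coeff j‖ * r ^ j) ≤ ‖U.coeff i‖ * r ^ i * g := by
            have := h2w j
            gcongr
        _ < MU * g := by
            have := a3 i hlt
            gcongr
  have eV : 0 < MV → ∃ j0, ‖(V * G1).coeff (n + j0)‖ * r ^ (n + j0) = MV * R := by
    intro hpos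
    obtain ⟨j0, a1, a2, a3⟩ := hMVhigh hpos
    refine ⟨j0, OPx_mul_eq (i0 := j0) (j0 := n) hr (by omega) (by positivity) ?_ ?_⟩
    · rw [a2, hn, h1.coeff_natDegree, norm_one, one_mul]
    · intro i j hij hne
      rcases lt_or_gt_of_ne hne with hlt | hlt
      · have : G1.coeff j = 0 := coeff_eq_zero_of_natDegree_lt (by omega)
        rw [this, norm_zero, zero_mul, mul_zero]
        positivity
      · calc ‖V.coeff i‖ * r ^ i * (‖G1.coeff j‖ * r ^ j) ≤ ‖V.coeff i‖ * r ^ i * R := by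
              have := h1w j
              gcongr
          _ < MV * R := by
              have := a3 i hlt
              gcongr
  -- norm of the sum when one summand dominates
  have domU : ∀ i, ‖(V * G1).coeff i‖ * r ^ i < ‖(U * G2).coeff i‖ * r ^ i →
      ‖(U * G2).coeff i‖ * r ^ i ≤ η * (R * g) := by
    intro i hi
    have hri : 0 < r ^ i := pow_pos hr i
    have h3 := hb i
    rw [coeff_add, OPx_add_eq (lt_of_mul_lt_mul_right hi hri.le)] at h3
    exact h3
  have domV : ∀ i, ‖(U * G2).coeff i‖ * r ^ i < ‖(V * G1).coeff i‖ * r ^ i →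
      ‖(V * G1).coeff i‖ * r ^ i ≤ η * (R * g) := by
    intro i hi
    have hri : 0 < r ^ i := pow_pos hr i
    have h3 := hb i
    rw [coeff_add, add_comm, OPx_add_eq (lt_of_mul_lt_mul_right hi hri.le)] at h3
    exact h3
  have claim : MU * g ≤ η * (R * g) ∧ MV * R ≤ η * (R * g) := by
    rcases lt_trichotomy (MV * R) (MU * g) with hlt | heq | hgt
    · have hpos : 0 < MU := by
        by_contra hcon
        have : MU = 0 := le_antisymm (not_lt.1 hcon) hMU0
        rw [this, zero_mul] at hlt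
        have : 0 ≤ MV * R := by positivity
        linarith
      obtain ⟨i0, hi0, e⟩ := eU hpos
      have h3 : MU * g ≤ η * (R * g) := by
        rw [← e]
        apply domU
        rw [e]
        exact (wV i0).trans_lt hlt
      exact ⟨h3, hlt.le.trans h3⟩
    · rcases hMU0.eq_or_lt with h0 | hpos
      · rw [heq, ← h0, zero_mul]
        have : 0 ≤ η * (R * g) := by positivity
        exact ⟨this, this⟩
      have hposV : 0 < MV := by
        by_contra hcon
        have : MV = 0 := le_antisymm (not_lt.1 hcon) hMV0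
        rw [this, zero_mul] at heq
        have : 0 < MU * g := by positivity
        linarith
      rcases hs with hs | hs
      · obtain ⟨i0, hi0, e⟩ := eU hpos
        have h3 : MU * g ≤ η * (R * g) := by
          rw [← e]
          apply domU
          rw [e, ← heq]
          apply OPx_mul_lt hr (by positivity)
          intro i j hij
          calc ‖V.coeff i‖ * r ^ i * (‖G1.coeff j‖ * r ^ j) ≤ MV * (‖G1.coeff j‖ * r ^ j) := by
                have := hMV i
                gcongr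
            _ < MV * R := by
                have := hs j (by omega)
                gcongr
        exact ⟨h3, heq.le.trans h3⟩
      · obtain ⟨j0, e⟩ := eV hposV
        have h3 : MV * R ≤ η * (R * g) := by
          rw [← e]
          apply domV
          rw [e, heq]
          apply OPx_mul_lt hr (by positivity)
          intro i j hij
          by_cases hi : U.coeff i = 0
          · rw [hi, norm_zero, zero_mul, zero_mul]; positivity
          · have hin := hUdeg i hi
            calc ‖U.coeff i‖ * r ^ i * (‖G2.coeff j‖ * r ^ j) ≤ MU * (‖G2.coeff j‖ * r ^ j) := by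
                  have := hMU i
                  gcongr
              _ < MU * g := by
                  have := hs j (by omega)
                  gcongr
        exact ⟨heq.ge.trans h3, h3⟩
    · have hpos : 0 < MV := by
        by_contra hcon
        have : MV = 0 := le_antisymm (not_lt.1 hcon) hMV0
        rw [this, zero_mul] at hgt
        have : 0 ≤ MU * g := by positivity
        linarith
      obtain ⟨j0, e⟩ := eV hpos
      have h3 : MV * R ≤ η * (R * g) := by
        rw [← e]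
        apply domV
        rw [e]
        exact (wU _).trans_lt hgt
      exact ⟨hgt.le.trans h3, h3⟩
  constructor
  · intro i
    refine (hMU i).trans ?_
    have := claim.1
    rw [← mul_assoc] at this
    exact le_of_mul_le_mul_right this hgpos
  · intro i
    refine (hMV i).trans ?_
    have h3 := claim.2
    have e : η * (R * g) = η * g * R := by ring
    rw [e] at h3
    exact le_of_mul_le_mul_right h3 hRpos

/-- evaluation bound -/
theorem OPx_eval_le {r M : ℝ} (hM : 0 ≤ M) {Q : K[X]} (h : ∀ i, ‖Q.coeff i‖ * r ^ i ≤ M)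
    {x : K} (hx : ‖x‖ ≤ r) : ‖Q.eval x‖ ≤ M := by
  rw [eval_eq_sum_range]
  apply IsUltrametricDist.norm_sum_le_of_forall_le_of_nonneg hM
  intro i _
  rw [norm_mul, norm_pow]
  calc ‖Q.coeff i‖ * ‖x‖ ^ i ≤ ‖Q.coeff i‖ * r ^ i := by gcongr
    _ ≤ M := h i

/-- evaluation bound outside the disc for polynomials of degree `< n` -/
theorem OPx_eval_out {r M : ℝ} (hr : 0 < r) (hM : 0 ≤ M) {Q : K[X]} {n : ℕ}
    (hQ : ∀ i, Q.coeff i ≠ 0 → i < n)
    (h : ∀ i, ‖Q.coeff i‖ * r ^ i ≤ M * r ^ n) {x : K} (hx : r ≤ ‖x‖) :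
    ‖Q.eval x‖ ≤ M * ‖x‖ ^ n := by
  have hx0 : 0 < ‖x‖ := hr.trans_le hx
  rw [eval_eq_sum_range]
  apply IsUltrametricDist.norm_sum_le_of_forall_le_of_nonneg (by positivity)
  intro i _
  rw [norm_mul, norm_pow]
  by_cases hi : Q.coeff i = 0
  · rw [hi, norm_zero, zero_mul]; positivity
  have hin := hQ i hi
  have h1 : r ^ i * (‖x‖ ^ i * r ^ (n - i)) ≤ r ^ i * ‖x‖ ^ n := by
    have e : ‖x‖ ^ n = ‖x‖ ^ i * ‖x‖ ^ (n - i) := by rw [← pow_add]; congr 1; omega
    rw [e]
    gcongr
  have h2 : ‖Q.coeff i‖ * ‖x‖ ^ i * r ^ n ≤ M * ‖x‖ ^ n * r ^ n := by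
    have e : r ^ n = r ^ i * r ^ (n - i) := by rw [← pow_add]; congr 1; omega
    calc ‖Q.coeff i‖ * ‖x‖ ^ i * r ^ n = (‖Q.coeff i‖ * r ^ i) * (‖x‖ ^ i * r ^ (n - i)) := by
          rw [e]; ring
      _ ≤ (M * r ^ n) * (‖x‖ ^ i * r ^ (n - i)) := by
          have := h i
          gcongr
      _ ≤ (M * r ^ n) * ‖x‖ ^ n := by
          have hle : ‖x‖ ^ i * r ^ (n - i) ≤ ‖x‖ ^ n := le_of_mul_le_mul_left h1 (pow_pos hr i)
          gcongr
      _ = M * ‖x‖ ^ n * r ^ n := by ring
  exact le_of_mul_le_mul_right h2 (pow_pos hr n)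

/-- products of `X - C c` with `‖c‖ < r` (strict) or `‖c‖ ≤ r` (weak) -/
theorem OPx_prodS {r : ℝ} (hr : 0 < r) (m : Multiset K) (h : ∀ c ∈ m, ‖c‖ < r) :
    ∀ j < Multiset.card m, ‖((m.map fun c => X - C c).prod).coeff j‖ * r ^ j < r ^ Multiset.card m := by
  induction m using Multiset.induction_on with
  | empty => intro j hj; simp at hj
  | cons c m ih =>
    have ih' := ih fun c hc => h c (Multiset.mem_cons_of_mem hc)
    have hc := h c (Multiset.mem_cons_self c m)
    set G := (m.map fun c => X - C c).prod with hG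
    have hGm : G.Monic := monic_multiset_prod_of_monic _ _ fun c _ => monic_X_sub_C c
    have hdeg : G.natDegree = Multiset.card m := by
      rw [hG, natDegree_multiset_prod_X_sub_C_eq_card]
    have hw : ∀ j, ‖G.coeff j‖ * r ^ j ≤ r ^ Multiset.card m := by
      intro j
      rcases lt_trichotomy j (Multiset.card m) with hj | hj | hj
      · exact (ih' j hj).le
      · rw [hj, ← hdeg, hGm.coeff_natDegree, norm_one, one_mul]
      · rw [coeff_eq_zero_of_natDegree_lt (by omega), norm_zero, zero_mul]; positivity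
    intro j hj
    rw [Multiset.card_cons] at hj ⊢
    rw [Multiset.map_cons, Multiset.prod_cons, ← hG, sub_mul, coeff_sub, coeff_C_mul]
    have hrj : 0 < r ^ j := pow_pos hr j
    rw [← lt_div_iff₀ hrj]
    refine (norm_sub_le_max' _ _).trans_lt (max_lt ?_ ?_)
    · rw [lt_div_iff₀ hrj]
      cases j with
      | zero => rw [coeff_X_mul_zero, norm_zero, zero_mul]; positivity
      | succ j =>
        rw [coeff_X_mul, pow_succ, pow_succ, ← mul_assoc]
        have := ih' j (by omega)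
        gcongr
    · rw [lt_div_iff₀ hrj, norm_mul, mul_assoc, pow_succ, mul_comm (r ^ Multiset.card m)]
      calc ‖c‖ * (‖G.coeff j‖ * r ^ j) ≤ ‖c‖ * r ^ Multiset.card m := by
            have := hw j
            gcongr
        _ < r * r ^ Multiset.card m := by
            have : 0 < r ^ Multiset.card m := pow_pos hr _
            gcongr

theorem OPx_prodW {r : ℝ} (hr : 0 < r) (m : Multiset K) (h : ∀ c ∈ m, ‖c‖ ≤ r) :
    ∀ j, ‖((m.map fun c => X - C c).prod).coeff j‖ * r ^ j ≤ r ^ Multiset.card m := by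
  induction m using Multiset.induction_on with
  | empty =>
    intro j
    simp only [Multiset.map_zero, Multiset.prod_zero, Multiset.card_zero, pow_zero]
    rw [coeff_one]
    split_ifs with h0
    · subst h0; simp
    · simp
  | cons c m ih =>
    have ih' := ih fun c hc => h c (Multiset.mem_cons_of_mem hc)
    have hc := h c (Multiset.mem_cons_self c m)
    set G := (m.map fun c => X - C c).prod with hG
    intro j
    rw [Multiset.card_cons]
    rw [Multiset.map_cons, Multiset.prod_cons, ← hG, sub_mul, coeff_sub, coeff_C_mul]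
    have hrj : 0 < r ^ j := pow_pos hr j
    rw [← le_div_iff₀ hrj]
    refine (norm_sub_le_max' _ _).trans (max_le ?_ ?_)
    · rw [le_div_iff₀ hrj]
      cases j with
      | zero => rw [coeff_X_mul_zero, norm_zero, zero_mul]; positivity
      | succ j =>
        rw [coeff_X_mul, pow_succ, pow_succ, ← mul_assoc]
        have := ih' j
        gcongr
    · rw [le_div_iff₀ hrj, norm_mul, mul_assoc, pow_succ, mul_comm (r ^ Multiset.card m)]
      have := ih' j
      gcongr

/-- products of `X - C c` with `r ≤ ‖c‖` -/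
theorem OPx_prodG {r : ℝ} (hr : 0 < r) (m : Multiset K) (h : ∀ c ∈ m, r ≤ ‖c‖) :
    ((m.map fun c => X - C c).prod).coeff 0 ≠ 0 ∧
    ∀ j, ‖((m.map fun c => X - C c).prod).coeff j‖ * r ^ j ≤
      ‖((m.map fun c => X - C c).prod).coeff 0‖ := by
  induction m using Multiset.induction_on with
  | empty =>
    simp only [Multiset.map_zero, Multiset.prod_zero]
    refine ⟨by simp, fun j => ?_⟩
    by_cases h0 : j = 0
    · subst h0; simp
    · rw [coeff_one, if_neg h0]; simp
  | cons c m ih =>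
    obtain ⟨ih0, ih'⟩ := ih fun c hc => h c (Multiset.mem_cons_of_mem hc)
    have hc := h c (Multiset.mem_cons_self c m)
    have hc0 : 0 < ‖c‖ := hr.trans_le hc
    set G := (m.map fun c => X - C c).prod with hG
    have hz : ((X - C c) * G).coeff 0 = - (c * G.coeff 0) := by
      rw [sub_mul, coeff_sub, coeff_C_mul, coeff_X_mul_zero, zero_sub]
    rw [Multiset.map_cons, Multiset.prod_cons, ← hG, hz, norm_neg, norm_mul]
    refine ⟨neg_ne_zero.2 (mul_ne_zero (norm_pos_iff.1 hc0) ih0), fun j => ?_⟩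
    have hrj : 0 < r ^ j := pow_pos hr j
    rw [sub_mul, coeff_sub, coeff_C_mul, ← le_div_iff₀ hrj]
    refine (norm_sub_le_max' _ _).trans (max_le ?_ ?_)
    · rw [le_div_iff₀ hrj]
      cases j with
      | zero => rw [coeff_X_mul_zero, norm_zero, zero_mul]; positivity
      | succ j =>
        rw [coeff_X_mul, pow_succ, ← mul_assoc, mul_comm ‖c‖]
        have := ih' j
        gcongr
    · rw [le_div_iff₀ hrj, norm_mul, mul_assoc]
      have := ih' j
      gcongr

theorem OPx_prodGS {r : ℝ} (hr : 0 < r) (m : Multiset K) (h : ∀ c ∈ m, r < ‖c‖) :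
    ∀ j, 0 < j → ‖((m.map fun c => X - C c).prod).coeff j‖ * r ^ j <
      ‖((m.map fun c => X - C c).prod).coeff 0‖ := by
  induction m using Multiset.induction_on with
  | empty =>
    simp only [Multiset.map_zero, Multiset.prod_zero]
    intro j hj
    rw [coeff_one, coeff_one, if_neg hj.ne', if_pos rfl]
    simp
  | cons c m ih =>
    have ih' := ih fun c hc => h c (Multiset.mem_cons_of_mem hc)
    obtain ⟨i0, iw⟩ := OPx_prodG hr m fun c hc => (h c (Multiset.mem_cons_of_mem hc)).le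
    have hc := h c (Multiset.mem_cons_self c m)
    have hc0 : 0 < ‖c‖ := hr.trans hc
    set G := (m.map fun c => X - C c).prod with hG
    have hG0 : 0 < ‖G.coeff 0‖ := norm_pos_iff.2 i0
    have hz : ((X - C c) * G).coeff 0 = - (c * G.coeff 0) := by
      rw [sub_mul, coeff_sub, coeff_C_mul, coeff_X_mul_zero, zero_sub]
    rw [Multiset.map_cons, Multiset.prod_cons, ← hG, hz, norm_neg, norm_mul]
    intro j hj
    have hrj : 0 < r ^ j := pow_pos hr j
    rw [sub_mul, coeff_sub, coeff_C_mul, ← lt_div_iff₀ hrj]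
    refine (norm_sub_le_max' _ _).trans_lt (max_lt ?_ ?_)
    · rw [lt_div_iff₀ hrj]
      cases j with
      | zero => omega
      | succ j =>
        rw [coeff_X_mul, pow_succ, ← mul_assoc, mul_comm ‖c‖]
        calc ‖G.coeff j‖ * r ^ j * r ≤ ‖G.coeff 0‖ * r := by
              have := iw j
              gcongr
          _ < ‖G.coeff 0‖ * ‖c‖ := by gcongr
    · rw [lt_div_iff₀ hrj, norm_mul, mul_assoc]
      have := ih' j hj
      gcongr

/-- generic points compute the Gauss norm -/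
theorem OPx_generic {r : ℝ} (hr : 0 < r) (m : Multiset K) (x : K) (hx : ‖x‖ ≤ r)
    (h : ∀ c ∈ m, r ≤ ‖x - c‖) :
    ∀ j, ‖((m.map fun c => X - C c).prod).coeff j‖ * r ^ j ≤ (m.map fun c => ‖x - c‖).prod := by
  induction m using Multiset.induction_on with
  | empty =>
    intro j
    simp only [Multiset.map_zero, Multiset.prod_zero]
    rw [coeff_one]
    split_ifs with h0
    · subst h0; simp
    · simp
  | cons c m ih =>
    have ih' := ih fun c hc => h c (Multiset.mem_cons_of_mem hc)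
    have hc := h c (Multiset.mem_cons_self c m)
    set G := (m.map fun c => X - C c).prod with hG
    set M := (m.map fun c => ‖x - c‖).prod with hM
    have hM0 : 0 ≤ M := by
      refine le_trans ?_ (ih' 0)
      positivity
    have hcc : ‖c‖ ≤ ‖x - c‖ := by
      have e : c = x - (x - c) := by ring
      have h1 : ‖c‖ ≤ max ‖x‖ ‖x - c‖ := by
        nth_rewrite 1 [e]; exact norm_sub_le_max' _ _
      exact h1.trans (max_le (hx.trans hc) le_rfl)
    intro j
    have hrj : 0 < r ^ j := pow_pos hr j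
    rw [Multiset.map_cons, Multiset.prod_cons, Multiset.map_cons, Multiset.prod_cons, ← hG, ← hM,
      sub_mul, coeff_sub, coeff_C_mul, ← le_div_iff₀ hrj]
    refine (norm_sub_le_max' _ _).trans (max_le ?_ ?_)
    · rw [le_div_iff₀ hrj]
      cases j with
      | zero => rw [coeff_X_mul_zero, norm_zero, zero_mul]; positivity
      | succ j =>
        rw [coeff_X_mul, pow_succ, ← mul_assoc, mul_comm ‖x - c‖]
        have := ih' j
        gcongr
    · rw [le_div_iff₀ hrj, norm_mul, mul_assoc]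
      have := ih' j
      gcongr

end Key

section Main

variable {K : Type u} [NontriviallyNormedField K] [IsUltrametricDist K] [IsAlgClosed K]

theorem OPx_taylor_prod (s : K) (m : Multiset K) :
    taylor s ((m.map fun c => X - C c).prod) = ((m.map fun c => c - s).map fun c => X - C c).prod := by
  induction m using Multiset.induction_on with
  | empty => simp
  | cons c m ih =>
    simp only [Multiset.map_cons, Multiset.prod_cons]
    rw [taylor_mul, ih]
    congr 1
    simp only [map_sub, taylor_X, taylor_C, C_sub]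
    ring

theorem OPx_taylor_eval (s a : K) (Q : K[X]) : Q.eval a = (taylor s Q).eval (a - s) := by
  rw [taylor_eval, sub_add_cancel]

/-- coefficients of the Taylor expansion at a generic point -/
theorem OPx_generic_poly {r : ℝ} (hr : 0 < r) (W : K[X]) (s a : K) (ha : ‖a - s‖ ≤ r)
    (h : ∀ c ∈ W.roots, r ≤ ‖a - c‖) : ∀ j, ‖(taylor s W).coeff j‖ * r ^ j ≤ ‖W.eval a‖ := by
  intro j
  have h1 := (IsAlgClosed.splits W).eq_prod_roots
  have h2 : taylor s W = C W.leadingCoeff *
      ((W.roots.map fun c => c - s).map fun c => X - C c).prod := by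
    conv_lhs => rw [h1]
    rw [taylor_mul, taylor_C]
    congr 1
    exact OPx_taylor_prod s W.roots
  rw [h2, coeff_C_mul, norm_mul, (IsAlgClosed.splits W).eval_eq_prod_roots, norm_mul, mul_assoc]
  gcongr
  have h3 := OPx_generic hr (W.roots.map fun c => c - s) (a - s) ha (by
    intro c hc
    rw [Multiset.mem_map] at hc
    obtain ⟨d, hd, rfl⟩ := hc
    have := h d hd
    have e : a - s - (d - s) = a - d := by ring
    rwa [e]) j
  refine h3.trans (le_of_eq ?_)
  have h4 := map_multiset_prod (normHom : K →*₀ ℝ) (W.roots.map fun c => a - c)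
  refine Eq.trans ?_ h4.symm
  rw [Multiset.map_map, Multiset.map_map]
  congr 1
  apply Multiset.map_congr rfl
  intro c _
  change ‖a - s - (c - s)‖ = ‖a - c‖
  congr 1
  ring

/-- the common part of OPO and OPC -/
theorem OPx_common (hEva : SEva.{u}) (hGne : SGne.{u}) (b b1 b2 : RatFunc K) (s ϖ : K) (η : ℝ)
    (S : Finset K) (hϖ : ϖ ≠ 0) (hb : b = b1 + b2) (hv : VanInf b1)
    (h1 : ∀ a, b1.denom.IsRoot a → ‖a - s‖ ≤ ‖ϖ‖) (h2 : ∀ a, b2.denom.IsRoot a → ‖ϖ‖ ≤ ‖a - s‖)
    (hs : (∀ a, b1.denom.IsRoot a → ‖a - s‖ < ‖ϖ‖) ∨ (∀ a, b2.denom.IsRoot a → ‖ϖ‖ < ‖a - s‖))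
    (hg : ∀ a ∈ Gen s ‖ϖ‖ S, reg a b ∧ ‖ev a b‖ ≤ η) :
    0 ≤ η ∧
    (∀ i, ‖(taylor s b1.num).coeff i‖ * ‖ϖ‖ ^ i ≤ η * ‖ϖ‖ ^ b1.denom.natDegree) ∧
    (∀ i, ‖(taylor s b2.num).coeff i‖ * ‖ϖ‖ ^ i ≤ η * ‖b2.denom.eval s‖) := by
  classical
  set r := ‖ϖ‖ with hr
  have hrpos : 0 < r := norm_pos_iff.2 hϖ
  set W : K[X] := b1.num * b2.denom + b2.num * b1.denom with hW
  obtain ⟨a, ha⟩ := hGne K s ϖ (S ∪ W.roots.toFinset ∪ b1.denom.roots.toFinset ∪
    b2.denom.roots.toFinset) hϖ
  have hab : ‖a - s‖ ≤ r := ha.1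
  have haS : a ∈ Gen s ‖ϖ‖ S := ⟨ha.1, fun c hc => ha.2 c (by simp [hc])⟩
  have haW : ∀ c ∈ W.roots, r ≤ ‖a - c‖ := fun c hc => ha.2 c (by
    simp only [Finset.mem_union, Multiset.mem_toFinset]
    exact Or.inl (Or.inl (Or.inr hc)))
  have ha1 : ∀ c, b1.denom.IsRoot c → r ≤ ‖a - c‖ := fun c hc => ha.2 c (by
    simp only [Finset.mem_union, Multiset.mem_toFinset]
    exact Or.inl (Or.inr ((mem_roots b1.denom_ne_zero).2 hc)))
  have ha2 : ∀ c, b2.denom.IsRoot c → r ≤ ‖a - c‖ := fun c hc => ha.2 c (by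
    simp only [Finset.mem_union, Multiset.mem_toFinset]
    exact Or.inr ((mem_roots b2.denom_ne_zero).2 hc))
  have hr1 : reg a b1 := by
    intro h0
    have := ha1 a h0
    rw [sub_self, norm_zero] at this
    linarith
  have hr2 : reg a b2 := by
    intro h0
    have := ha2 a h0
    rw [sub_self, norm_zero] at this
    linarith
  obtain ⟨-, e1, -⟩ := (hEva K a b1 b2).1 hr1 hr2
  obtain ⟨-, e2⟩ := hg a haS
  have hη : 0 ≤ η := (norm_nonneg _).trans e2
  -- the denominators
  set G1 := taylor s b1.denom with hG1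
  set G2 := taylor s b2.denom with hG2
  have f1 := (IsAlgClosed.splits b1.denom).eq_prod_roots_of_monic b1.monic_denom
  have f2 := (IsAlgClosed.splits b2.denom).eq_prod_roots_of_monic b2.monic_denom
  have g1 : G1 = ((b1.denom.roots.map fun c => c - s).map fun c => X - C c).prod := by
    rw [hG1]
    conv_lhs => rw [f1]
    exact OPx_taylor_prod s _
  have g2 : G2 = ((b2.denom.roots.map fun c => c - s).map fun c => X - C c).prod := by
    rw [hG2]
    conv_lhs => rw [f2]
    exact OPx_taylor_prod s _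
  have hG1m : G1.Monic := by
    rw [g1]; exact monic_multiset_prod_of_monic _ _ fun c _ => monic_X_sub_C c
  have hcard : Multiset.card (b1.denom.roots.map fun c => c - s) = G1.natDegree := by
    rw [g1, natDegree_multiset_prod_X_sub_C_eq_card]
  have hdeg : G1.natDegree = b1.denom.natDegree := by rw [hG1, natDegree_taylor]
  have w1 : ∀ j, ‖G1.coeff j‖ * r ^ j ≤ r ^ G1.natDegree := by
    intro j
    rw [← hcard, g1]
    apply OPx_prodW hrpos
    intro c hc
    rw [Multiset.mem_map] at hc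
    obtain ⟨d, hd, rfl⟩ := hc
    exact h1 d ((mem_roots b1.denom_ne_zero).1 hd)
  have w2 : G2.coeff 0 ≠ 0 ∧ ∀ j, ‖G2.coeff j‖ * r ^ j ≤ ‖G2.coeff 0‖ := by
    rw [g2]
    apply OPx_prodG hrpos
    intro c hc
    rw [Multiset.mem_map] at hc
    obtain ⟨d, hd, rfl⟩ := hc
    exact h2 d ((mem_roots b2.denom_ne_zero).1 hd)
  have hs' : (∀ j < G1.natDegree, ‖G1.coeff j‖ * r ^ j < r ^ G1.natDegree) ∨
      (∀ j, 0 < j → ‖G2.coeff j‖ * r ^ j < ‖G2.coeff 0‖) := by
    rcases hs with hs | hs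
    · left
      rw [← hcard, g1]
      apply OPx_prodS hrpos
      intro c hc
      rw [Multiset.mem_map] at hc
      obtain ⟨d, hd, rfl⟩ := hc
      exact hs d ((mem_roots b1.denom_ne_zero).1 hd)
    · right
      rw [g2]
      apply OPx_prodGS hrpos
      intro c hc
      rw [Multiset.mem_map] at hc
      obtain ⟨d, hd, rfl⟩ := hc
      exact hs d ((mem_roots b2.denom_ne_zero).1 hd)
  have hG20 : G2.coeff 0 = b2.denom.eval s := by rw [hG2, taylor_coeff_zero]
  have hU : (taylor s b1.num).degree < G1.degree := by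
    rw [hG1, degree_taylor, degree_taylor]; exact hv
  have hWt : taylor s W = taylor s b1.num * G2 + taylor s b2.num * G1 := by
    rw [hW, map_add, taylor_mul, taylor_mul]
  have hWa : ‖W.eval a‖ ≤ η * (r ^ G1.natDegree * ‖G2.coeff 0‖) := by
    have e3 : W.eval a = ev a b * (b1.denom.eval a * b2.denom.eval a) := by
      rw [hb, e1, hW, eval_add, eval_mul, eval_mul]
      have d1 : b1.denom.eval a ≠ 0 := hr1
      have d2 : b2.denom.eval a ≠ 0 := hr2
      have e4 : ev a b1 = b1.num.eval a / b1.denom.eval a := by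
        unfold ev; rw [RatFunc.eval]; simp only [eval₂_id]
      have e5 : ev a b2 = b2.num.eval a / b2.denom.eval a := by
        unfold ev; rw [RatFunc.eval]; simp only [eval₂_id]
      rw [e4, e5]
      field_simp
    rw [e3, norm_mul, norm_mul]
    have e6 : ‖b1.denom.eval a‖ ≤ r ^ G1.natDegree := by
      rw [OPx_taylor_eval s a]
      exact OPx_eval_le (by positivity) w1 hab
    have e7 : ‖b2.denom.eval a‖ ≤ ‖G2.coeff 0‖ := by
      rw [OPx_taylor_eval s a]
      exact OPx_eval_le (by positivity) w2.2 hab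
    gcongr
  obtain ⟨c1, c2⟩ := OPx_key hrpos hη hU hG1m w1 w2.2 w2.1 hs' (V := taylor s b2.num) (by
    intro i
    rw [← hWt]
    exact (OPx_generic_poly hrpos W s a hab haW i).trans hWa)
  refine ⟨hη, ?_, ?_⟩
  · rw [← hdeg]; exact c1
  · rw [← hG20]; exact c2

theorem OPx_ev (a : K) (b : RatFunc K) : ev a b = b.num.eval a / b.denom.eval a := by
  unfold ev; rw [RatFunc.eval]; simp only [eval₂_id]

theorem OPx_norm_eval (Q : K[X]) (hQ : Q.Monic) (a : K) :
    ‖Q.eval a‖ = (Q.roots.map fun c => ‖a - c‖).prod := by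
  rw [(IsAlgClosed.splits Q).eval_eq_prod_roots_of_monic hQ]
  have h4 := map_multiset_prod (normHom : K →*₀ ℝ) (Q.roots.map fun c => a - c)
  refine Eq.trans h4 ?_
  rw [Multiset.map_map]
  rfl

/-- bound of `b1` outside -/
theorem OPx_out (b1 : RatFunc K) (s a : K) {r η : ℝ} (hr : 0 < r) (hη : 0 ≤ η) (hv : VanInf b1)
    (h1 : ∀ c, b1.denom.IsRoot c → ‖c - s‖ < ‖a - s‖) (ha : r ≤ ‖a - s‖)
    (h : ∀ i, ‖(taylor s b1.num).coeff i‖ * r ^ i ≤ η * r ^ b1.denom.natDegree) :
    ‖ev a b1‖ ≤ η := by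
  have hx : 0 < ‖a - s‖ := hr.trans_le ha
  have e1 : ‖b1.denom.eval a‖ = ‖a - s‖ ^ b1.denom.natDegree := by
    rw [OPx_norm_eval _ b1.monic_denom, (IsAlgClosed.splits b1.denom).natDegree_eq_card_roots]
    rw [← Multiset.prod_replicate, ← Multiset.map_const']
    congr 1
    apply Multiset.map_congr rfl
    intro c hc
    have h2 := h1 c ((mem_roots b1.denom_ne_zero).1 hc)
    have e : a - c = (a - s) + (-(c - s)) := by ring
    rw [e, OPx_add_eq (by rw [norm_neg]; exact h2)]
  have e2 : ‖b1.num.eval a‖ ≤ η * ‖a - s‖ ^ b1.denom.natDegree := by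
    rw [OPx_taylor_eval s a]
    apply OPx_eval_out hr hη _ h ha
    intro i hi
    by_contra hcon
    push Not at hcon
    apply hi
    apply coeff_eq_zero_of_degree_lt
    rw [degree_taylor]
    refine lt_of_lt_of_le hv ?_
    rw [degree_eq_natDegree b1.denom_ne_zero]
    exact_mod_cast hcon
  rw [OPx_ev, norm_div, e1, div_le_iff₀ (by positivity)]
  exact e2

/-- bound of `b2` inside -/
theorem OPx_in (b2 : RatFunc K) (s a : K) {r η : ℝ} (hη : 0 ≤ η)
    (h2 : ∀ c, b2.denom.IsRoot c → ‖a - s‖ < ‖c - s‖) (ha : ‖a - s‖ ≤ r)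
    (h : ∀ i, ‖(taylor s b2.num).coeff i‖ * r ^ i ≤ η * ‖b2.denom.eval s‖) :
    ‖ev a b2‖ ≤ η := by
  have e1 : ‖b2.denom.eval a‖ = ‖b2.denom.eval s‖ := by
    rw [OPx_norm_eval _ b2.monic_denom, OPx_norm_eval _ b2.monic_denom]
    congr 1
    apply Multiset.map_congr rfl
    intro c hc
    have h3 := h2 c ((mem_roots b2.denom_ne_zero).1 hc)
    have e : a - c = (s - c) + (a - s) := by ring
    rw [e, OPx_add_eq (by rw [norm_sub_rev s c]; exact h3)]
  have e0 : b2.denom.eval s ≠ 0 := by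
    intro h0
    have := h2 s h0
    rw [sub_self, norm_zero] at this
    exact absurd this (not_lt.2 (norm_nonneg _))
  have e2 : ‖b2.num.eval a‖ ≤ η * ‖b2.denom.eval s‖ := by
    rw [OPx_taylor_eval s a]
    exact OPx_eval_le (by positivity) h ha
  rw [OPx_ev, norm_div, e1, div_le_iff₀ (norm_pos_iff.2 e0)]
  exact e2

end Main

/-- OPO -/
theorem sOpo (hEva : SEva.{u}) (hGne : SGne.{u}) : SOpo.{u} := by
  intro K _ _ _ b b1 b2 s ϖ η S hϖ hb hv h1 h2 hg
  have hr : 0 < ‖ϖ‖ := norm_pos_iff.2 hϖ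
  have r1 : ∀ a, b1.denom.IsRoot a → ‖a - s‖ < ‖ϖ‖ := by
    intro a ha
    by_contra hcon
    exact h1 a (by rw [mem_ball, dist_eq_norm]; exact hcon) ha
  have r2 : ∀ a, b2.denom.IsRoot a → ‖ϖ‖ ≤ ‖a - s‖ := by
    intro a ha
    by_contra hcon
    exact h2 a (by rw [mem_ball, dist_eq_norm]; exact not_le.1 hcon) ha
  obtain ⟨hη, c1, c2⟩ := OPx_common hEva hGne b b1 b2 s ϖ η S hϖ hb hv (fun a ha => (r1 a ha).le) r2
    (Or.inl r1) hg
  constructor
  · intro a ha
    rw [mem_ball, dist_eq_norm, not_lt] at ha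
    exact OPx_out b1 s a hr hη hv (fun c hc => (r1 c hc).trans_le ha) ha c1
  · intro a ha
    rw [mem_ball, dist_eq_norm] at ha
    exact OPx_in b2 s a hη (fun c hc => ha.trans_le (r2 c hc)) ha.le c2

/-- OPC -/
theorem sOpc (hEva : SEva.{u}) (hGne : SGne.{u}) : SOpc.{u} := by
  intro K _ _ _ b b1 b2 s ϖ η S hϖ hb hv h1 h2 hg
  have hr : 0 < ‖ϖ‖ := norm_pos_iff.2 hϖ
  have r1 : ∀ a, b1.denom.IsRoot a → ‖a - s‖ ≤ ‖ϖ‖ := by
    intro a ha
    by_contra hcon
    exact h1 a (by rw [mem_closedBall, dist_eq_norm]; exact hcon) ha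
  have r2 : ∀ a, b2.denom.IsRoot a → ‖ϖ‖ < ‖a - s‖ := by
    intro a ha
    by_contra hcon
    exact h2 a (by rw [mem_closedBall, dist_eq_norm]; exact not_lt.1 hcon) ha
  obtain ⟨hη, c1, c2⟩ := OPx_common hEva hGne b b1 b2 s ϖ η S hϖ hb hv r1 (fun a ha => (r2 a ha).le)
    (Or.inr r2) hg
  constructor
  · intro a ha
    rw [mem_closedBall, dist_eq_norm, not_le] at ha
    exact OPx_out b1 s a hr hη hv (fun c hc => (r1 c hc).trans_lt ha) ha.le c1
  · intro a ha
    rw [mem_closedBall, dist_eq_norm] at ha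
    exact OPx_in b2 s a hη (fun c hc => ha.trans_lt (r2 c hc)) ha c2

end PUC
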