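import Pool.Agent.H77.PUC.OUC

universe u

namespace PUC

open Polynomial Filter Topology Metric

theorem sOua (hInv : SInv.{u})
    (hFlp : SFlp.{u}) (hPul : SPul.{u}) (hPlx : SPlx.{u})
    (hRfa : SRfa.{u}) (hIca : SIca.{u}) (hTow : STow.{u})
    (hSur : SSur.{u}) : SOua.{u} := by
  classical
  intro K F₁ F₂ _ _ _ _ _ _ _ _ _ p g hp hp1 hg s1 s2 x1 y1 x2 y2 hA1 hA2 h1 h2 φ hφ'
  -- the coordinate `x2` on `AlgebraicClosure F₂`
  have hx2t : Transcendental K (algebraMap F₂ (AlgebraicClosure F₂) x2) := by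
    intro h
    exact h2.trans ((isAlgebraic_algebraMap_iff (algebraMap F₂ (AlgebraicClosure F₂)).injective).1 h)
  have := (hIca K F₂ g s2 x2 y2 h2).1
  have halg2 : Algebra.IsAlgebraic
      (IntermediateField.adjoin K {algebraMap F₂ (AlgebraicClosure F₂) x2}) (AlgebraicClosure F₂) :=
    hTow K F₂ (AlgebraicClosure F₂) x2 inferInstance
  obtain ⟨inst, htow, hzz, hal, -, hmem⟩ := hRfa K (AlgebraicClosure F₂) _ hx2t
  have := htow
  have := hal halg2
  have hx1ne : up K x1 ≠ 0 := by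
    intro h
    apply OUC_trans_up h1.trans
    rw [h]
    exact isAlgebraic_zero
  have heq1 : up K y1 ^ 2 + up K y1 = up K x1 ^ (2 * g + 1) + algebraMap K (UC K F₁) s1 * up K x1 := by
    have := congrArg (algebraMap F₁ (UC K F₁)) h1.eqn
    simp only [map_add, map_mul, map_pow] at this
    exact this
  have h1t' : Transcendental K (up K x1) := OUC_trans_up h1.trans
  have := (hIca K F₁ g s1 x1 y1 h1).1
  have halg1 := hTow K F₁ (UC K F₁) x1 inferInstance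
  obtain ⟨hs1, Qi, hQi⟩ := hSur K (UC K F₁) (up K x1) h1t' halg1
  set Φ : Place K (AlgebraicClosure F₂) → Place K (UC K F₁) := fun P => φ.symm (rs P) with hΦ
  have hAn : ∀ f : UC K F₁, AnF Φ f := fun f =>
    (hPul K (UC K F₂) (UC K F₁) (AlgebraicClosure F₂) φ.symm f
      ((UC K F₂).val.restrictScalars K) (hφ' f)).1
  have hhit : ∀ Q : Place K (UC K F₁), ∃ P, Φ P = Q := by
    intro Q
    obtain ⟨P, hP⟩ := OUT_lift hPlx (φ Q)
    exact ⟨P, by rw [hΦ]; simp only; rw [hP, Equiv.symm_apply_apply]⟩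
  obtain ⟨F', hF1, hF2, hFx, hFy⟩ := hInv K (AlgebraicClosure F₂) (UC K F₁) p g hp hp1 hg s1
    (up K x1) (up K y1) hA1 hx1ne heq1 Φ (hAn _) (hAn _) (hAn _)
    (by obtain ⟨P, hP⟩ := hhit Qi; exact ⟨P, by rw [hP]; exact hQi⟩)
    (by
      obtain ⟨Q, hQ1, hQ2⟩ := hs1 0
      obtain ⟨P, hP⟩ := hhit Q
      exact ⟨P, by rw [hP]; exact ⟨hQ1, hQ2⟩⟩)
  obtain ⟨⟨A, hA⟩, -⟩ := hFlp K (AlgebraicClosure F₂) (UC K F₁) F' Φ (up K x1) hFx
  refine ⟨A, fun P hP => ?_⟩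
  obtain ⟨P', hP'⟩ := OUT_lift hPlx (φ P)
  have h3 : Φ P' = P := by rw [hΦ]; simp only; rw [hP', Equiv.symm_apply_apply]
  rw [← h3]
  apply hA
  rw [hzz]
  intro h4
  apply hP
  rw [← hP']
  exact h4

end PUC
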