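import Pool.Agent.H77.PUC.OUC

universe u

namespace PUC

open Polynomial Filter Topology Metric

theorem sOub (hBdu : SBdu.{u}) (hRfa : SRfa.{u}) (hIca : SIca.{u}) (hTow : STow.{u}) :
    SOub.{u} := by
  classical
  intro K F₁ F₂ _ _ _ _ _ _ _ _ _ g s2 x2 y2 h2 φ hφ' z A hpole δ hδ
  by_contra hcon
  push Not at hcon
  choose Ps hPs1 hPs2 using fun n : ℕ => hcon n
  have h2t' : Transcendental K (up K x2) := OUC_trans_up h2.trans
  have := (hIca K F₂ g s2 x2 y2 h2).1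
  have halg2 := hTow K F₂ (UC K F₂) x2 inferInstance
  obtain ⟨inst, htow, hzz, hal, -, hmem⟩ := hRfa K (UC K F₂) (up K x2) h2t'
  have := htow
  have := hal halg2
  let 𝒰 : Ultrafilter (Place K (UC K F₁)) := Ultrafilter.of (map Ps atTop)
  have hle : (𝒰 : Filter (Place K (UC K F₁))) ≤ map Ps atTop := Ultrafilter.of_le _
  have hev : ∀ κ : ℝ, ∀ᶠ P in (𝒰 : Filter (Place K (UC K F₁))),
      κ ≤ ‖(φ P).val (up K x2)‖ := by
    intro κ
    apply hle
    rw [Filter.mem_map]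
    filter_upwards [eventually_ge_atTop ⌈κ⌉₊] with n hn
    show κ ≤ ‖(φ (Ps n)).val (up K x2)‖
    exact ((Nat.le_ceil κ).trans (by exact_mod_cast hn)).trans (hPs2 n).le
  obtain ⟨P0, hP0, hlim⟩ := hBdu K (UC K F₁) (UC K F₂) φ hφ' 𝒰 (by
    intro κ
    rw [hzz]
    filter_upwards [hev κ] with P hP _
    exact hP)
  rw [hzz] at hP0
  obtain ⟨hz0, hzA⟩ := hpole P0 hP0
  have hev2 : ∀ᶠ P in (𝒰 : Filter (Place K (UC K F₁))),
      (z ∈ P.ring → ∀ a ∈ A, δ ≤ ‖P.val z - a‖) := by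
    apply hle
    rw [Filter.mem_map]
    filter_upwards with n
    exact hPs1 n
  obtain ⟨P, ⟨hP1, hP2⟩, hP3⟩ := ((hlim z hz0 (δ / 2) (by linarith)).and hev2).exists
  have := hP3 hP1 _ hzA
  linarith

end PUC
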