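import Pool.Agent.H77.PUC.OUT

universe u

namespace PUC

open Polynomial Filter Topology Metric

theorem OUC_trans_up {K F : Type u} [Field K] [Field F] [Algebra K F] {x : F}
    (h : Transcendental K x) : Transcendental K (up K x) := by
  intro h'
  exact h ((isAlgebraic_algebraMap_iff (algebraMap F (UC K F)).injective).1 h')

theorem OUC_trans_coe {K F : Type u} [Field K] [Field F] [Algebra K F] {x : UC K F}
    (h : Transcendental K x) : Transcendental K (x : AlgebraicClosure F) := by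
  have : IsScalarTower K (UC K F) (AlgebraicClosure F) :=
    IsScalarTower.of_algebraMap_eq fun _ => rfl
  intro h'
  exact h ((isAlgebraic_algebraMap_iff (algebraMap (UC K F) (AlgebraicClosure F)).injective).1 h')

theorem OUC_bound {K : Type u} [NontriviallyNormedField K] [IsUltrametricDist K] {g : ℕ}
    {s x y : K} {κ : ℝ} (hx : ‖x‖ ≤ κ) (h : y ^ 2 + y = x ^ (2 * g + 1) + s * x) :
    ‖y‖ ≤ max 1 (max (κ ^ (2 * g + 1)) (‖s‖ * κ)) := by
  by_cases hy : ‖y‖ ≤ 1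
  · exact hy.trans (le_max_left _ _)
  · push_neg at hy
    have h1 : ‖y ^ 2 + y‖ = ‖y‖ ^ 2 := by
      have hlt : ‖y‖ < ‖y ^ 2‖ := by
        rw [norm_pow]; nlinarith
      rw [IsUltrametricDist.norm_add_eq_max_of_norm_ne_norm (ne_of_gt hlt), norm_pow, max_eq_left]
      rw [norm_pow] at hlt; exact hlt.le
    have h2 : ‖y ^ 2 + y‖ ≤ max (κ ^ (2 * g + 1)) (‖s‖ * κ) := by
      rw [h]
      refine (IsUltrametricDist.norm_add_le_max _ _).trans (max_le_max ?_ ?_)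
      · rw [norm_pow]; gcongr
      · rw [norm_mul]; gcongr
    refine le_trans ?_ (h2.trans (le_max_right _ _))
    rw [h1]; nlinarith

theorem sOuc (hOua : SOua.{u}) (hOub : SOub.{u}) (hInv : SInv.{u}) (hGag : SGag.{u})
    (hFlp : SFlp.{u}) (hPul : SPul.{u}) (hPlx : SPlx.{u})
    (hRfa : SRfa.{u}) (hIca : SIca.{u}) (hAlc : SAlc.{u}) (hTow : STow.{u}) (hCrd : SCrd.{u})
    (hSur : SSur.{u}) : SOuc.{u} := by
  classical
  intro K F₁ F₂ _ _ _ _ _ _ _ _ _ p g hp hp1 hg s1 s2 x1 y1 x2 y2 hA1 hA2 h1 h2 φ hφ hφ'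
  obtain ⟨A, hA⟩ := hOua K F₁ F₂ p g hp hp1 hg s1 s2 x1 y1 x2 y2 hA1 hA2 h1 h2 φ hφ'
  have hinf : Infinite K := inferInstance
  obtain ⟨α, hα⟩ := Infinite.exists_notMem_finset A
  set X1 : UC K F₁ := up K x1 with hX1
  have hX1t : Transcendental K X1 := OUC_trans_up h1.trans
  have hsub : X1 - algebraMap K (UC K F₁) α ≠ 0 := by
    intro h0
    apply hX1t
    rw [sub_eq_zero.1 h0]
    exact isAlgebraic_algebraMap α
  set z0 : UC K F₁ := (X1 - algebraMap K (UC K F₁) α)⁻¹ with hz0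
  have hz0t : Transcendental K z0 := by
    intro h0
    apply hX1t
    have h3 : X1 = z0⁻¹ + algebraMap K (UC K F₁) α := by rw [hz0, inv_inv]; ring
    rw [h3]
    exact h0.inv.add (isAlgebraic_algebraMap α)
  set A' : Finset K := insert 0 (A.image fun a => (a - α)⁻¹) with hA'
  have hpole0 : ∀ P : Place K (UC K F₁), up K x2 ∉ (φ P).ring → z0 ∈ P.ring ∧ P.val z0 ∈ A' := by
    intro P hP
    have h3 := hA P hP
    by_cases hx : X1 ∈ P.ring
    · have h4 : X1 - algebraMap K (UC K F₁) α ∈ P.ring := by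
        rw [sub_eq_add_neg]; exact P.ring.add_mem _ _ hx (P.ring.neg_mem _ (P.alg_mem _))
      have h5 : P.val (X1 - algebraMap K (UC K F₁) α) = P.val X1 - α := by
        rw [P.val_sub hx (P.alg_mem _), P.val_algebraMap]
      have h6 : P.val X1 - α ≠ 0 := by
        intro h7
        apply hα
        rw [← sub_eq_zero.1 h7]
        exact h3
      refine ⟨P.inv_mem_of_val h4 (by rw [h5]; exact h6), ?_⟩
      rw [hz0, P.val_inv h4 (by rw [h5]; exact h6), h5, hA', Finset.mem_insert]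
      right
      exact Finset.mem_image_of_mem (fun a => (a - α)⁻¹) h3
    · have h4 : X1 - algebraMap K (UC K F₁) α ∉ P.ring := by
        intro h5
        apply hx
        have := P.ring.add_mem _ _ h5 (P.alg_mem α)
        simpa using this
      refine ⟨P.inv_mem_of_not_mem h4, ?_⟩
      rw [hz0, P.val_inv_of_not_mem h4]
      exact Finset.mem_insert_self _ _
  have hbdd0 := hOub K F₁ F₂ g s2 x2 y2 h2 φ hφ' z0 A' hpole0
  -- the coordinate `z`
  have hzt : Transcendental K (z0 : AlgebraicClosure F₁) := OUC_trans_coe hz0t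
  have hx1t : Transcendental K (algebraMap F₁ (AlgebraicClosure F₁) x1) := by
    intro h
    exact h1.trans ((isAlgebraic_algebraMap_iff (algebraMap F₁ (AlgebraicClosure F₁)).injective).1 h)
  have := (hIca K F₁ g s1 x1 y1 h1).1
  have halg1 : Algebra.IsAlgebraic
      (IntermediateField.adjoin K {algebraMap F₁ (AlgebraicClosure F₁) x1}) (AlgebraicClosure F₁) :=
    hTow K F₁ (AlgebraicClosure F₁) x1 inferInstance
  have halgz := hAlc K (AlgebraicClosure F₁) _ (z0 : AlgebraicClosure F₁) hx1t halg1 hzt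
  obtain ⟨inst, htow, hzz, hal, -, hmem⟩ := hRfa K (AlgebraicClosure F₁) _ hzt
  have := htow
  have := hal halgz
  have hx2ne : up K x2 ≠ 0 := by
    intro h
    apply OUC_trans_up h2.trans
    rw [h]
    exact isAlgebraic_zero
  have heq2 : up K y2 ^ 2 + up K y2 = up K x2 ^ (2 * g + 1) + algebraMap K (UC K F₂) s2 * up K x2 := by
    have := congrArg (algebraMap F₂ (UC K F₂)) h2.eqn
    simp only [map_add, map_mul, map_pow] at this
    exact this
  have hy2ne : up K y2 ≠ 0 := by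
    intro h
    rw [h] at heq2
    apply OUC_trans_up h2.trans
    refine ⟨X ^ (2 * g + 1) + C s2 * X, ?_, ?_⟩
    · intro h0
      have h3 := congrArg (fun Q : K[X] => Q.coeff (2 * g + 1)) h0
      simp only [coeff_add, coeff_X_pow_self, coeff_C_mul, coeff_zero] at h3
      rw [coeff_X_of_ne_one (by omega)] at h3
      simp at h3
    · rw [map_add, map_mul, map_pow, aeval_X, aeval_C, ← heq2]; ring
  have h2t' : Transcendental K (up K x2) := OUC_trans_up h2.trans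
  have := (hIca K F₂ g s2 x2 y2 h2).1
  have halg2 := hTow K F₂ (UC K F₂) x2 inferInstance
  obtain ⟨hs1, Qi, hQi⟩ := hSur K (UC K F₂) (up K x2) h2t' halg2
  -- the map
  set Φ : Place K (AlgebraicClosure F₁) → Place K (UC K F₂) := fun P => φ (rs P) with hΦ
  have hAn : ∀ f : UC K F₂, AnF Φ f := fun f =>
    (hPul K (UC K F₁) (UC K F₂) (AlgebraicClosure F₁) φ f
      ((UC K F₁).val.restrictScalars K) (hφ f)).1
  have hhit : ∀ Q : Place K (UC K F₂), ∃ P, Φ P = Q := by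
    intro Q
    obtain ⟨P, hP⟩ := OUT_lift hPlx (φ.symm Q)
    exact ⟨P, by rw [hΦ]; simp only; rw [hP, Equiv.apply_symm_apply]⟩
  obtain ⟨F', hF1, hF2, hFx, hFy⟩ := hInv K (AlgebraicClosure F₁) (UC K F₂) p g hp hp1 hg s2
    (up K x2) (up K y2) hA2 hx2ne heq2 Φ (hAn _) (hAn _) (hAn _)
    (by obtain ⟨P, hP⟩ := hhit Qi; exact ⟨P, by rw [hP]; exact hQi⟩)
    (by
      obtain ⟨Q, hQ1, hQ2⟩ := hs1 0
      obtain ⟨P, hP⟩ := hhit Q
      exact ⟨P, by rw [hP]; exact ⟨hQ1, hQ2⟩⟩)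
  have hpole : ∀ P : Place K (AlgebraicClosure F₁), up K x2 ∉ (Φ P).ring →
      zz K (AlgebraicClosure F₁) ∈ P.ring ∧ P.val (zz K (AlgebraicClosure F₁)) ∈ A' := by
    intro P hP
    obtain ⟨h3, h4⟩ := hpole0 (rs P) hP
    rw [hzz]
    refine ⟨h3, ?_⟩
    have h5 : (rs P).val z0 = P.val (z0 : AlgebraicClosure F₁) := Place.val_comap _ _ _
    rw [← h5]; exact h4
  have hbdd : ∀ δ : ℝ, 0 < δ → ∃ κ : ℝ, ∀ P : Place K (AlgebraicClosure F₁),
      (zz K (AlgebraicClosure F₁) ∈ P.ring → ∀ a ∈ A',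
        δ ≤ ‖P.val (zz K (AlgebraicClosure F₁)) - a‖) → ‖(Φ P).val (up K x2)‖ ≤ κ := by
    intro δ hδ
    obtain ⟨κ, hκ⟩ := hbdd0 δ hδ
    refine ⟨κ, fun P hP => hκ (rs P) fun h3 a ha => ?_⟩
    have h5 : (rs P).val z0 = P.val (z0 : AlgebraicClosure F₁) := Place.val_comap _ _ _
    rw [h5]
    rw [hzz] at hP
    exact hP h3 a ha
  have hxy : ∀ P : Place K (AlgebraicClosure F₁), up K y2 ∉ (Φ P).ring → up K x2 ∉ (Φ P).ring :=
    fun P hP hx => hP ((hCrd K (UC K F₂) g s2 (up K x2) (up K y2) hx2ne heq2 (Φ P)).1 hx).1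
  have hbddy : ∀ δ : ℝ, 0 < δ → ∃ κ : ℝ, ∀ P : Place K (AlgebraicClosure F₁),
      (zz K (AlgebraicClosure F₁) ∈ P.ring → ∀ a ∈ A',
        δ ≤ ‖P.val (zz K (AlgebraicClosure F₁)) - a‖) → ‖(Φ P).val (up K y2)‖ ≤ κ := by
    intro δ hδ
    obtain ⟨κ, hκ⟩ := hbdd δ hδ
    refine ⟨max 1 (max (κ ^ (2 * g + 1)) (‖s2‖ * κ)), fun P hP => ?_⟩
    by_cases hx : up K x2 ∈ (Φ P).ring
    · exact OUC_bound (hκ P hP)
        ((hCrd K (UC K F₂) g s2 (up K x2) (up K y2) hx2ne heq2 (Φ P)).1 hx).2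
    · have hy : up K y2 ∉ (Φ P).ring :=
        (hCrd K (UC K F₂) g s2 (up K x2) (up K y2) hx2ne heq2 (Φ P)).2.2.2 (by omega) hx
      rw [Place.val_of_not_mem _ hy, norm_zero]
      exact le_trans zero_le_one (le_max_left _ _)
  obtain ⟨ξ, -, B1, hB1⟩ := hGag K (AlgebraicClosure F₁) (UC K F₂) p hp hp1 F' Φ (up K x2) hx2ne
    (hAn _) hFx A' hpole hbdd
  obtain ⟨υ, -, B2, hB2⟩ := hGag K (AlgebraicClosure F₁) (UC K F₂) p hp hp1 F' Φ (up K y2) hy2ne
    (hAn _) hFy A' (fun P hP => hpole P (hxy P hP)) hbddy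
  obtain ⟨hC1, hC2⟩ := hFlp K (AlgebraicClosure F₁) (UC K F₂) F' Φ (up K x2) hFx
  rw [hzz] at hB1 hB2 hC1 hC2
  refine ⟨z0, z0.2, ξ, υ, B1 ∪ B2, hzt, ?_, hC1, hC2⟩
  intro P hP1 hP2
  rw [Finset.mem_union, not_or] at hP2
  obtain ⟨a1, a2, a3⟩ := hB1 P hP1 hP2.1
  obtain ⟨b1, b2, b3⟩ := hB2 P hP1 hP2.2
  exact ⟨a1, b1, a2, a3, b3⟩

end PUC
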