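import Pool.Agent.H77.PUC.StmtsE

universe u

namespace PUC

open Polynomial Filter Topology Metric

/-- restriction of places to the universal cover is surjective -/
theorem OUT_lift (hPlx : SPlx.{u}) {K F : Type u} [Field K] [IsAlgClosed K] [Field F] [Algebra K F]
    (Q : Place K (UC K F)) : ∃ P : Place K (AlgebraicClosure F), rs P = Q := by
  have : Algebra.IsAlgebraic (UC K F) (AlgebraicClosure F) :=
    Algebra.IsAlgebraic.tower_top (K := F) (UC K F)
  have : IsScalarTower K (UC K F) (AlgebraicClosure F) :=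
    IsScalarTower.of_algebraMap_eq fun _ => rfl
  obtain ⟨P, hP⟩ := hPlx K (UC K F) (AlgebraicClosure F) Q
  refine ⟨P, ?_⟩
  rw [← hP]
  rfl

theorem sOut (hOuc : SOuc.{u}) (hPlx : SPlx.{u}) (hZer : SZer.{u}) (hZpl : SZpl.{u})
    (hRfa : SRfa.{u}) (hIca : SIca.{u}) (hAlc : SAlc.{u}) (hTow : STow.{u}) (hCrd : SCrd.{u})
    (hSur : SSur.{u}) : SOut.{u} := by
  classical
  intro K F₁ F₂ _ _ _ _ _ _ _ _ _ p g hp hp1 hg s1 s2 x1 y1 x2 y2 hA1 hA2 h1 h2 hiso
  obtain ⟨φ, hφ, hφ'⟩ := hiso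
  have : CharZero F₁ := charZero_of_injective_algebraMap (algebraMap K F₁).injective
  obtain ⟨z, hzU, ξ, υ, B, hz, hval, ⟨Ci, hCi⟩, hC⟩ :=
    hOuc K F₁ F₂ p g hp hp1 hg s1 s2 x1 y1 x2 y2 hA1 hA2 h1 h2 φ hφ hφ'
  -- `Ω` is algebraic over `K(z)`
  have hx1t : Transcendental K (algebraMap F₁ (AlgebraicClosure F₁) x1) := by
    intro h
    exact h1.trans ((isAlgebraic_algebraMap_iff (algebraMap F₁ (AlgebraicClosure F₁)).injective).1 h)
  have hfd1 := (hIca K F₁ g s1 x1 y1 h1).1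
  have halg1 : Algebra.IsAlgebraic
      (IntermediateField.adjoin K {algebraMap F₁ (AlgebraicClosure F₁) x1}) (AlgebraicClosure F₁) :=
    hTow K F₁ (AlgebraicClosure F₁) x1 inferInstance
  have halgz := hAlc K (AlgebraicClosure F₁) _ z hx1t halg1 hz
  obtain ⟨inst, htow, hzz, hal, -, hmem⟩ := hRfa K (AlgebraicClosure F₁) z hz
  have := htow
  have := hal halgz
  have hx2ne : up K x2 ≠ 0 := by
    intro h
    have : x2 = 0 := by
      have h' : algebraMap F₂ (UC K F₂) x2 = 0 := h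
      exact (map_eq_zero _).1 h'
    apply h2.trans
    rw [this]
    exact isAlgebraic_zero
  have heq2 : up K y2 ^ 2 + up K y2 = up K x2 ^ (2 * g + 1) + algebraMap K (UC K F₂) s2 * up K x2 := by
    have := congrArg (algebraMap F₂ (UC K F₂)) h2.eqn
    simp only [map_add, map_mul, map_pow] at this
    exact this
  have hinf : Infinite K := inferInstance
  -- the relation
  have hrel : υ ^ 2 + υ = ξ ^ (2 * g + 1) + algebraMap K (AlgebraicClosure F₁) s2 * ξ := by
    by_contra hne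
    have hq : υ ^ 2 + υ - (ξ ^ (2 * g + 1) + algebraMap K (AlgebraicClosure F₁) s2 * ξ) ≠ 0 :=
      sub_ne_zero.2 hne
    obtain ⟨B', hB'⟩ := hZer K (AlgebraicClosure F₁) _ hq
    obtain ⟨a, ha⟩ := Infinite.exists_notMem_finset (B ∪ B')
    rw [Finset.mem_union, not_or] at ha
    obtain ⟨P, hzP, hPa⟩ := (hZpl K (AlgebraicClosure F₁)).1 a
    obtain ⟨-, hv⟩ := hB' P hzP (by rw [hPa]; exact ha.2)
    rw [hzz] at hzP hPa
    obtain ⟨hξ, hυ, hx, hξv, hυv⟩ := hval P hzP (by rw [hPa]; exact ha.1)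
    apply hv
    have hcrd := ((hCrd K (UC K F₂) g s2 (up K x2) (up K y2) hx2ne heq2 (φ (rs P))).1 hx).2
    rw [P.val_sub, P.val_add, P.val_add, P.val_pow hυ, P.val_pow hξ, P.val_mul, P.val_algebraMap,
      hξv, hυv, hcrd, sub_self]
    · exact P.alg_mem _
    · exact hξ
    · exact P.pow_mem hξ _
    · exact P.ring.mul_mem _ _ (P.alg_mem _) hξ
    · exact P.pow_mem hυ _
    · exact hυ
    · exact P.ring.add_mem _ _ (P.pow_mem hυ _) hυ
    · exact P.ring.add_mem _ _ (P.pow_mem hξ _) (P.ring.mul_mem _ _ (P.alg_mem _) hξ)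
  -- membership in `UC`
  have hfix : ∀ (q : AlgebraicClosure F₁) (X : Place K (UC K F₂) → K),
      (∀ P : Place K (AlgebraicClosure F₁), z ∈ P.ring → P.val z ∉ B →
        q ∈ P.ring ∧ P.val q = X (φ (rs P))) → q ∈ UC K F₁ := by
    intro q X hqX
    rw [← InfiniteGalois.fixedField_fixingSubgroup (UC K F₁)]
    rw [IntermediateField.mem_fixedField_iff]
    intro σ hσ
    rw [IntermediateField.mem_fixingSubgroup_iff] at hσ
    by_contra hne
    have hq : σ q - q ≠ 0 := sub_ne_zero.2 hne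
    obtain ⟨B', hB'⟩ := hZer K (AlgebraicClosure F₁) _ hq
    obtain ⟨a, ha⟩ := Infinite.exists_notMem_finset (B ∪ B')
    rw [Finset.mem_union, not_or] at ha
    obtain ⟨P, hzP, hPa⟩ := (hZpl K (AlgebraicClosure F₁)).1 a
    obtain ⟨-, hv⟩ := hB' P hzP (by rw [hPa]; exact ha.2)
    rw [hzz] at hzP hPa
    apply hv
    let σK : AlgebraicClosure F₁ ≃ₐ[K] AlgebraicClosure F₁ := σ.restrictScalars K
    have hσz : σ z = z := hσ z hzU
    have hzP' : z ∈ (P.act σK).ring := by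
      rw [Place.mem_act]; show σ z ∈ P.ring; rw [hσz]; exact hzP
    have hPa' : (P.act σK).val z = P.val z := by
      rw [Place.val_act]; show P.val (σ z) = P.val z; rw [hσz]
    have hrs : rs (P.act σK) = rs P := by
      apply Place.ext'
      apply ValuationSubring.ext
      intro f
      show σ (f : AlgebraicClosure F₁) ∈ P.ring ↔ (f : AlgebraicClosure F₁) ∈ P.ring
      rw [hσ f f.2]
    obtain ⟨hq1, hq2⟩ := hqX P hzP (by rw [hPa]; exact ha.1)
    obtain ⟨hq3, hq4⟩ := hqX (P.act σK) hzP' (by rw [hPa', hPa]; exact ha.1)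
    rw [hrs, ← hq2, Place.val_act] at hq4
    have hq5 : σ q ∈ P.ring := hq3
    have hq6 : P.val (σ q) = P.val q := hq4
    rw [P.val_sub hq5 hq1, hq6, sub_self]
  refine ⟨ξ, hfix ξ (fun Q => Q.val (up K x2)) fun P h1 h2 => ⟨(hval P h1 h2).1, (hval P h1 h2).2.2.2.1⟩,
    υ, hfix υ (fun Q => Q.val (up K y2)) fun P h1 h2 => ⟨(hval P h1 h2).2.1, (hval P h1 h2).2.2.2.2⟩,
    hrel, ?_⟩
  -- not constant
  rintro ⟨c, hc⟩
  choose Ca hCa using hC
  obtain ⟨d, hd⟩ := Infinite.exists_notMem_finset (insert c (Ci ∪ B.biUnion Ca))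
  rw [Finset.mem_insert, Finset.mem_union, Finset.mem_biUnion, not_or, not_or] at hd
  have hx2t : Transcendental K (up K x2) := by
    intro h
    exact h2.trans ((isAlgebraic_algebraMap_iff (algebraMap F₂ (UC K F₂)).injective).1 h)
  have hfd2 := (hIca K F₂ g s2 x2 y2 h2).1
  have : Algebra.IsAlgebraic F₂ (UC K F₂) := inferInstance
  have halg2 := hTow K F₂ (UC K F₂) x2 inferInstance
  obtain ⟨Q, hQ1, hQ2⟩ := (hSur K (UC K F₂) (up K x2) hx2t halg2).1 d
  obtain ⟨P, hP⟩ := OUT_lift hPlx (φ.symm Q)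
  have hX : (φ (rs P)).val (up K x2) = d := by rw [hP, Equiv.apply_symm_apply, hQ2]
  by_cases hzP : z ∈ P.ring
  · by_cases hB : P.val z ∈ B
    · apply hd.2.2
      exact ⟨P.val z, hB, by rw [← hX]; exact hCa (P.val z) P hzP rfl⟩
    · obtain ⟨_, _, _, hξv, _⟩ := hval P hzP hB
      apply hd.1
      rw [← hX, ← hξv, hc, P.val_algebraMap]
  · apply hd.2.1
    rw [← hX]
    exact hCi P hzP

end PUC
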