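import Pool.Agent.H77.PUC.PON

universe u

namespace PUC

open Polynomial Filter Topology Metric

theorem PCO_sub {K : Type u} [NontriviallyNormedField K] [IsUltrametricDist K] (a b : K) :
    ‖a - b‖ ≤ max ‖a‖ ‖b‖ := by
  rw [sub_eq_add_neg, ← norm_neg b]
  exact IsUltrametricDist.norm_add_le_max _ _

theorem sPco (hPon : SPon.{u}) (hDpl : SDpl.{u}) (hNea : SNea.{u}) (hZpl : SZpl.{u})
    (hMxp : SMxp.{u}) : SPco.{u} := by
  classical
  intro K Ω _ _ _ _ _ _ _ _ _ _ _ p hp hp1 G η hη hG hFC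
  have h1 := PON_one_le (K := K) hp hp1
  have hηη : η ≤ ‖(p : K)‖⁻¹ ^ 3 * η := by nlinarith
  obtain ⟨hz1, ⟨Pi, hPi⟩, hz3⟩ := hZpl K Ω
  have huniv : (DomR (∅ : Finset (RatFunc K)) : Set (Place K Ω)) = Set.univ := by
    ext P; simp [DomR]
  obtain ⟨T', hPiT, hT'⟩ := hDpl K Ω ∅ G η hη (fun P _ σ => hG P σ) (by rw [huniv]; exact hFC) Pi
    (by rw [huniv]; trivial)
  obtain ⟨R0, hR0⟩ := (hNea K Ω Pi T' hPiT).2 hPi
  choose Pa hPa1 hPa2 using hz1
  set H : K → K := fun a => G (Pa a) with hH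
  have hGH : ∀ P : Place K Ω, zz K Ω ∈ P.ring → G P = H (P.val (zz K Ω)) := by
    intro P hP
    obtain ⟨σ, hσ⟩ := hz3 P (Pa (P.val (zz K Ω))) ⟨⟨fun _ => hPa1 _, fun _ => hP⟩, (hPa2 _).symm⟩
    rw [hH]
    simp only
    rw [hσ, hG]
  set R : ℝ := max R0 0 + 1 with hR
  obtain ⟨c0, hc0⟩ := NormedField.exists_lt_norm K (R + 1)
  have hRpos : 0 < R := by have := le_max_right R0 0; linarith
  have hc0' : c0 ≠ 0 := by
    rintro rfl
    rw [norm_zero] at hc0; linarith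
  obtain ⟨Q, hQ⟩ := hPon K Ω p hp hp1 0 c0 η H ⟨hc0', hη, G, fun P hP => hGH P hP.1, by
    obtain ⟨n, T, g, hT1, hT2⟩ := hFC
    exact ⟨n, T, g, fun P _ => hT1 P trivial, fun i P _ h => hT2 i P trivial h⟩⟩ R hRpos
    (by linarith)
  have hfar : ∀ P : Place K Ω, (zz K Ω ∈ P.ring → R0 ≤ ‖P.val (zz K Ω)‖) → ‖G P - G Pi‖ ≤ η :=
    fun P hP => (hT' P (hR0 P hP)).2
  have hQc : ∀ a, ‖a - 0‖ ≤ R → ‖(Q - C (G Pi)).eval a‖ ≤ ‖(p : K)‖⁻¹ ^ 3 * η := by
    apply hMxp K (Q - C (G Pi)) 0 (max R0 0) R _ (le_max_right _ _) (by linarith)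
    intro a ha1 ha2
    rw [sub_zero] at ha1 ha2
    rw [eval_sub, eval_C]
    have h2 := hQ a (by rw [mem_closedBall, dist_zero_right]; exact ha2)
    have h3 := hfar (Pa a) (fun _ => by
      rw [hPa2]; exact (le_max_left _ _).trans ha1.le)
    have h4 : Q.eval a - G Pi = (H a - G Pi) - (H a - Q.eval a) := by ring
    rw [h4]
    exact (PCO_sub _ _).trans (max_le (h3.trans hηη) h2)
  have hall : ∀ P : Place K Ω, ‖G P - G Pi‖ ≤ ‖(p : K)‖⁻¹ ^ 3 * η := by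
    intro P
    by_cases hP : zz K Ω ∈ P.ring ∧ ‖P.val (zz K Ω)‖ ≤ R
    · have h2 := hQ (P.val (zz K Ω)) (by rw [mem_closedBall, dist_zero_right]; exact hP.2)
      have h3 := hQc (P.val (zz K Ω)) (by rw [sub_zero]; exact hP.2)
      rw [eval_sub, eval_C] at h3
      rw [hGH P hP.1]
      have h4 : H (P.val (zz K Ω)) - G Pi = (H (P.val (zz K Ω)) - Q.eval (P.val (zz K Ω))) +
        (Q.eval (P.val (zz K Ω)) - G Pi) := by ring
      rw [h4]
      exact (IsUltrametricDist.norm_add_le_max _ _).trans (max_le h2 h3)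
    · refine (hfar P fun hz => ?_).trans hηη
      by_contra hlt
      push Not at hlt
      apply hP
      refine ⟨hz, ?_⟩
      have := le_max_left R0 0
      linarith
  intro P P'
  have h4 : G P - G P' = (G P - G Pi) - (G P' - G Pi) := by ring
  rw [h4]
  exact (PCO_sub _ _).trans (max_le (hall P) (hall P'))

end PUC
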