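import Pool.Agent.H77.PUC.StmtsE

universe u

namespace PUC

open Polynomial Filter Topology Metric

theorem PON_one_le {K : Type u} [NontriviallyNormedField K] {p : ℕ} [CharZero K]
    (hp : p.Prime) (h : ‖(p : K)‖ < 1) :
    1 ≤ ‖(p : K)‖⁻¹ ^ 3 := by
  apply one_le_pow₀
  rw [one_le_inv₀]
  · exact h.le
  · rw [norm_pos_iff]
    exact_mod_cast hp.ne_zero

theorem sPon (hLco : SLco.{u}) (hLdp : SLdp.{u}) (hLdf : SLdf.{u}) (hDlm : SDlm.{u})
    (hEva : SEva.{u}) : SPon.{u} := by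
  intro K Ω _ _ _ _ _ _ _ _ _ _ _ p hp hp1 a0 c0 η H hD R hR hRc
  have hη : 0 < η := hD.2.1
  have h1 := PON_one_le (K := K) hp hp1
  have hη' : 0 < ‖(p : K)‖⁻¹ ^ 3 * η := by positivity
  have hηη : η ≤ ‖(p : K)‖⁻¹ ^ 3 * η := by nlinarith
  apply hDlm K H _ a0 R hη' hR
  · intro c hc r hr hrR
    exact hLco K Ω p hp hp1 a0 c0 η H hD R hR hRc c hc r hr hrR
  · intro c hc
    obtain ⟨r, hr, h⟩ := hLdp K Ω a0 c0 η H hD c (by
      rw [mem_closedBall, dist_eq_norm] at hc; linarith)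
    refine ⟨r, algebraMap K[X] (RatFunc K) (C (H c)), hr, fun a ha => ?_⟩
    obtain ⟨h2, h3⟩ := (hEva K a 0 0).2.2 (C (H c))
    refine ⟨h2, ?_⟩
    rw [h3, eval_C]
    exact (h a ha).trans hηη
  · intro c r hr hc hrR hanti hnest hemp
    exact hLdf K Ω p hp hp1 a0 c0 η H hD c r hr
      (fun n => closedBall_subset_closedBall hRc.le (hc n)) (fun n => (hrR n).trans hRc.le)
      hanti hnest hemp

end PUC
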