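import Pool.Agent.H77.PUC.OPx

universe u

namespace PUC

open Polynomial Filter Topology Metric

/-- Cauchy estimate -/
theorem PPO_cauchy (hGne : SGne.{u}) {K : Type u} [NontriviallyNormedField K] [IsUltrametricDist K]
    [IsAlgClosed K] (Q : K[X]) (s c : K) (hc : c ≠ 0) (M : ℝ)
    (h : ∀ a, ‖a - s‖ ≤ ‖c‖ → ‖Q.eval a‖ ≤ M) (j : ℕ) :
    ‖(taylor s Q).coeff j‖ * ‖c‖ ^ j ≤ M := by
  classical
  obtain ⟨a, ha1, ha2⟩ := hGne K s c Q.roots.toFinset hc
  refine (OPx_generic_poly (norm_pos_iff.2 hc) Q s a ha1 (fun b hb => ha2 b ?_) j).trans (h a ha1)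
  rw [Multiset.mem_toFinset]; exact hb

theorem PPO_bdd {ι : Type*} (s : Finset ι) (f : ι → ℝ) : ∃ B, ∀ i ∈ s, f i ≤ B :=
  ⟨∑ i ∈ s, |f i|, fun i hi => (le_abs_self _).trans
    (Finset.single_le_sum (f := fun i => |f i|) (fun _ _ => abs_nonneg _) hi)⟩

/-- PPO -/
theorem sPpo (hGne : SGne.{u}) : SPpo.{u} := by
  intro K _ _ _ _ H κ m hH hgr
  classical
  have hκ : 0 ≤ κ := by
    have := hgr 0
    rw [norm_zero, max_eq_left zero_le_one, one_pow, mul_one] at this
    exact (norm_nonneg _).trans this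
  -- approximation by polynomials of degree `≤ m` at finitely many points
  have key : ∀ (A : Finset K) (δ : ℝ), 0 < δ → ∃ T : K[X], T.degree < (m + 1 : ℕ) ∧
      ∀ b ∈ A, ‖H b - T.eval b‖ ≤ δ := by
    intro A δ hδ
    set κ1 := max κ δ with hκ1
    have hκ1pos : 0 < κ1 := lt_max_of_lt_right hδ
    obtain ⟨B, hB⟩ : ∃ B : ℝ, 1 ≤ B ∧ ∀ b ∈ A, ‖b‖ ≤ B ∧ κ1 * ‖b‖ ^ (m + 1) / δ ≤ B := by
      obtain ⟨B1, hB1⟩ := PPO_bdd A (fun b : K => max ‖b‖ (κ1 * ‖b‖ ^ (m + 1) / δ))
      refine ⟨max 1 B1, le_max_left _ _, fun b hb => ?_⟩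
      have : max ‖b‖ (κ1 * ‖b‖ ^ (m + 1) / δ) ≤ B1 := hB1 b hb
      exact ⟨(le_max_left _ _).trans (this.trans (le_max_right _ _)),
        (le_max_right _ _).trans (this.trans (le_max_right _ _))⟩
    obtain ⟨c, hc⟩ := NormedField.exists_lt_norm K B
    have hc1 : 1 ≤ ‖c‖ := hB.1.trans hc.le
    have hcpos : 0 < ‖c‖ := by linarith
    have hc0 : c ≠ 0 := norm_pos_iff.1 hcpos
    obtain ⟨Q, hQ⟩ := hH ‖c‖ δ hcpos hδ
    have hQb : ∀ a, ‖a - 0‖ ≤ ‖c‖ → ‖Q.eval a‖ ≤ κ1 * ‖c‖ ^ m := by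
      intro a ha
      rw [sub_zero] at ha
      have h1 := hQ a (by rw [mem_closedBall, dist_zero_right]; exact ha)
      have h2 := hgr a
      have h3 : ‖H a‖ ≤ κ1 * ‖c‖ ^ m := by
        refine h2.trans ?_
        have : max 1 ‖a‖ ≤ ‖c‖ := max_le hc1 ha
        have h4 : κ ≤ κ1 := le_max_left _ _
        have h5 : 0 ≤ max 1 ‖a‖ := le_max_of_le_left zero_le_one
        gcongr
      have h6 : δ ≤ κ1 * ‖c‖ ^ m := by
        have h7 : 1 ≤ ‖c‖ ^ m := one_le_pow₀ hc1
        have h8 : δ ≤ κ1 := le_max_right _ _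
        nlinarith
      have e : Q.eval a = H a - (H a - Q.eval a) := by ring
      rw [e]
      exact (norm_sub_le_max' _ _).trans (max_le h3 (h1.trans h6))
    have hco : ∀ j, ‖Q.coeff j‖ * ‖c‖ ^ j ≤ κ1 * ‖c‖ ^ m := by
      intro j
      have := PPO_cauchy hGne Q 0 c hc0 _ hQb j
      rwa [taylor_zero] at this
    refine ⟨∑ i ∈ Finset.range (m + 1), C (Q.coeff i) * X ^ i, ?_, ?_⟩
    · refine (degree_sum_le _ _).trans_lt ?_
      rw [Finset.sup_lt_iff (WithBot.bot_lt_coe _)]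
      intro i hi
      refine (degree_C_mul_X_pow_le _ _).trans_lt ?_
      exact_mod_cast Finset.mem_range.1 hi
    · intro b hb
      obtain ⟨hb1, hb2⟩ := hB.2 b hb
      have hbc : ‖b‖ ≤ ‖c‖ := hb1.trans hc.le
      have h1 := hQ b (by rw [mem_closedBall, dist_zero_right]; exact hbc)
      set N := Q.natDegree + 1 + (m + 1) with hN
      have hsub : Finset.range (m + 1) ⊆ Finset.range N := by
        intro i hi
        rw [Finset.mem_range] at hi ⊢
        omega
      have hT : (∑ i ∈ Finset.range (m + 1), C (Q.coeff i) * X ^ i).eval b =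
          ∑ i ∈ Finset.range (m + 1), Q.coeff i * b ^ i := by
        rw [eval_finsetSum]
        simp only [eval_mul, eval_C, eval_pow, eval_X]
      have hQe : Q.eval b = ∑ i ∈ Finset.range N, Q.coeff i * b ^ i :=
        eval_eq_sum_range' (by omega) b
      rw [← Finset.sum_sdiff hsub, ← hT] at hQe
      have htail : ‖∑ i ∈ Finset.range N \ Finset.range (m + 1), Q.coeff i * b ^ i‖ ≤ δ := by
        apply IsUltrametricDist.norm_sum_le_of_forall_le_of_nonneg hδ.le
        intro i hi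
        rw [Finset.mem_sdiff, Finset.mem_range, Finset.mem_range, not_lt] at hi
        rw [norm_mul, norm_pow]
        have h2 := hco i
        obtain ⟨k, rfl⟩ := Nat.exists_eq_add_of_le hi.2
        have h3 : ‖b‖ ^ k ≤ ‖c‖ ^ k := by gcongr
        have h4 : ‖Q.coeff (m + 1 + k)‖ * ‖b‖ ^ (m + 1 + k) * ‖c‖ ^ (m + 1) ≤
            κ1 * ‖c‖ ^ m * ‖b‖ ^ (m + 1) := by
          calc ‖Q.coeff (m + 1 + k)‖ * ‖b‖ ^ (m + 1 + k) * ‖c‖ ^ (m + 1)
              = (‖Q.coeff (m + 1 + k)‖ * ‖c‖ ^ (m + 1) * ‖b‖ ^ k) * ‖b‖ ^ (m + 1) := by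
                rw [pow_add ‖b‖]; ring
            _ ≤ (‖Q.coeff (m + 1 + k)‖ * ‖c‖ ^ (m + 1) * ‖c‖ ^ k) * ‖b‖ ^ (m + 1) := by gcongr
            _ = (‖Q.coeff (m + 1 + k)‖ * ‖c‖ ^ (m + 1 + k)) * ‖b‖ ^ (m + 1) := by
                rw [pow_add ‖c‖]; ring
            _ ≤ _ := by gcongr
        have h5 : κ1 * ‖b‖ ^ (m + 1) ≤ δ * ‖c‖ := by
          rw [div_le_iff₀ hδ] at hb2
          nlinarith
        have h6 : κ1 * ‖c‖ ^ m * ‖b‖ ^ (m + 1) ≤ δ * ‖c‖ ^ (m + 1) := by
          calc κ1 * ‖c‖ ^ m * ‖b‖ ^ (m + 1) = (κ1 * ‖b‖ ^ (m + 1)) * ‖c‖ ^ m := by ring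
            _ ≤ (δ * ‖c‖) * ‖c‖ ^ m := by gcongr
            _ = δ * ‖c‖ ^ (m + 1) := by ring
        exact le_of_mul_le_mul_right (h4.trans h6) (pow_pos hcpos _)
      have e : H b - (∑ i ∈ Finset.range (m + 1), C (Q.coeff i) * X ^ i).eval b =
          (H b - Q.eval b) + ∑ i ∈ Finset.range N \ Finset.range (m + 1), Q.coeff i * b ^ i := by
        rw [hQe]; ring
      rw [e]
      exact (IsUltrametricDist.norm_add_le_max _ _).trans (max_le h1 htail)
  -- interpolation
  set v : ℕ → K := fun i => (Infinite.natEmbedding K) i with hv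
  have hvinj : Set.InjOn v (Finset.range (m + 1)) := fun i _ j _ h => (Infinite.natEmbedding K).injective h
  refine ⟨Lagrange.interpolate (Finset.range (m + 1)) v (fun i => H (v i)), fun a => ?_⟩
  rw [← sub_eq_zero, ← norm_le_zero_iff]
  apply le_of_forall_pos_le_add
  intro ε hε
  rw [zero_add]
  -- bound of the Lagrange polynomials at `a`
  obtain ⟨M, hM1, hM⟩ : ∃ M : ℝ, 1 ≤ M ∧ ∀ i ∈ Finset.range (m + 1),
      ‖(Lagrange.basis (Finset.range (m + 1)) v i).eval a‖ ≤ M := by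
    obtain ⟨B1, hB1⟩ := PPO_bdd (Finset.range (m + 1))
      (fun i => ‖(Lagrange.basis (Finset.range (m + 1)) v i).eval a‖)
    exact ⟨max 1 B1, le_max_left _ _, fun i hi => (hB1 i hi).trans (le_max_right _ _)⟩
  have hMpos : 0 < M := by linarith
  obtain ⟨T, hT1, hT2⟩ := key (insert a ((Finset.range (m + 1)).image v)) (ε / M) (by positivity)
  have hTi : T = Lagrange.interpolate (Finset.range (m + 1)) v (fun i => T.eval (v i)) := by
    apply Lagrange.eq_interpolate_of_eval_eq _ hvinj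
    · rw [Finset.card_range]; exact hT1
    · intro i _; rfl
  have e : H a - (Lagrange.interpolate (Finset.range (m + 1)) v (fun i => H (v i))).eval a =
      (H a - T.eval a) + ∑ i ∈ Finset.range (m + 1),
        (T.eval (v i) - H (v i)) * (Lagrange.basis (Finset.range (m + 1)) v i).eval a := by
    have e1 : T.eval a = ∑ i ∈ Finset.range (m + 1),
        T.eval (v i) * (Lagrange.basis (Finset.range (m + 1)) v i).eval a := by
      conv_lhs => rw [hTi]
      rw [Lagrange.interpolate_apply, eval_finsetSum]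
      simp only [eval_mul, eval_C]
    have e2 : (Lagrange.interpolate (Finset.range (m + 1)) v (fun i => H (v i))).eval a =
        ∑ i ∈ Finset.range (m + 1),
        H (v i) * (Lagrange.basis (Finset.range (m + 1)) v i).eval a := by
      rw [Lagrange.interpolate_apply, eval_finsetSum]
      simp only [eval_mul, eval_C]
    simp only [sub_mul]
    rw [Finset.sum_sub_distrib, ← e1, ← e2]
    ring
  rw [e]
  have hεM : ε / M ≤ ε := by
    rw [div_le_iff₀ hMpos]; nlinarith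
  refine (IsUltrametricDist.norm_add_le_max _ _).trans (max_le ?_ ?_)
  · exact (hT2 a (Finset.mem_insert_self _ _)).trans hεM
  · apply IsUltrametricDist.norm_sum_le_of_forall_le_of_nonneg hε.le
    intro i hi
    rw [norm_mul, norm_sub_rev]
    calc ‖H (v i) - T.eval (v i)‖ * ‖(Lagrange.basis (Finset.range (m + 1)) v i).eval a‖
        ≤ (ε / M) * M := by
          apply mul_le_mul _ (hM i hi) (norm_nonneg _) (by positivity)
          exact hT2 _ (Finset.mem_insert_of_mem (Finset.mem_image_of_mem _ hi))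
      _ = ε := div_mul_cancel₀ _ hMpos.ne'

end PUC
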