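import Pool.Agent.H77.PUC.StmtsE

universe u

namespace PUC

open Polynomial Filter Topology

/-- PUL -/
theorem sPul : SPul.{u} := by
  intro K E1 E2 E3 _ _ _ _ _ _ _ Φ f ι h
  classical
  constructor
  · intro ε hε
    obtain ⟨n, T, g, h1, h2⟩ := h ε hε
    refine ⟨n, fun i => (T i).image ι, fun i => ι (g i), ?_, ?_⟩
    · intro P
      obtain ⟨i, hi⟩ := h1 (P.comap ι)
      refine ⟨i, ?_⟩
      intro t ht
      rw [Finset.mem_image] at ht
      obtain ⟨s, hs, rfl⟩ := ht
      have := hi s hs
      rwa [Place.mem_comap, Place.val_comap] at this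
    · intro i
      have key : ∀ P : Place K E3, P ∈ Dom K ((T i).image ι) → P.comap ι ∈ Dom K (T i) := by
        intro P hP s hs
        rw [Place.mem_comap, Place.val_comap]
        exact hP _ (Finset.mem_image_of_mem _ hs)
      rcases h2 i with h2 | h2
      · left
        intro P hP
        have := h2 _ (key P hP)
        rwa [Place.mem_comap, Place.val_comap] at this
      · right
        intro P hP
        have := h2 _ (key P hP)
        rwa [Place.mem_comap, Place.val_comap] at this
  · intro ε hε
    obtain ⟨n, T, g, h1, h2⟩ := h ε hε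
    refine ⟨n, T, g, h1, fun i => ?_⟩
    rcases h2 i with h2 | h2
    · right
      rw [inv_inv]
      exact h2
    · left
      exact h2

end PUC
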