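import Pool.Agent.H77.PUC.StmtsE

universe u

namespace PUC

open Polynomial Filter Topology Metric

theorem sSur (hRfa : SRfa.{u}) (hZpl : SZpl.{u}) (hTow : STow.{u}) : SSur.{u} := by
  classical
  intro K E _ _ _ _ _ z hz halg
  have hzt : Transcendental K (algebraMap E (AlgebraicClosure E) z) := by
    intro h
    exact hz ((isAlgebraic_algebraMap_iff (algebraMap E (AlgebraicClosure E)).injective).1 h)
  have halg2 := hTow K E (AlgebraicClosure E) z halg
  obtain ⟨inst, htow, hzz, hal, -, hmem⟩ := hRfa K (AlgebraicClosure E) _ hzt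
  have := htow
  have := hal halg2
  obtain ⟨h1, ⟨P0, hP0⟩, -⟩ := hZpl K (AlgebraicClosure E)
  rw [hzz] at hP0
  constructor
  · intro c
    obtain ⟨P, hP1, hP2⟩ := h1 c
    rw [hzz] at hP1 hP2
    refine ⟨P.comap (IsScalarTower.toAlgHom K E (AlgebraicClosure E)), ?_, ?_⟩
    · rw [Place.mem_comap]; exact hP1
    · rw [Place.val_comap]; exact hP2
  · exact ⟨P0.comap (IsScalarTower.toAlgHom K E (AlgebraicClosure E)), hP0⟩

end PUC
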