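import Pool.Agent.H77.PUC.StmtsE

universe u

namespace PUC

open Polynomial Filter Topology

theorem UNR_ne_zero {K F : Type u} [Field K] [Field F] [Algebra K F] {x : F}
    (hx : Transcendental K x) (P : Place K F) {t : F} (ht : IsUnif P t) : t ≠ 0 := by
  rintro rfl
  have h0 : ∀ f ∈ P.ring.nonunits, f = 0 := by
    intro f hf
    obtain ⟨h, _, e⟩ := ht.2 f hf
    rw [e, mul_zero]
  by_cases hP : x ∈ P.ring
  · have h1 := h0 _ (P.sub_val hP)
    apply hx
    refine ⟨X - C (P.val x), X_sub_C_ne_zero _, ?_⟩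
    rw [map_sub, aeval_X, aeval_C]
    exact h1
  · have h1 : x⁻¹ ∈ P.ring.nonunits := by
      rw [ValuationSubring.mem_nonunits_iff_or, inv_inv]
      exact Or.inr hP
    have h2 := h0 _ h1
    rw [inv_eq_zero] at h2
    rw [h2] at hP
    exact hP P.ring.zero_mem

theorem UNR_bot {K F Ω : Type u} [Field K] [Field F] [Algebra K F] [Field Ω] [Algebra F Ω]
    [Algebra K Ω] [IsScalarTower K F Ω] : Unr K F (⊥ : IntermediateField F Ω) := by
  intro P f hf
  obtain ⟨t, ht⟩ := IntermediateField.mem_bot.1 f.2
  have e : algebraMap F (⊥ : IntermediateField F Ω) t = f := Subtype.ext ht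
  exact ⟨t, e ▸ hf, 1, P.ring.one_mem, by rw [e, one_mul]⟩

/-- UNR -/
theorem sUnr (hGen : SGen.{u}) (hAlc : SAlc.{u}) (hUnc : SUnc.{u}) (hIca : SIca.{u}) :
    SUnr.{u} := by
  intro K F _ _ _ _ _ g s0 x y hg hs hC L hL hfin
  classical
  have h1 : ∀ P : Place K F, ∃ t : F, t ≠ 0 ∧ IsUnif P t := by
    intro P
    obtain ⟨a1, a2⟩ := hGen K F g s0 x y hg hs hC P
    by_cases hx : x ∈ P.ring
    · rcases a1 hx with h | h
      · exact ⟨_, UNR_ne_zero hC.trans P h, h⟩
      · exact ⟨_, UNR_ne_zero hC.trans P h, h⟩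
    · exact ⟨_, UNR_ne_zero hC.trans P (a2 hx), a2 hx⟩
  have h2 : ∀ t : F, Transcendental K t →
      Algebra.IsAlgebraic (IntermediateField.adjoin K {t}) F := by
    intro t ht
    have := (hIca K F g s0 x y hC).1
    exact hAlc K F x t hC.trans inferInstance ht
  haveI : IsScalarTower K F (AlgebraicClosure F) := IsScalarTower.of_algebraMap_eq fun _ => rfl
  obtain ⟨hsup, hsub⟩ := hUnc K F (AlgebraicClosure F) h1 h2
  set S : Set (IntermediateField F (AlgebraicClosure F)) :=
    {L | FiniteDimensional F L ∧ Unr K F L} with hS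
  -- finite suprema
  have hfs : ∀ s : Finset S, (⨆ i ∈ s, (i : IntermediateField F (AlgebraicClosure F))) ∈ S := by
    intro s
    induction s using Finset.induction_on with
    | empty =>
      simp only [Finset.notMem_empty, not_false_eq_true, iSup_neg, iSup_bot]
      exact ⟨inferInstance, UNR_bot⟩
    | insert a s ha ih =>
      rw [Finset.iSup_insert]
      obtain ⟨b1, b2⟩ := a.2
      obtain ⟨c1, c2⟩ := ih
      refine ⟨?_, hsup _ _ b2 c2⟩
      exact IntermediateField.finiteDimensional_sup _ _
  haveI : CharZero F := charZero_of_injective_algebraMap (algebraMap K F).injective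
  haveI : FiniteDimensional F L := hfin
  obtain ⟨α, hα⟩ := Field.exists_primitive_element F L
  have hαL : (α : AlgebraicClosure F) ∈ UC K F := hL α.2
  rw [UC, ← hS, sSup_eq_iSup'] at hαL
  obtain ⟨s, hs'⟩ := IntermediateField.exists_finset_of_mem_iSup hαL
  have hLM : L ≤ ⨆ i ∈ s, (i : IntermediateField F (AlgebraicClosure F)) := by
    have e : L = IntermediateField.adjoin F {(α : AlgebraicClosure F)} := by
      have := congrArg (fun M => IntermediateField.lift M) hα
      simp only [IntermediateField.lift_top, IntermediateField.lift_adjoin_simple] at this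
      exact this.symm
    rw [e, IntermediateField.adjoin_le_iff, Set.singleton_subset_iff]
    exact hs'
  exact hsub _ _ hLM (hfs s).2

end PUC
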