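import Pool.Agent.H77.PUC.StmtsC

/-!
# Statements, part D: rigidity and finite level
-/

universe u

namespace PUC

open Polynomial Filter Topology Metric

/-- the admissible parameters: `|s - s₀| < 1` with `s₀ = 0` (`p ∤ 2g+1`) or `s₀ = 1` (`p ∣ 2g+1`) -/
def Adm {K : Type u} [NormedField K] (p g : ℕ) (s : K) : Prop :=
  (¬ p ∣ 2 * g + 1 ∧ ‖s‖ < 1) ∨ (p ∣ 2 * g + 1 ∧ ‖s - 1‖ < 1)

/-! ## Pointwise algebra on the curve -/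

/-- SMO: smooth reduction. -/
def SSmo : Prop := ∀ (K : Type u) [NontriviallyNormedField K] [IsUltrametricDist K] (p g : ℕ) (s : K),
  p.Prime → ‖(p : K)‖ < 1 → 1 ≤ g → Adm p g s → ‖s‖ ≤ 1 ∧ Smooth0 g s ∧ SmoothI g s

/-- ITG: integrality of `y` and `w`. -/
def SItg : Prop := ∀ (K : Type u) [NontriviallyNormedField K] [IsUltrametricDist K] (g : ℕ) (s : K),
  ‖s‖ ≤ 1 →
  (∀ x y : K, ‖x‖ ≤ 1 → y ^ 2 + y = x ^ (2 * g + 1) + s * x → ‖y‖ ≤ 1) ∧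
  (∀ u w : K, ‖u‖ ≤ 1 → w ^ 2 + u ^ (g + 1) * w = u + s * u ^ (2 * g + 1) → ‖w‖ ≤ 1)

/-- PZA: two close points in the affine chart. -/
def SPza : Prop := ∀ (K : Type u) [NontriviallyNormedField K] [IsUltrametricDist K] (g : ℕ)
  (s x1 y1 x2 y2 : K), ‖s‖ ≤ 1 → Smooth0 g s → ‖x1‖ ≤ 1 → ‖y1‖ ≤ 1 → ‖x2‖ ≤ 1 → ‖y2‖ ≤ 1 →
  y1 ^ 2 + y1 = x1 ^ (2 * g + 1) + s * x1 → y2 ^ 2 + y2 = x2 ^ (2 * g + 1) + s * x2 →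
  ‖x1 - x2‖ < 1 → ‖y1 - y2‖ < 1 →
  x1 - x2 = (y1 + y2 + 1) * dl0 g s x1 y1 x2 y2 ∧
  y1 - y2 = (hh (2 * g) x1 x2 + s) * dl0 g s x1 y1 x2 y2 ∧
  ‖dl0 g s x1 y1 x2 y2‖ = max ‖x1 - x2‖ ‖y1 - y2‖ ∧
  ‖y1 + y2 + 1‖ ≤ 1 ∧ ‖hh (2 * g) x1 x2 + s‖ ≤ 1 ∧
  (‖y1 + y2 + 1‖ = 1 ∨ ‖hh (2 * g) x1 x2 + s‖ = 1)

/-- PZI: two close points in the chart at infinity. -/
def SPzi : Prop := ∀ (K : Type u) [NontriviallyNormedField K] [IsUltrametricDist K] (g : ℕ)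
  (s u1 w1 u2 w2 : K), 1 ≤ g → ‖s‖ ≤ 1 → SmoothI g s → ‖u1‖ ≤ 1 → ‖w1‖ ≤ 1 → ‖u2‖ ≤ 1 → ‖w2‖ ≤ 1 →
  w1 ^ 2 + u1 ^ (g + 1) * w1 = u1 + s * u1 ^ (2 * g + 1) →
  w2 ^ 2 + u2 ^ (g + 1) * w2 = u2 + s * u2 ^ (2 * g + 1) →
  ‖u1 - u2‖ < 1 → ‖w1 - w2‖ < 1 →
  u1 - u2 = (w1 + w2 + u1 ^ (g + 1)) * dli g s u1 w1 u2 w2 ∧
  w1 - w2 = (1 + s * hh (2 * g) u1 u2 - w2 * hh g u1 u2) * dli g s u1 w1 u2 w2 ∧
  ‖dli g s u1 w1 u2 w2‖ = max ‖u1 - u2‖ ‖w1 - w2‖ ∧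
  ‖w1 + w2 + u1 ^ (g + 1)‖ ≤ 1 ∧ ‖1 + s * hh (2 * g) u1 u2 - w2 * hh g u1 u2‖ ≤ 1 ∧
  (‖w1 + w2 + u1 ^ (g + 1)‖ = 1 ∨ ‖1 + s * hh (2 * g) u1 u2 - w2 * hh g u1 u2‖ = 1)

/-- PZC: comparison of the two charts on `|x| = 1`. -/
def SPzc : Prop := ∀ (K : Type u) [NontriviallyNormedField K] [IsUltrametricDist K] (g : ℕ)
  (s x1 y1 x2 y2 : K), 1 ≤ g → ‖s‖ ≤ 1 → Smooth0 g s → SmoothI g s → ‖x1‖ = 1 → ‖y1‖ ≤ 1 →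
  ‖x2‖ = 1 → ‖y2‖ ≤ 1 →
  y1 ^ 2 + y1 = x1 ^ (2 * g + 1) + s * x1 → y2 ^ 2 + y2 = x2 ^ (2 * g + 1) + s * x2 →
  ‖x1 - x2‖ < 1 → ‖y1 - y2‖ < 1 →
  max ‖x1⁻¹ - x2⁻¹‖ ‖y1 / x1 ^ (g + 1) - y2 / x2 ^ (g + 1)‖ = max ‖x1 - x2‖ ‖y1 - y2‖ ∧
  ‖dli g s x1⁻¹ (y1 / x1 ^ (g + 1)) x2⁻¹ (y2 / x2 ^ (g + 1)) + x1 ^ (g - 1) * dl0 g s x1 y1 x2 y2‖
    ≤ (max ‖x1 - x2‖ ‖y1 - y2‖) ^ 2

/-- CRD: coordinates of places of `E ∋ x, y`. -/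
def SCrd : Prop := ∀ (K E : Type u) [Field K] [Field E] [Algebra K E] (g : ℕ) (s : K) (x y : E),
  x ≠ 0 → y ^ 2 + y = x ^ (2 * g + 1) + algebraMap K E s * x → ∀ Q : Place K E,
  (x ∈ Q.ring → y ∈ Q.ring ∧ Q.val y ^ 2 + Q.val y = Q.val x ^ (2 * g + 1) + s * Q.val x) ∧
  (x⁻¹ ∈ Q.ring → y / x ^ (g + 1) ∈ Q.ring ∧
    Q.val (y / x ^ (g + 1)) ^ 2 + Q.val x⁻¹ ^ (g + 1) * Q.val (y / x ^ (g + 1)) =
      Q.val x⁻¹ + s * Q.val x⁻¹ ^ (2 * g + 1)) ∧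
  (x ∈ Q.ring → x⁻¹ ∈ Q.ring → Q.val x ≠ 0 ∧ Q.val x⁻¹ = (Q.val x)⁻¹ ∧
    Q.val (y / x ^ (g + 1)) = Q.val y / Q.val x ^ (g + 1)) ∧
  (1 ≤ g → x ∉ Q.ring → y ∉ Q.ring)

/-! ## Analytic maps to the curve -/

/-- PUL: pull-back of analytic functions along embeddings of fields. -/
def SPul : Prop := ∀ (K E1 E2 E3 : Type u) [NontriviallyNormedField K] [Field E1] [Field E2]
  [Field E3] [Algebra K E1] [Algebra K E2] [Algebra K E3] (Φ : Place K E1 → Place K E2) (f : E2)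
  (ι : E1 →ₐ[K] E3), AnF Φ f → AnF (fun P : Place K E3 => Φ (P.comap ι)) f ∧ AnF Φ f⁻¹

/-- CHA: charts: analytic coordinates are approximable in each chart.  `Φ` is a map to places of `E`,
`x, f ∈ E` with `f∘Φ` finite and `≤ 1` where `x∘Φ` is finite and `≤ 1`. -/
def SCha : Prop := ∀ (K Ω E : Type u) [NontriviallyNormedField K] [IsUltrametricDist K] [Field Ω]
  [Algebra K Ω] [Field E] [Algebra K E] (Φ : Place K Ω → Place K E) (f : E) (ε : ℝ), 0 < ε →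
  AnF Φ f → ∀ A : Set (Place K Ω), (∀ P ∈ A, f ∈ (Φ P).ring ∧ ‖(Φ P).val f‖ ≤ 1) →
  FCon A ε (fun P => (Φ P).val f)

/-- COV: the two charts of an analytic map: finitely many domains on each of which `x∘Φ` is
everywhere `≤ 1` or everywhere `≥ 1`. -/
def SCov : Prop := ∀ (K Ω E : Type u) [NontriviallyNormedField K] [IsUltrametricDist K] [Field Ω]
  [Algebra K Ω] [Field E] [Algebra K E] (Φ : Place K Ω → Place K E) (x : E), x ≠ 0 →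
  AnF Φ x → ∃ (n : ℕ) (T : Fin n → Finset Ω), (∀ P, ∃ i, P ∈ Dom K (T i)) ∧
    ∀ i, (∀ P ∈ Dom K (T i), x ∈ (Φ P).ring ∧ ‖(Φ P).val x‖ ≤ 1) ∨
         (∀ P ∈ Dom K (T i), x⁻¹ ∈ (Φ P).ring ∧ ‖(Φ P).val x⁻¹‖ ≤ 1)

/-- QUO: quotients of approximable functions with a denominator of norm one. -/
def SQuo : Prop := ∀ (K Ω : Type u) [NontriviallyNormedField K] [IsUltrametricDist K] [Field Ω]
  [Algebra K Ω] (A : Set (Place K Ω)) (η : ℝ), 0 < η → η < 1 →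
  ∀ N D N' D' d : Place K Ω → K,
  (∀ P ∈ A, N P = D P * d P ∧ N' P = D' P * d P ∧ ‖D P‖ ≤ 1 ∧ ‖D' P‖ ≤ 1 ∧ ‖d P‖ ≤ 1 ∧
    (‖D P‖ = 1 ∨ ‖D' P‖ = 1)) →
  FCon A η N → FCon A η D → FCon A η N' → FCon A η D' → FCon A η d

/-- GAP: the functions `G_k` are `M²`-approximable and bounded by `M`. -/
def SGap : Prop := ∀ (K Ω E : Type u) [NontriviallyNormedField K] [IsUltrametricDist K] [Field Ω]
  [Algebra K Ω] [Field E] [Algebra K E] (g k : ℕ) (s : K) (x y : E), 2 ≤ g → k ≤ g - 1 →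
  ‖s‖ ≤ 1 → Smooth0 g s → SmoothI g s → x ≠ 0 →
  y ^ 2 + y = x ^ (2 * g + 1) + algebraMap K E s * x →
  ∀ Φ1 Φ2 : Place K Ω → Place K E,
  AnF Φ1 x → AnF Φ1 y → AnF Φ1 (y / x ^ (g + 1)) →
  AnF Φ2 x → AnF Φ2 y → AnF Φ2 (y / x ^ (g + 1)) →
  ∀ M : ℝ, 0 < M → M < 1 → (∀ P, CloseAt g x y M (Φ1 P) (Φ2 P)) →
  FCon Set.univ (M ^ 2) (fun P => GG g k s x y (Φ1 P) (Φ2 P)) ∧
    ∀ P, ‖GG g k s x y (Φ1 P) (Φ2 P)‖ ≤ M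

/-- RIG: rigidity. -/
def SRig : Prop := ∀ (K Ω E : Type u) [NontriviallyNormedField K] [IsUltrametricDist K]
  [CompleteSpace K] [IsAlgClosed K] [CharZero K] [Field Ω] [Algebra K Ω]
  [Algebra (RatFunc K) Ω] [IsScalarTower K (RatFunc K) Ω] [Algebra.IsAlgebraic (RatFunc K) Ω]
  [IsAlgClosed Ω] [Field E] [Algebra K E] (p g : ℕ), p.Prime → ‖(p : K)‖ < 1 → 2 ≤ g →
  ∀ (s : K) (x y : E), Adm p g s → x ≠ 0 →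
  y ^ 2 + y = x ^ (2 * g + 1) + algebraMap K E s * x →
  ∀ Φ1 Φ2 : Place K Ω → Place K E,
  AnF Φ1 x → AnF Φ1 y → AnF Φ1 (y / x ^ (g + 1)) →
  AnF Φ2 x → AnF Φ2 y → AnF Φ2 (y / x ^ (g + 1)) →
  ∀ ε : ℝ, ε < ‖(p : K)‖ ^ 3 → (∀ P, CloseAt g x y ε (Φ1 P) (Φ2 P)) →
  (∃ P, x ∉ (Φ1 P).ring) → (∃ P, x ∈ (Φ1 P).ring ∧ (Φ1 P).val x = 0) →
  ∀ P, SameVal x (Φ1 P) (Φ2 P) ∧ SameVal y (Φ1 P) (Φ2 P)

/-- INV: analytic maps to the curve have finite level. -/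
def SInv : Prop := ∀ (K Ω E : Type u) [NontriviallyNormedField K] [IsUltrametricDist K]
  [CompleteSpace K] [IsAlgClosed K] [CharZero K] [Field Ω] [Algebra K Ω]
  [Algebra (RatFunc K) Ω] [IsScalarTower K (RatFunc K) Ω] [Algebra.IsAlgebraic (RatFunc K) Ω]
  [IsAlgClosed Ω] [Field E] [Algebra K E] (p g : ℕ), p.Prime → ‖(p : K)‖ < 1 → 2 ≤ g →
  ∀ (s : K) (x y : E), Adm p g s → x ≠ 0 →
  y ^ 2 + y = x ^ (2 * g + 1) + algebraMap K E s * x →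
  ∀ Φ : Place K Ω → Place K E,
  AnF Φ x → AnF Φ y → AnF Φ (y / x ^ (g + 1)) →
  (∃ P, x ∉ (Φ P).ring) → (∃ P, x ∈ (Φ P).ring ∧ (Φ P).val x = 0) →
  ∃ F' : IntermediateField (RatFunc K) Ω, FiniteDimensional (RatFunc K) F' ∧
    IsGalois (RatFunc K) F' ∧ FinLev (F' : Set Ω) Φ x ∧ FinLev (F' : Set Ω) Φ y

/-- FLP: finitely many values at the places over a point. -/
def SFlp : Prop := ∀ (K Ω E : Type u) [Field K]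
  [IsAlgClosed K] [CharZero K] [Field Ω] [Algebra K Ω]
  [Algebra (RatFunc K) Ω] [IsScalarTower K (RatFunc K) Ω] [Algebra.IsAlgebraic (RatFunc K) Ω]
  [IsAlgClosed Ω] [Field E] [Algebra K E]
  (F' : IntermediateField (RatFunc K) Ω) [FiniteDimensional (RatFunc K) F']
  [IsGalois (RatFunc K) F'] (Φ : Place K Ω → Place K E) (f : E), FinLev (F' : Set Ω) Φ f →
  (∃ A : Finset K, ∀ P : Place K Ω, zz K Ω ∉ P.ring → (Φ P).val f ∈ A) ∧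
  (∀ a : K, ∃ A : Finset K, ∀ P : Place K Ω, zz K Ω ∈ P.ring → P.val (zz K Ω) = a →
    (Φ P).val f ∈ A)

/-- BDU: an analytic bijection with analytic inverse is proper: if `zz(φ P) → ∞` along an
ultrafilter, then it converges to a pole. -/
def SBdu : Prop := ∀ (K E1 E2 : Type u) [NontriviallyNormedField K] [IsUltrametricDist K]
  [IsAlgClosed K] [Field E1] [Algebra K E1] [Field E2] [Algebra K E2]
  [Algebra (RatFunc K) E2] [IsScalarTower K (RatFunc K) E2] [Algebra.IsAlgebraic (RatFunc K) E2]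
  (φ : Place K E1 ≃ Place K E2),
  (∀ f : E1, AnF (φ.symm : Place K E2 → Place K E1) f) →
  ∀ 𝒰 : Ultrafilter (Place K E1),
  (∀ κ : ℝ, ∀ᶠ P in (𝒰 : Filter (Place K E1)),
    zz K E2 ∈ (φ P).ring → κ ≤ ‖(φ P).val (zz K E2)‖) →
  ∃ P0 : Place K E1, zz K E2 ∉ (φ P0).ring ∧ ∀ f ∈ P0.ring, ∀ ε : ℝ, 0 < ε →
    ∀ᶠ P in (𝒰 : Filter (Place K E1)), f ∈ P.ring ∧ ‖P.val f - P0.val f‖ ≤ ε

end PUC
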