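import Pool.Agent.H77.PUC.StmtsB

/-!
# Statements, part C: functions of finite level, connectedness, L0, GAGA
-/

universe u

namespace PUC

open Polynomial Filter Topology Metric

/-! ## Closure properties of approximable functions -/

/-- FCS: sums, constants, translation by the Galois group. -/
def SFcs : Prop := ∀ (K Ω : Type u) [NontriviallyNormedField K] [IsUltrametricDist K] [Field Ω]
  [Algebra K Ω] [Algebra (RatFunc K) Ω] [IsScalarTower K (RatFunc K) Ω]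
  (A : Set (Place K Ω)) (η : ℝ), 0 ≤ η →
  (∀ G G' : Place K Ω → K, FCon A η G → FCon A η G' →
    FCon A η (fun P => G P + G' P) ∧ FCon A η (fun P => G P - G' P) ∧ FCon A η (fun P => - G P)) ∧
  (∀ c : K, FCon A η (fun _ => c)) ∧
  (∀ b : Ω, (∀ P ∈ A, b ∈ P.ring) → FCon A η (fun P => P.val b)) ∧
  (∀ (ι : Type u) [Fintype ι] (G : ι → Place K Ω → K), (∀ i, FCon A η (G i)) →
    FCon A η (fun P => ∑ i, G i P)) ∧
  (∀ (G : Place K Ω → K) (σ : Ω ≃ₐ[RatFunc K] Ω), (∀ P, P ∈ A ↔ P.gact σ ∈ A) → FCon A η G →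
    FCon A η (fun P => G (P.gact σ)))

/-- FCP: products of bounded functions. -/
def SFcp : Prop := ∀ (K Ω : Type u) [NontriviallyNormedField K] [IsUltrametricDist K] [Field Ω]
  [Algebra K Ω] (A : Set (Place K Ω)) (η M : ℝ), 0 < η → η ≤ M →
  (∀ (ι : Type u) [Fintype ι] (G : ι → Place K Ω → K), (∀ i, FCon A η (G i)) →
    (∀ i, ∀ P ∈ A, ‖G i P‖ ≤ M) →
    FCon A (η * M ^ (Fintype.card ι - 1)) (fun P => ∏ i, G i P)) ∧
  (∀ G G' : Place K Ω → K, FCon A η G → FCon A η G' → (∀ P ∈ A, ‖G P‖ ≤ 1 ∧ ‖G' P‖ ≤ 1) →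
    η ≤ 1 → FCon A η (fun P => G P * G' P)) ∧
  (∀ (G : Place K Ω → K) (n : ℕ), FCon A η G → (∀ P ∈ A, ‖G P‖ ≤ 1) → η ≤ 1 →
    FCon A η (fun P => G P ^ n))

/-- FCM: product with a bounded algebraic function. -/
def SFcm : Prop := ∀ (K Ω : Type u) [NontriviallyNormedField K] [IsUltrametricDist K] [Field Ω]
  [Algebra K Ω] (A : Set (Place K Ω)) (η κ : ℝ), 0 < η → 0 < κ → ∀ (G : Place K Ω → K) (b : Ω),
  FCon A η G → (∀ P ∈ A, b ∈ P.ring ∧ ‖P.val b‖ ≤ κ) → FCon A (κ * η) (fun P => G P * P.val b)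

/-- FCC: functions that are close to an approximable function; pieces; restriction. -/
def SFcc : Prop := ∀ (K Ω : Type u) [NontriviallyNormedField K] [IsUltrametricDist K] [Field Ω]
  [Algebra K Ω] (η : ℝ), 0 ≤ η →
  (∀ (A : Set (Place K Ω)) (G G' : Place K Ω → K), FCon A η G → (∀ P ∈ A, ‖G P - G' P‖ ≤ η) →
    FCon A η G') ∧
  (∀ (A : Set (Place K Ω)) (n : ℕ) (T : Fin n → Finset Ω) (G : Place K Ω → K),
    (∀ P ∈ A, ∃ i, P ∈ Dom K (T i)) → (∀ i, FCon (A ∩ Dom K (T i)) η G) → FCon A η G) ∧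
  (∀ (A B : Set (Place K Ω)) (G : Place K Ω → K), A ⊆ B → FCon B η G → FCon A η G)

/-! ## Finite level -/

/-- BAS: an integral basis of `F'/K(z)` and generic invertibility of the matrix of its values. -/
def SBas : Prop := ∀ (K Ω : Type u) [NontriviallyNormedField K] [IsUltrametricDist K]
  [IsAlgClosed K] [CharZero K] [Field Ω] [Algebra K Ω]
  [Algebra (RatFunc K) Ω] [IsScalarTower K (RatFunc K) Ω] [Algebra.IsAlgebraic (RatFunc K) Ω]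
  [IsAlgClosed Ω] (F' : IntermediateField (RatFunc K) Ω) [FiniteDimensional (RatFunc K) F']
  [IsGalois (RatFunc K) F'],
  ∃ (n : ℕ) (b : Fin n → F') (κ : ℝ) (m : ℕ) (B : Finset K),
    (∀ (P : Place K Ω), zz K Ω ∈ P.ring → ∀ (i : Fin n) (γ : F' ≃ₐ[RatFunc K] F'),
      ((γ (b i) : F') : Ω) ∈ P.ring ∧
      ‖P.val ((γ (b i) : F') : Ω)‖ ≤ κ * max 1 ‖P.val (zz K Ω)‖ ^ m) ∧
    (∀ R : Fin n → RatFunc K, ∃ f : F', ∀ i,
      ∑ γ : F' ≃ₐ[RatFunc K] F', γ f * γ (b i) = algebraMap (RatFunc K) F' (R i)) ∧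
    (∀ P : Place K Ω, zz K Ω ∈ P.ring → P.val (zz K Ω) ∉ B →
      ∀ t : (F' ≃ₐ[RatFunc K] F') → K,
        (∀ i, ∑ γ : F' ≃ₐ[RatFunc K] F', t γ * P.val ((γ (b i) : F') : Ω) = 0) → ∀ γ, t γ = 0)

/-- LFT: lifts of the automorphisms of `F'` to `Ω`, and invariance. -/
def SLft : Prop := ∀ (K Ω : Type u) [Field K]
  [IsAlgClosed K] [CharZero K] [Field Ω] [Algebra K Ω]
  [Algebra (RatFunc K) Ω] [IsScalarTower K (RatFunc K) Ω] [Algebra.IsAlgebraic (RatFunc K) Ω]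
  [IsAlgClosed Ω] (F' : IntermediateField (RatFunc K) Ω) [FiniteDimensional (RatFunc K) F']
  [IsGalois (RatFunc K) F'],
  ∃ lft : (F' ≃ₐ[RatFunc K] F') → (Ω ≃ₐ[RatFunc K] Ω), lft 1 = 1 ∧
    (∀ (γ : F' ≃ₐ[RatFunc K] F') (f : F'), lft γ (f : Ω) = ((γ f : F') : Ω)) ∧
    (∀ τ : Ω ≃ₐ[RatFunc K] Ω, ∃ e : (F' ≃ₐ[RatFunc K] F') ≃ (F' ≃ₐ[RatFunc K] F'),
      ∀ (γ : F' ≃ₐ[RatFunc K] F') (P : Place K Ω),
        Agree (F' : Set Ω) ((P.gact τ).gact (lft γ)) (P.gact (lft (e γ))))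

/-- TRD: trace descent (TD of the plan). -/
def STrd : Prop := ∀ (K Ω : Type u) [NontriviallyNormedField K] [IsUltrametricDist K]
  [CompleteSpace K] [IsAlgClosed K] [CharZero K] [Field Ω] [Algebra K Ω]
  [Algebra (RatFunc K) Ω] [IsScalarTower K (RatFunc K) Ω] [Algebra.IsAlgebraic (RatFunc K) Ω]
  [IsAlgClosed Ω] (p : ℕ), p.Prime → ‖(p : K)‖ < 1 →
  ∀ (F' : IntermediateField (RatFunc K) Ω) [FiniteDimensional (RatFunc K) F']
  [IsGalois (RatFunc K) F'] (X : Place K Ω → K) (κ : ℝ) (m : ℕ),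
  (∀ P P' : Place K Ω, Agree (F' : Set Ω) P P' → X P = X P') →
  (∀ c : K, c ≠ 0 → ∀ ε : ℝ, 0 < ε → FCon (Disc 0 c) ε X) →
  (∀ P : Place K Ω, zz K Ω ∈ P.ring → ‖X P‖ ≤ κ * max 1 ‖P.val (zz K Ω)‖ ^ m) →
  ∃ f ∈ F', ∃ B : Finset K, ∀ P : Place K Ω, zz K Ω ∈ P.ring → P.val (zz K Ω) ∉ B →
    f ∈ P.ring ∧ P.val f = X P

/-- CON: connectedness: a function that is constant on each of finitely many domains covering all
places is constant. -/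
def SCon : Prop := ∀ (K Ω : Type u) [NontriviallyNormedField K] [IsUltrametricDist K]
  [CompleteSpace K] [IsAlgClosed K] [CharZero K] [Field Ω] [Algebra K Ω]
  [Algebra (RatFunc K) Ω] [IsScalarTower K (RatFunc K) Ω] [Algebra.IsAlgebraic (RatFunc K) Ω]
  [IsAlgClosed Ω] (p : ℕ), p.Prime → ‖(p : K)‖ < 1 →
  ∀ (n : ℕ) (T : Fin n → Finset Ω) (h : Place K Ω → K) (c : Fin n → K),
  (∀ P : Place K Ω, ∃ i, P ∈ Dom K (T i)) → (∀ i, ∀ P ∈ Dom K (T i), h P = c i) →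
  ∀ P P' : Place K Ω, h P = h P'

/-- NRM: the norm trick: the values of an approximately analytic function lie in finitely many small
discs. -/
def SNrm : Prop := ∀ (K Ω : Type u) [NontriviallyNormedField K] [IsUltrametricDist K]
  [CompleteSpace K] [IsAlgClosed K] [CharZero K] [Field Ω] [Algebra K Ω]
  [Algebra (RatFunc K) Ω] [IsScalarTower K (RatFunc K) Ω] [Algebra.IsAlgebraic (RatFunc K) Ω]
  [IsAlgClosed Ω] (p : ℕ), p.Prime → ‖(p : K)‖ < 1 →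
  ∀ (G : Place K Ω → K) (η M : ℝ), 0 < η → η ≤ M → (∀ P, ‖G P‖ ≤ M) → FCon Set.univ η G →
  ∃ (n : ℕ) (c : Fin n → K), 0 < n ∧
    ∀ P : Place K Ω, ∃ i, ‖G P - c i‖ ^ n ≤ ‖(p : K)‖⁻¹ ^ 3 * η * M ^ (n - 1)

/-- LZE: (L0 of the plan) an approximately analytic function with a zero is small. -/
def SLze : Prop := ∀ (K Ω : Type u) [NontriviallyNormedField K] [IsUltrametricDist K]
  [CompleteSpace K] [IsAlgClosed K] [CharZero K] [Field Ω] [Algebra K Ω]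
  [Algebra (RatFunc K) Ω] [IsScalarTower K (RatFunc K) Ω] [Algebra.IsAlgebraic (RatFunc K) Ω]
  [IsAlgClosed Ω] (p : ℕ), p.Prime → ‖(p : K)‖ < 1 →
  ∀ (G : Place K Ω → K) (η M : ℝ), 0 < η → (∀ P, ‖G P‖ ≤ M) → FCon Set.univ η G →
  (∃ Q : Place K Ω, ‖G Q‖ ≤ η) → ∀ P : Place K Ω, ‖G P‖ ≤ ‖(p : K)‖⁻¹ ^ 3 * η

/-! ## GAGA -/

/-- `(Φ, f)` has finite level `F'` -/
def FinLev {K Ω E : Type u} [Field K] [Field Ω] [Algebra K Ω] [Field E] [Algebra K E]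
    (S : Set Ω) (Φ : Place K Ω → Place K E) (f : E) : Prop :=
  ∀ P P' : Place K Ω, Agree S P P' → SameVal f (Φ P) (Φ P')

/-- PAW: near a point `a0`, there is a constant `c` such that `f∘Φ - c` is bounded away from `0`. -/
def SPaw : Prop := ∀ (K Ω E : Type u) [NontriviallyNormedField K] [IsUltrametricDist K]
  [CompleteSpace K] [IsAlgClosed K] [CharZero K] [Field Ω] [Algebra K Ω]
  [Algebra (RatFunc K) Ω] [IsScalarTower K (RatFunc K) Ω] [Algebra.IsAlgebraic (RatFunc K) Ω]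
  [IsAlgClosed Ω] [Field E] [Algebra K E]
  (F' : IntermediateField (RatFunc K) Ω) [FiniteDimensional (RatFunc K) F']
  [IsGalois (RatFunc K) F'] (Φ : Place K Ω → Place K E) (f : E), f ≠ 0 → AnF Φ f →
  FinLev (F' : Set Ω) Φ f → ∀ a0 : K, ∃ (c : K) (r κ : ℝ), c ≠ 0 ∧ 0 < r ∧ 0 < κ ∧
    ∀ P : Place K Ω, zz K Ω ∈ P.ring → ‖P.val (zz K Ω) - a0‖ ≤ r →
      f ∈ (Φ P).ring → κ ≤ ‖(Φ P).val f - c‖

/-- RCP: `T = 1/(f∘Φ - c)` is exactly analytic where `f∘Φ - c` is bounded away from `0`. -/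
def SRcp : Prop := ∀ (K Ω E : Type u) [NontriviallyNormedField K] [IsUltrametricDist K]
  [Field Ω] [Algebra K Ω] [Field E] [Algebra K E]
  (Φ : Place K Ω → Place K E) (f : E), f ≠ 0 → AnF Φ f → ∀ (c : K) (κ : ℝ) (A : Set (Place K Ω)),
  c ≠ 0 → 0 < κ → (∀ P ∈ A, f ∈ (Φ P).ring → κ ≤ ‖(Φ P).val f - c‖) →
  ∀ ε : ℝ, 0 < ε → FCon A ε (fun P => (Φ P).val (f - algebraMap K E c)⁻¹)

/-- POL: poles have finite order. -/
def SPol : Prop := ∀ (K Ω E : Type u) [NontriviallyNormedField K] [IsUltrametricDist K]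
  [CompleteSpace K] [IsAlgClosed K] [CharZero K] [Field Ω] [Algebra K Ω]
  [Algebra (RatFunc K) Ω] [IsScalarTower K (RatFunc K) Ω] [Algebra.IsAlgebraic (RatFunc K) Ω]
  [IsAlgClosed Ω] [Field E] [Algebra K E] (p : ℕ), p.Prime → ‖(p : K)‖ < 1 →
  ∀ (F' : IntermediateField (RatFunc K) Ω) [FiniteDimensional (RatFunc K) F']
  [IsGalois (RatFunc K) F'] (Φ : Place K Ω → Place K E) (f : E), f ≠ 0 → AnF Φ f →
  FinLev (F' : Set Ω) Φ f → ∀ A : Finset K,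
  (∀ P : Place K Ω, f ∉ (Φ P).ring → zz K Ω ∈ P.ring ∧ P.val (zz K Ω) ∈ A) →
  ∀ a0 : K, ∃ (m : ℕ) (κ r : ℝ), 0 < r ∧ ∀ P : Place K Ω, zz K Ω ∈ P.ring →
    P.val (zz K Ω) ≠ a0 → ‖P.val (zz K Ω) - a0‖ ≤ r →
    ‖(Φ P).val f‖ * ‖P.val (zz K Ω) - a0‖ ^ m ≤ κ

open Classical in
/-- `f∘Φ` with its poles cancelled -/
noncomputable def Xp {K Ω E : Type u} [Field K] [Field Ω] [Algebra K Ω] [Algebra (RatFunc K) Ω]
    [Field E] [Algebra K E] (Φ : Place K Ω → Place K E) (f : E) (A : Finset K) (m : ℕ)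
    (P : Place K Ω) : K :=
  if P.val (zz K Ω) ∈ A then 0 else
    (Φ P).val f * ∏ a ∈ A, (P.val (zz K Ω) - a) ^ (m + 1)

/-- GAX: `Xp` is exactly analytic on the discs and of polynomial growth. -/
def SGax : Prop := ∀ (K Ω E : Type u) [NontriviallyNormedField K] [IsUltrametricDist K]
  [Field Ω] [Algebra K Ω]
  [Algebra (RatFunc K) Ω] [IsScalarTower K (RatFunc K) Ω]
  [Field E] [Algebra K E] (Φ : Place K Ω → Place K E) (f : E), f ≠ 0 → AnF Φ f →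
  ∀ (A : Finset K) (m : ℕ),
  (∀ P : Place K Ω, f ∉ (Φ P).ring → zz K Ω ∈ P.ring ∧ P.val (zz K Ω) ∈ A) →
  (∀ δ : ℝ, 0 < δ → ∃ κ : ℝ, ∀ P : Place K Ω,
    (zz K Ω ∈ P.ring → ∀ a ∈ A, δ ≤ ‖P.val (zz K Ω) - a‖) → ‖(Φ P).val f‖ ≤ κ) →
  (∀ a0 ∈ A, ∃ (κ r : ℝ), 0 < r ∧ ∀ P : Place K Ω, zz K Ω ∈ P.ring →
    P.val (zz K Ω) ≠ a0 → ‖P.val (zz K Ω) - a0‖ ≤ r →
    ‖(Φ P).val f‖ * ‖P.val (zz K Ω) - a0‖ ^ m ≤ κ) →
  (∀ c : K, c ≠ 0 → ∀ ε : ℝ, 0 < ε → FCon (Disc 0 c) ε (Xp Φ f A m)) ∧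
  (∃ (κ : ℝ) (m' : ℕ), ∀ P : Place K Ω, zz K Ω ∈ P.ring →
    ‖Xp Φ f A m P‖ ≤ κ * max 1 ‖P.val (zz K Ω)‖ ^ m')

/-- GAG: GAGA. -/
def SGag : Prop := ∀ (K Ω E : Type u) [NontriviallyNormedField K] [IsUltrametricDist K]
  [CompleteSpace K] [IsAlgClosed K] [CharZero K] [Field Ω] [Algebra K Ω]
  [Algebra (RatFunc K) Ω] [IsScalarTower K (RatFunc K) Ω] [Algebra.IsAlgebraic (RatFunc K) Ω]
  [IsAlgClosed Ω] [Field E] [Algebra K E] (p : ℕ), p.Prime → ‖(p : K)‖ < 1 →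
  ∀ (F' : IntermediateField (RatFunc K) Ω) [FiniteDimensional (RatFunc K) F']
  [IsGalois (RatFunc K) F'] (Φ : Place K Ω → Place K E) (f : E), f ≠ 0 → AnF Φ f →
  FinLev (F' : Set Ω) Φ f → ∀ A : Finset K,
  (∀ P : Place K Ω, f ∉ (Φ P).ring → zz K Ω ∈ P.ring ∧ P.val (zz K Ω) ∈ A) →
  (∀ δ : ℝ, 0 < δ → ∃ κ : ℝ, ∀ P : Place K Ω,
    (zz K Ω ∈ P.ring → ∀ a ∈ A, δ ≤ ‖P.val (zz K Ω) - a‖) → ‖(Φ P).val f‖ ≤ κ) →
  ∃ ξ ∈ F', ∃ B : Finset K, ∀ P : Place K Ω, zz K Ω ∈ P.ring → P.val (zz K Ω) ∉ B →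
    ξ ∈ P.ring ∧ f ∈ (Φ P).ring ∧ P.val ξ = (Φ P).val f

end PUC
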