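import Pool.Agent.H1.PUC.CHA
import Pool.Agent.H1.PUC.EVN
import Pool.Agent.H1.PUC.EXT
import Pool.Agent.H1.PUC.FLP
import Pool.Agent.H1.PUC.GAG
import Pool.Agent.H1.PUC.GAX
import Pool.Agent.H1.PUC.PID
import Pool.Agent.H12.PUC.AXB
import Pool.Agent.H12.PUC.GNE
import Pool.Agent.H12.PUC.LIM
import Pool.Agent.H15.PUC.ALC
import Pool.Agent.H15.PUC.ICA
import Pool.Agent.H15.PUC.RNG
import Pool.Agent.H15.PUC.TRS
import Pool.Agent.H2.PUC.GAP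
import Pool.Agent.H2.PUC.GEN
import Pool.Agent.H2.PUC.INV
import Pool.Agent.H2.PUC.LDA
import Pool.Agent.H2.PUC.LDB
import Pool.Agent.H2.PUC.LDC
import Pool.Agent.H2.PUC.LDF
import Pool.Agent.H2.PUC.LDT
import Pool.Agent.H2.PUC.LMP
import Pool.Agent.H2.PUC.LMZ
import Pool.Agent.H22.PUC.BAS
import Pool.Agent.H22.PUC.LDP
import Pool.Agent.H27.PUC.ACT
import Pool.Agent.H27.PUC.CRD
import Pool.Agent.H27.PUC.LOW
import Pool.Agent.H3.PUC.NRM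
import Pool.Agent.H33.PUC.CHV
import Pool.Agent.H33.PUC.COA
import Pool.Agent.H33.PUC.EVR
import Pool.Agent.H33.PUC.EXV
import Pool.Agent.H33.PUC.ZPL
import Pool.Agent.H34.PUC.GLA
import Pool.Agent.H34.PUC.GLB
import Pool.Agent.H34.PUC.PZA
import Pool.Agent.H34.PUC.PZC
import Pool.Agent.H34.PUC.PZI
import Pool.Agent.H57.PUC.DLM
import Pool.Agent.H57.PUC.LZE
import Pool.Agent.H57.PUC.TRD
import Pool.Agent.H62.PUC.AXD
import Pool.Agent.H62.PUC.AXL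
import Pool.Agent.H62.PUC.CONN
import Pool.Agent.H62.PUC.DPR
import Pool.Agent.H62.PUC.PFF
import Pool.Agent.H64.PUC.EVA
import Pool.Agent.H67.PUC.PAW
import Pool.Agent.H67.PUC.QUO
import Pool.Agent.H67.PUC.RFA
import Pool.Agent.H74.PUC.FIN
import Pool.Agent.H74.PUC.NEA
import Pool.Agent.H77.PUC.DON
import Pool.Agent.H77.PUC.DPL
import Pool.Agent.H77.PUC.FCx
import Pool.Agent.H77.PUC.FFX
import Pool.Agent.H77.PUC.LCF
import Pool.Agent.H77.PUC.LCO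
import Pool.Agent.H77.PUC.MAI
import Pool.Agent.H77.PUC.OPN
import Pool.Agent.H77.PUC.OPx
import Pool.Agent.H77.PUC.OUA
import Pool.Agent.H77.PUC.OUB
import Pool.Agent.H77.PUC.OUC
import Pool.Agent.H77.PUC.OUT
import Pool.Agent.H77.PUC.PCO
import Pool.Agent.H77.PUC.PON
import Pool.Agent.H77.PUC.PPO
import Pool.Agent.H77.PUC.PUL
import Pool.Agent.H77.PUC.SUR
import Pool.Agent.H77.PUC.UNR
import Pool.Agent.H83.PUC.AGR
import Pool.Agent.H83.PUC.PLX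
import Pool.Agent.H85.PUC.COV
import Pool.Agent.H85.PUC.POL
import Pool.Agent.H85.PUC.RCP
import Pool.Agent.H85.PUC.RIG
import Pool.Agent.H87.PUC.CNJ
import Pool.Agent.H87.PUC.LOC
import Pool.Agent.H93.PUC.AXR
import Pool.Agent.H93.PUC.BDU
import Pool.Agent.H93.PUC.LFT
import Pool.Agent.H93.PUC.MXP
import Pool.Agent.H93.PUC.TOW
import Pool.Agent.H93.PUC.VAL
import Pool.Agent.H96.PUC.ITG
import Pool.Agent.H97.PUC.PFD
import Pool.Agent.H97.PUC.UNI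
import Pool.Agent.H97.PUC.ZER
import Pool.Agent.H99.PUC.TRP
import Pool.Agent.H99.PUC.UNC

/-! # Assembly of the modules -/

universe u

namespace PUC

theorem a_Exv : SExv.{u} := sExv
theorem a_Loc : SLoc.{u} := sLoc
theorem a_Cnj : SCnj.{u} := sCnj a_Loc
theorem a_Coa : SCoa.{u} := sCoa
theorem a_Chv : SChv.{u} := sChv
theorem a_Plx : SPlx.{u} := sPlx a_Exv
theorem a_Zpl : SZpl.{u} := sZpl a_Cnj
theorem a_Evr : SEvr.{u} := sEvr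
theorem a_Nea : SNea.{u} := sNea a_Evr
theorem a_Agr : SAgr.{u} := sAgr a_Cnj
theorem a_Zer : SZer.{u} := sZer
theorem a_Gro : SGro.{u} := sGro
theorem a_Fin : SFin.{u} := sFin
theorem a_Opn : SOpn.{u} := sOpn a_Cnj a_Coa
theorem a_Val : SVal.{u} := sVal
theorem a_Lmp : SLmp.{u} := sLmp a_Chv
theorem a_Lmz : SLmz.{u} := sLmz a_Chv
theorem a_Axb : SAxb.{u} := sAxb
theorem a_Axr : SAxr.{u} := sAxr
theorem a_Axl : SAxl.{u} := sAxl a_Axb a_Axr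
theorem a_Axd : SAxd.{u} := sAxd a_Axl
theorem a_Don : SDon.{u} := sDon a_Opn a_Val a_Axd
theorem a_Dpl : SDpl.{u} := sDpl a_Opn
theorem a_Eva : SEva.{u} := sEva
theorem a_Pfd : SPfd.{u} := sPfd
theorem a_Pff : SPff.{u} := sPff
theorem a_Gne : SGne.{u} := sGne
theorem a_Opo : SOpo.{u} := sOpo a_Eva a_Gne
theorem a_Opc : SOpc.{u} := sOpc a_Eva a_Gne
theorem a_Rng : SRng.{u} := sRng
theorem a_Mxp : SMxp.{u} := sMxp
theorem a_Gla : SGla.{u} := sGla a_Pff a_Pfd a_Opo a_Opc a_Eva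
theorem a_Glb : SGlb.{u} := sGlb a_Pff a_Opo a_Rng a_Eva
theorem a_Dlm : SDlm.{u} := sDlm a_Glb a_Rng
theorem a_Lim : SLim.{u} := sLim
theorem a_Flt : SFlt.{u} := sFlt
theorem a_Lcf : SLcf.{u} := sLcf a_Don a_Zpl a_Evr a_Eva
theorem a_Lda : SLda.{u} := sLda a_Lcf a_Lim a_Flt a_Gne
theorem a_Ldb : SLdb.{u} := sLdb a_Lcf a_Lim a_Flt a_Gne
theorem a_Ldc : SLdc.{u} := sLdc a_Lcf a_Lim a_Flt a_Gne
theorem a_Ldt : SLdt.{u} := sLdt a_Lcf a_Lim a_Flt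
theorem a_Ldf : SLdf.{u} := sLdf a_Lcf a_Lim a_Flt
theorem a_Ldp : SLdp.{u} := sLdp a_Dpl a_Nea a_Zpl
theorem a_Lco : SLco.{u} := sLco a_Lda a_Ldb a_Ldc a_Ldt a_Gla
theorem a_Pon : SPon.{u} := sPon a_Lco a_Ldp a_Ldf a_Dlm a_Eva
theorem a_Pco : SPco.{u} := sPco a_Pon a_Dpl a_Nea a_Zpl a_Mxp
theorem a_Ppo : SPpo.{u} := sPpo a_Gne
theorem a_Low : SLow.{u} := sLow
theorem a_Fcs : SFcs.{u} := sFcs
theorem a_Fcp : SFcp.{u} := sFcp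
theorem a_Fcm : SFcm.{u} := sFcm
theorem a_Fcc : SFcc.{u} := sFcc
theorem a_Bas : SBas.{u} := sBas a_Zer a_Gro
theorem a_Lft : SLft.{u} := sLft
theorem a_Trd : STrd.{u} := sTrd a_Bas a_Lft a_Pon a_Ppo a_Fcs a_Fcm a_Zpl a_Zer
theorem a_Con : SCon.{u} := sCon a_Trd a_Fin a_Zer a_Nea a_Opn a_Zpl
theorem a_Nrm : SNrm.{u} := sNrm a_Lft a_Fin a_Pco a_Fcs a_Fcp a_Fcc a_Zpl
theorem a_Lze : SLze.{u} := sLze a_Nrm a_Con
theorem a_Flp : SFlp.{u} := sFlp a_Zpl a_Lft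
theorem a_Paw : SPaw.{u} := sPaw a_Lmz a_Flp
theorem a_Rcp : SRcp.{u} := sRcp
theorem a_Pol : SPol.{u} := sPol a_Paw a_Rcp a_Pon a_Low a_Lft a_Zpl
theorem a_Gax : SGax.{u} := sGax
theorem a_Gag : SGag.{u} := sGag a_Gax a_Pol a_Trd
theorem a_Smo : SSmo.{u} := sSmo
theorem a_Itg : SItg.{u} := sItg
theorem a_Pza : SPza.{u} := sPza
theorem a_Pzi : SPzi.{u} := sPzi
theorem a_Pzc : SPzc.{u} := sPzc
theorem a_Crd : SCrd.{u} := sCrd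
theorem a_Pul : SPul.{u} := sPul
theorem a_Cha : SCha.{u} := sCha
theorem a_Cov : SCov.{u} := sCov
theorem a_Quo : SQuo.{u} := sQuo
theorem a_Gap : SGap.{u} := sGap a_Cha a_Cov a_Quo a_Pza a_Pzi a_Pzc a_Itg a_Crd
theorem a_Rig : SRig.{u} := sRig a_Gap a_Lze a_Smo a_Itg a_Crd a_Pza a_Pzi a_Pzc
theorem a_Inv : SInv.{u} := sInv a_Rig a_Fin a_Agr a_Pul a_Crd a_Itg
theorem a_Bdu : SBdu.{u} := sBdu a_Lmp
theorem a_Alc : SAlc.{u} := sAlc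
theorem a_Tow : STow.{u} := sTow
theorem a_Ica : SIca.{u} := sIca a_Alc a_Tow
theorem a_Gen : SGen.{u} := sGen a_Crd a_Ica
theorem a_Unc : SUnc.{u} := sUnc a_Plx
theorem a_Unr : SUnr.{u} := sUnr a_Gen a_Alc a_Unc a_Ica
theorem a_Der : SDer.{u} := sDer
theorem a_Dex : SDex.{u} := sDex
theorem a_Uni : SUni.{u} := sUni
theorem a_Dpr : SDpr.{u} := sDpr a_Uni a_Gen a_Ica
theorem a_Trp : STrp.{u} := sTrp a_Chv a_Zpl
theorem a_Evn : SEvn.{u} := sEvn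
theorem a_Pid : SPid.{u} := sPid
theorem a_Rfa : SRfa.{u} := sRfa
theorem a_Act : SAct.{u} := sAct a_Der a_Dex a_Dpr a_Ica a_Rfa a_Trp a_Evn a_Pid
theorem a_Sur : SSur.{u} := sSur a_Rfa a_Zpl a_Tow
theorem a_Oua : SOua.{u} := sOua a_Inv a_Flp a_Pul a_Plx a_Rfa a_Ica a_Tow a_Sur
theorem a_Oub : SOub.{u} := sOub a_Bdu a_Rfa a_Ica a_Tow
theorem a_Ouc : SOuc.{u} := sOuc a_Oua a_Oub a_Inv a_Gag a_Flp a_Pul a_Plx a_Rfa a_Ica a_Alc a_Tow a_Crd a_Sur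
theorem a_Out : SOut.{u} := sOut a_Ouc a_Plx a_Zer a_Zpl a_Rfa a_Ica a_Alc a_Tow a_Crd a_Sur
theorem a_Mai : SMai.{u} := sMai a_Out a_Unr a_Act
theorem a_Ffx : SFfx.{u} := sFfx
theorem a_Trs : STrs.{u} := sTrs

end PUC
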