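import Pool.Agent.H77.PUC.Defs

/-!
# Internal notions for the proof (coordinate `z`, Galois action, approximable functions)
-/

universe u v w

namespace PUC

open Polynomial Filter Topology

section Z
variable (K : Type u) (Ω : Type v) [Field K] [Field Ω] [Algebra K Ω] [Algebra (RatFunc K) Ω]

/-- the coordinate `z` -/
noncomputable def zz : Ω := algebraMap (RatFunc K) Ω RatFunc.X

variable {K Ω}

/-- the Galois action over `K(z)`: `f(P.gact σ) = (σ f)(P)` -/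
noncomputable def Place.gact [IsScalarTower K (RatFunc K) Ω] (P : Place K Ω) (σ : Ω ≃ₐ[RatFunc K] Ω) :
    Place K Ω := P.act (σ.restrictScalars K)

@[simp] theorem Place.mem_gact [IsScalarTower K (RatFunc K) Ω] (P : Place K Ω)
    (σ : Ω ≃ₐ[RatFunc K] Ω) (f : Ω) : f ∈ (P.gact σ).ring ↔ σ f ∈ P.ring := Iff.rfl

@[simp] theorem Place.val_gact [IsScalarTower K (RatFunc K) Ω] (P : Place K Ω)
    (σ : Ω ≃ₐ[RatFunc K] Ω) (f : Ω) : (P.gact σ).val f = P.val (σ f) := P.val_comap _ f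

/-- `P` and `P'` have the same restriction to `S` (used for subfields `S`). -/
def Agree (S : Set Ω) (P P' : Place K Ω) : Prop := ∀ f ∈ S, f ∈ P.ring ↔ f ∈ P'.ring

end Z

theorem Agree.val_eq {K : Type u} {Ω : Type v} {k : Type w} [Field K] [Field Ω] [Field k]
    [Algebra K Ω] [Algebra K k] [Algebra k Ω] [IsScalarTower K k Ω] {F : IntermediateField k Ω}
    {P P' : Place K Ω} (h : Agree (F : Set Ω) P P') {f : Ω} (hf : f ∈ F) : P.val f = P'.val f := by
  by_cases hP : f ∈ P.ring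
  · symm
    apply P'.val_eq
    have h1 := P.sub_val hP
    have h2 : f - algebraMap K Ω (P.val f) ∈ F := by
      apply F.sub_mem hf
      rw [IsScalarTower.algebraMap_apply K k Ω]
      exact F.algebraMap_mem _
    rw [ValuationSubring.mem_nonunits_iff_or] at h1 ⊢
    rcases h1 with h1 | h1
    · exact Or.inl h1
    · exact Or.inr fun h3 => h1 ((h _ (F.inv_mem h2)).2 h3)
  · rw [P.val_of_not_mem hP, P'.val_of_not_mem fun h1 => hP ((h f hf).2 h1)]

section Normed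
variable {K : Type u} {Ω : Type v} [NormedField K] [Field Ω] [Algebra K Ω]

/-- `G` is `η`-approximable by algebraic functions on `A`. -/
def FCon (A : Set (Place K Ω)) (η : ℝ) (G : Place K Ω → K) : Prop :=
  ∃ (n : ℕ) (T : Fin n → Finset Ω) (g : Fin n → Ω),
    (∀ P ∈ A, ∃ i, P ∈ Dom K (T i)) ∧
    ∀ i, ∀ P ∈ A, P ∈ Dom K (T i) → g i ∈ P.ring ∧ ‖G P - P.val (g i)‖ ≤ η

section withZ
variable [Algebra (RatFunc K) Ω]

/-- domains defined by functions of `z` -/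
def DomR (T : Finset (RatFunc K)) : Set (Place K Ω) :=
  {P | ∀ t ∈ T, algebraMap (RatFunc K) Ω t ∈ P.ring ∧ ‖P.val (algebraMap (RatFunc K) Ω t)‖ ≤ 1}

/-- the preimage of the closed disc with centre `a` and radius `‖c‖` -/
def Disc (a c : K) : Set (Place K Ω) :=
  {P | zz K Ω ∈ P.ring ∧ ‖P.val (zz K Ω) - a‖ ≤ ‖c‖}

end withZ

/-- the limit valuation ring of an ultrafilter of places -/
def ulim [IsUltrametricDist K] (𝒰 : Ultrafilter (Place K Ω)) : ValuationSubring Ω where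
  carrier := {f | ∀ᶠ P in (𝒰 : Filter (Place K Ω)), f ∈ P.ring ∧ ‖P.val f‖ ≤ 1}
  mul_mem' := by
    intro f g hf hg
    filter_upwards [hf, hg] with P hf hg
    refine ⟨P.ring.mul_mem _ _ hf.1 hg.1, ?_⟩
    rw [P.val_mul hf.1 hg.1, norm_mul]
    exact mul_le_one₀ hf.2 (norm_nonneg _) hg.2
  one_mem' := by
    filter_upwards with P
    exact ⟨P.ring.one_mem, by simp⟩
  add_mem' := by
    intro f g hf hg
    filter_upwards [hf, hg] with P hf hg
    refine ⟨P.ring.add_mem _ _ hf.1 hg.1, ?_⟩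
    rw [P.val_add hf.1 hg.1]
    exact (IsUltrametricDist.norm_add_le_max _ _).trans (max_le hf.2 hg.2)
  zero_mem' := by
    filter_upwards with P
    exact ⟨P.ring.zero_mem, by simp⟩
  neg_mem' := by
    intro f hf
    filter_upwards [hf] with P hf
    refine ⟨P.ring.neg_mem _ hf.1, ?_⟩
    rw [P.val_neg, norm_neg]
    exact hf.2
  mem_or_inv_mem' := by
    intro f
    rw [Set.mem_ofPred_eq, Set.mem_ofPred_eq, ← Ultrafilter.eventually_or]
    filter_upwards with P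
    by_cases hf : f ∈ P.ring
    · by_cases h1 : ‖P.val f‖ ≤ 1
      · exact Or.inl ⟨hf, h1⟩
      · right
        have h0 : P.val f ≠ 0 := by
          intro h0; rw [h0, norm_zero] at h1; exact h1 zero_le_one
        refine ⟨P.inv_mem_of_val hf h0, ?_⟩
        rw [P.val_inv hf h0, norm_inv]
        exact inv_le_one_of_one_le₀ (le_of_lt (not_le.1 h1))
    · right
      exact ⟨P.inv_mem_of_not_mem hf, by rw [P.val_inv_of_not_mem hf]; simp⟩

theorem mem_ulim [IsUltrametricDist K] (𝒰 : Ultrafilter (Place K Ω)) (f : Ω) :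
    f ∈ ulim 𝒰 ↔ ∀ᶠ P in (𝒰 : Filter (Place K Ω)), f ∈ P.ring ∧ ‖P.val f‖ ≤ 1 := Iff.rfl

end Normed

section Rat
variable {K : Type u} [Field K]

/-- `h` is regular at `a` -/
def reg (a : K) (h : RatFunc K) : Prop := h.denom.eval a ≠ 0

/-- the value of `h` at `a` (junk value `0` at a pole) -/
noncomputable def ev (a : K) (h : RatFunc K) : K := h.eval (RingHom.id K) a

/-- `h` vanishes at infinity (or is zero) -/
def VanInf (h : RatFunc K) : Prop := h.num.degree < h.denom.degree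

end Rat

section Rad
variable {K : Type u} [NormedField K]

/-- `‖h(a)‖ ≤ 1` with `h` regular at `a` -/
def RV (a : K) (h : RatFunc K) : Prop := reg a h ∧ ‖ev a h‖ ≤ 1

/-- generic points of the closed disc `D(c, r)`: `‖a - c‖ ≤ r` and `‖a - s‖ ≥ r` for all `s ∈ S` -/
def Gen (c : K) (r : ℝ) (S : Finset K) : Set K := {a | ‖a - c‖ ≤ r ∧ ∀ s ∈ S, r ≤ ‖a - s‖}

/-- `b` is regular and `η`-close to `H` on `W` -/
def Apx (H : K → K) (η : ℝ) (W : Set K) (b : RatFunc K) : Prop :=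
  ∀ a ∈ W, reg a b ∧ ‖H a - ev a b‖ ≤ η

/-- `H` is `η`-close to a polynomial on `W` -/
def PolyApx (H : K → K) (η : ℝ) (W : Set K) : Prop := ∃ Q : K[X], ∀ a ∈ W, ‖H a - Q.eval a‖ ≤ η

/-- value of `h` if `‖a - β‖` is replaced by `w β` -/
noncomputable def vw (w : K → ℝ) (h : RatFunc K) : ℝ :=
  (‖h.num.leadingCoeff‖ * (h.num.roots.map w).prod) /
    (‖h.denom.leadingCoeff‖ * (h.denom.roots.map w).prod)

end Rad

section Curve
variable {K : Type u} [Field K]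

/-- `∑_{i+j=k} a^i b^j` -/
def hh (k : ℕ) (a b : K) : K := ∑ i ∈ Finset.range (k + 1), a ^ i * b ^ (k - i)

end Curve

section CurveN
variable {K : Type u} [NormedField K]

open Classical in
/-- `δ₀` -/
noncomputable def dl0 (g : ℕ) (s x1 y1 x2 y2 : K) : K :=
  if ‖y1 + y2 + 1‖ = 1 then (x1 - x2) / (y1 + y2 + 1) else (y1 - y2) / (hh (2 * g) x1 x2 + s)

open Classical in
/-- `δ_∞` -/
noncomputable def dli (g : ℕ) (s u1 w1 u2 w2 : K) : K :=
  if ‖w1 + w2 + u1 ^ (g + 1)‖ = 1 then (u1 - u2) / (w1 + w2 + u1 ^ (g + 1))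
  else (w1 - w2) / (1 + s * hh (2 * g) u1 u2 - w2 * hh g u1 u2)

/-- smooth reduction of the affine chart of `y² + y = x^(2g+1) + s x` -/
def Smooth0 (g : ℕ) (s : K) : Prop := ∀ a b : K, ‖a‖ ≤ 1 → ‖b‖ ≤ 1 →
  b ^ 2 + b = a ^ (2 * g + 1) + s * a → ‖2 * b + 1‖ = 1 ∨ ‖(2 * g + 1 : K) * a ^ (2 * g) + s‖ = 1

/-- smooth reduction of the chart at infinity `w² + u^(g+1) w = u + s u^(2g+1)` -/
def SmoothI (g : ℕ) (s : K) : Prop := ∀ u w : K, ‖u‖ ≤ 1 → ‖w‖ ≤ 1 →
  w ^ 2 + u ^ (g + 1) * w = u + s * u ^ (2 * g + 1) →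
  ‖2 * w + u ^ (g + 1)‖ = 1 ∨
    ‖1 + (2 * g + 1 : K) * s * u ^ (2 * g) - (g + 1 : K) * u ^ g * w‖ = 1

variable {E : Type v} [Field E] [Algebra K E]

/-- the points `Q`, `Q'` of `C_s` (given by coordinates `x, y ∈ E`) are `ε`-close -/
def CloseAt (g : ℕ) (x y : E) (ε : ℝ) (Q Q' : Place K E) : Prop :=
  (x ∈ Q.ring → ‖Q.val x‖ ≤ 1 →
    x ∈ Q'.ring ∧ ‖Q.val x - Q'.val x‖ ≤ ε ∧ ‖Q.val y - Q'.val y‖ ≤ ε) ∧
  (x⁻¹ ∈ Q.ring → ‖Q.val x⁻¹‖ ≤ 1 →
    x⁻¹ ∈ Q'.ring ∧ ‖Q.val x⁻¹ - Q'.val x⁻¹‖ ≤ ε ∧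
      ‖Q.val (y / x ^ (g + 1)) - Q'.val (y / x ^ (g + 1))‖ ≤ ε)

open Classical in
/-- the functions `G_k` -/
noncomputable def GG (g k : ℕ) (s : K) (x y : E) (Q Q' : Place K E) : K :=
  if x ∈ Q.ring ∧ ‖Q.val x‖ ≤ 1 then
    Q.val x ^ k * dl0 g s (Q.val x) (Q.val y) (Q'.val x) (Q'.val y)
  else
    - (Q.val x⁻¹ ^ (g - 1 - k) *
      dli g s (Q.val x⁻¹) (Q.val (y / x ^ (g + 1))) (Q'.val x⁻¹) (Q'.val (y / x ^ (g + 1))))

end CurveN

section Gene
variable {K : Type u} {E : Type v} [Field K] [Field E] [Algebra K E]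

/-- `t` generates the maximal ideal of `P` -/
def IsUnif (P : Place K E) (t : E) : Prop :=
  t ∈ P.ring.nonunits ∧ ∀ f ∈ P.ring.nonunits, ∃ h ∈ P.ring, f = h * t

/-- `Q` and `Q'` have the same value (finite or infinite) of `f` -/
def SameVal (f : E) (Q Q' : Place K E) : Prop := (f ∈ Q.ring ↔ f ∈ Q'.ring) ∧ Q.val f = Q'.val f

end Gene

end PUC
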