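import Pool.Agent.H77.PUC.StmtsE

/-!
# Smoothness of the two charts of `y² + y = x^(2g+1) + s x`
-/

universe u v

namespace PUC

section Swap

variable {k : Type v} [Field k]

theorem CHT_eq (g : ℕ) (s u y : k) (hu : u ≠ 0) :
    y ^ 2 + y = u⁻¹ ^ (2 * g + 1) + s * u⁻¹ ↔
      (y * u ^ (g + 1)) ^ 2 + u ^ (g + 1) * (y * u ^ (g + 1)) = u + s * u ^ (2 * g + 1) := by
  have e1 : (y * u ^ (g + 1)) ^ 2 + u ^ (g + 1) * (y * u ^ (g + 1)) =
      u ^ (2 * g + 2) * (y ^ 2 + y) := by ring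
  have e2 : u + s * u ^ (2 * g + 1) = u ^ (2 * g + 2) * (u⁻¹ ^ (2 * g + 1) + s * u⁻¹) := by
    have h1 : u ^ (2 * g + 2) = u ^ (2 * g + 1) * u := pow_succ _ _
    have h2 : u ^ (2 * g + 1) * u⁻¹ ^ (2 * g + 1) = 1 := by
      rw [← mul_pow, mul_inv_cancel₀ hu, one_pow]
    have h3 : u * u⁻¹ = 1 := mul_inv_cancel₀ hu
    rw [h1]
    linear_combination (-u) * h2 - s * u ^ (2 * g + 1) * h3
  rw [e1, e2]
  constructor
  · intro h; rw [h]
  · intro h; exact mul_left_cancel₀ (pow_ne_zero _ hu) h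

theorem CHT_dy (g : ℕ) (u y : k) : 2 * (y * u ^ (g + 1)) + u ^ (g + 1) = u ^ (g + 1) * (2 * y + 1) := by
  ring

theorem CHT_du (g : ℕ) (s u y : k) (hu : u ≠ 0) (h : y ^ 2 + y = u⁻¹ ^ (2 * g + 1) + s * u⁻¹)
    (hy : 2 * y + 1 = 0) :
    1 + (2 * g + 1) * s * u ^ (2 * g) - (g + 1) * u ^ g * (y * u ^ (g + 1)) =
      - (u ^ (2 * g) * ((2 * g + 1) * u⁻¹ ^ (2 * g) + s)) := by
  have h0 := (CHT_eq g s u y hu).1 h
  set U := u ^ g with hU
  have e1 : u ^ (g + 1) = U * u := pow_succ _ _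
  have e2 : u ^ (2 * g) = U ^ 2 := by rw [hU, ← pow_mul, mul_comm]
  have e3 : u ^ (2 * g + 1) = U ^ 2 * u := by rw [pow_succ, e2]
  have e4 : U ^ 2 * u⁻¹ ^ (2 * g) = 1 := by
    rw [← e2, ← mul_pow, mul_inv_cancel₀ hu, one_pow]
  rw [e1, e3] at h0
  have h5 : U ^ 2 * u * (y ^ 2 + y) = 1 + s * U ^ 2 := by
    apply mul_left_cancel₀ hu
    linear_combination h0
  rw [e1, e2]
  linear_combination (2 * (g : k) + 1) * e4 + (-2 * (g : k) - 2) * h5 +
    ((g : k) + 1) * U ^ 2 * u * y * hy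

end Swap

section NormK

variable {K : Type u} [NontriviallyNormedField K] [IsUltrametricDist K]

theorem CHT_smooth (hItg : SItg.{u}) (g : ℕ) (s : K) (hs : ‖s‖ ≤ 1) (h0 : Smooth0 g s)
    (hI : SmoothI g s) : SmoothCharts K g s := by
  obtain ⟨i0, iI⟩ := hItg K g s hs
  have hne : ∀ a : K, ‖a‖ = 1 → a ≠ 0 := by
    rintro a ha rfl
    rw [norm_zero] at ha
    exact zero_ne_one ha
  have c0 : ∀ x y : K, ‖x‖ ≤ 1 → y ^ 2 + y = x ^ (2 * g + 1) + s * x →
      2 * y + 1 ≠ 0 ∨ (2 * g + 1) * x ^ (2 * g) + s ≠ 0 := by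
    intro x y hx h
    rcases h0 x y hx (i0 x y hx h) h with h1 | h1
    · exact Or.inl (hne _ h1)
    · exact Or.inr (hne _ h1)
  have cI : ∀ u w : K, ‖u‖ ≤ 1 → w ^ 2 + u ^ (g + 1) * w = u + s * u ^ (2 * g + 1) →
      2 * w + u ^ (g + 1) ≠ 0 ∨ 1 + (2 * g + 1) * s * u ^ (2 * g) - (g + 1) * u ^ g * w ≠ 0 := by
    intro u w hu h
    rcases hI u w hu (iI u w hu h) h with h1 | h1
    · exact Or.inl (hne _ h1)
    · exact Or.inr (hne _ h1)
  constructor
  · intro x y h
    by_cases hx : ‖x‖ ≤ 1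
    · exact c0 x y hx h
    push Not at hx
    have hx0 : x ≠ 0 := by rintro rfl; rw [norm_zero] at hx; linarith
    have hu0 : x⁻¹ ≠ 0 := inv_ne_zero hx0
    have hu1 : ‖x⁻¹‖ ≤ 1 := by
      rw [norm_inv]; exact inv_le_one_of_one_le₀ hx.le
    have h' : y ^ 2 + y = (x⁻¹)⁻¹ ^ (2 * g + 1) + s * (x⁻¹)⁻¹ := by rw [inv_inv]; exact h
    by_contra hcon
    push Not at hcon
    obtain ⟨a1, a2⟩ := hcon
    rcases cI _ _ hu1 ((CHT_eq g s x⁻¹ y hu0).1 h') with h1 | h1
    · apply h1
      rw [CHT_dy, a1, mul_zero]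
    · apply h1
      rw [CHT_du g s x⁻¹ y hu0 h' a1, inv_inv, a2, mul_zero, neg_zero]
  · intro u w h
    by_cases hu : ‖u‖ ≤ 1
    · exact cI u w hu h
    push Not at hu
    have hu0 : u ≠ 0 := by rintro rfl; rw [norm_zero] at hu; linarith
    have hx1 : ‖u⁻¹‖ ≤ 1 := by
      rw [norm_inv]; exact inv_le_one_of_one_le₀ hu.le
    have hw : w = (w / u ^ (g + 1)) * u ^ (g + 1) := by
      rw [div_mul_cancel₀ _ (pow_ne_zero _ hu0)]
    set y := w / u ^ (g + 1) with hy
    have h' : y ^ 2 + y = u⁻¹ ^ (2 * g + 1) + s * u⁻¹ := by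
      rw [CHT_eq g s u y hu0, ← hw]; exact h
    rw [hw]
    rcases c0 _ _ hx1 h' with h1 | h1
    · left
      rw [CHT_dy]
      exact mul_ne_zero (pow_ne_zero _ hu0) h1
    · by_cases h2 : 2 * y + 1 = 0
      · right
        rw [CHT_du g s u y hu0 h' h2, neg_ne_zero]
        exact mul_ne_zero (pow_ne_zero _ hu0) h1
      · left
        rw [CHT_dy]
        exact mul_ne_zero (pow_ne_zero _ hu0) h2

end NormK

section Residue

variable {K : Type u} [NontriviallyNormedField K] [IsAlgClosed K] (O : ValuationSubring K)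

theorem CHT_quad (b c : O) (z : IsLocalRing.ResidueField O)
    (h : z ^ 2 + IsLocalRing.residue O b * z = IsLocalRing.residue O c) :
    ∃ y : O, (y : K) ^ 2 + b * y = c ∧ IsLocalRing.residue O y = z := by
  obtain ⟨a, ha⟩ := IsAlgClosed.exists_root (Polynomial.X ^ 2 + Polynomial.C (b : K) * Polynomial.X -
    Polynomial.C (c : K)) (by
      have : (Polynomial.X ^ 2 + Polynomial.C (b : K) * Polynomial.X -
        Polynomial.C (c : K)).degree = 2 := by compute_degree!
      rw [this]; decide)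
  rw [Polynomial.IsRoot.def] at ha
  simp only [Polynomial.eval_sub, Polynomial.eval_add, Polynomial.eval_pow, Polynomial.eval_X,
    Polynomial.eval_mul, Polynomial.eval_C] at ha
  have haO : a ∈ O := by
    rcases O.mem_or_inv_mem a with h1 | h1
    · exact h1
    · by_cases h0 : a = 0
      · rw [h0]; exact O.zero_mem
      · have e : a = - (b : K) + c * a⁻¹ := by
          have h3 : a * a⁻¹ = 1 := mul_inv_cancel₀ h0
          linear_combination a⁻¹ * ha + (- a - (b : K)) * h3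
        rw [e]
        exact O.add_mem _ _ (O.neg_mem _ b.2) (O.mul_mem _ _ c.2 h1)
  set A : O := ⟨a, haO⟩ with hA
  have hAc : A ^ 2 + b * A = c := by
    apply Subtype.ext
    push_cast
    rw [hA]
    exact sub_eq_zero.1 ha
  have hk : (z - IsLocalRing.residue O A) * (z + IsLocalRing.residue O b + IsLocalRing.residue O A) = 0 := by
    have h1 := congrArg (IsLocalRing.residue O) hAc
    rw [map_add, map_pow, map_mul] at h1
    linear_combination h - h1
  rcases mul_eq_zero.1 hk with h1 | h1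
  · refine ⟨A, ?_, (sub_eq_zero.1 h1).symm⟩
    have := congrArg (fun t : O => (t : K)) hAc
    push_cast at this
    exact this
  · refine ⟨- b - A, ?_, ?_⟩
    · have := congrArg (fun t : O => (t : K)) hAc
      push_cast at this ⊢
      linear_combination this
    · rw [map_sub, map_neg]
      linear_combination - h1

theorem CHT_residue_ne (hO : ∀ x : K, x ∈ O ↔ ‖x‖ ≤ 1) (x : O) (hx : ‖(x : K)‖ = 1) :
    IsLocalRing.residue O x ≠ 0 := by
  have hx0 : (x : K) ≠ 0 := by
    intro h0; rw [h0, norm_zero] at hx; exact zero_ne_one hx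
  have hi : (x : K)⁻¹ ∈ O := by
    rw [hO, norm_inv, hx, inv_one]
  have hu : IsUnit x := by
    refine IsUnit.of_mul_eq_one (⟨(x : K)⁻¹, hi⟩ : O) ?_
    apply Subtype.ext
    exact mul_inv_cancel₀ hx0
  exact (hu.map (IsLocalRing.residue O)).ne_zero

theorem CHT_residue (hO : ∀ x : K, x ∈ O ↔ ‖x‖ ≤ 1) (g : ℕ) (s : O) (h0 : Smooth0 g (s : K))
    (hI : SmoothI g (s : K)) : SmoothCharts (IsLocalRing.ResidueField O) g (IsLocalRing.residue O s) := by
  constructor
  · intro x y h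
    obtain ⟨x, rfl⟩ := IsLocalRing.residue_surjective x
    obtain ⟨y', h1, rfl⟩ := CHT_quad O 1 (x ^ (2 * g + 1) + s * x) y (by
      rw [map_one, one_mul, map_add, map_pow, map_mul]; exact h)
    rcases h0 x y' ((hO _).1 x.2) ((hO _).1 y'.2) (by
      push_cast at h1; rw [one_mul] at h1; exact h1) with h2 | h2
    · left
      have := CHT_residue_ne O hO (2 * y' + 1) (by push_cast; exact h2)
      rw [map_add, map_mul, map_one, map_ofNat] at this
      exact this
    · right
      have := CHT_residue_ne O hO ((2 * (g : O) + 1) * x ^ (2 * g) + s) (by push_cast; exact h2)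
      rw [map_add, map_mul, map_add, map_mul, map_one, map_ofNat, map_natCast, map_pow] at this
      exact this
  · intro u w h
    obtain ⟨u, rfl⟩ := IsLocalRing.residue_surjective u
    obtain ⟨w', h1, rfl⟩ := CHT_quad O (u ^ (g + 1)) (u + s * u ^ (2 * g + 1)) w (by
      rw [map_pow, map_add, map_mul, map_pow]; exact h)
    rcases hI u w' ((hO _).1 u.2) ((hO _).1 w'.2) (by
      push_cast at h1; exact h1) with h2 | h2
    · left
      have := CHT_residue_ne O hO (2 * w' + u ^ (g + 1)) (by push_cast; exact h2)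
      rw [map_add, map_mul, map_ofNat, map_pow] at this
      exact this
    · right
      have := CHT_residue_ne O hO (1 + (2 * (g : O) + 1) * s * u ^ (2 * g) - ((g : O) + 1) * u ^ g * w')
        (by push_cast; exact h2)
      rw [map_sub, map_add, map_mul, map_mul, map_add, map_mul, map_one, map_ofNat, map_natCast,
        map_pow, map_mul, map_mul, map_add, map_natCast, map_one, map_pow] at this
      exact this

end Residue

end PUC
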