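import Mathlib
import Pool.Agent.H29.SPL.PUCDefs

/-!
# Perfectoid universal covers of curves: basic notions

A connected smooth projective curve `C` over an algebraically closed field `K` is represented by its
function field `F / K`.  Finite étale covers of `C` are the finite extensions of `F` unramified at all
places; `UC K F` is the compositum of all of them inside `AlgebraicClosure F`.  The `K`-points of the
universal cover are the `K`-places of `UC K F`.
-/

universe u v w

namespace PUC

namespace Place

section Basic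
variable {K : Type u} {E : Type v} [Field K] [Field E] [Algebra K E] (P : Place K E)

theorem ext' {P Q : Place K E} (h : P.ring = Q.ring) : P = Q := by
  cases P; cases Q; simp only at h; subst h; rfl

theorem nonunits_mem {f : E} (h : f ∈ P.ring.nonunits) : f ∈ P.ring :=
  ValuationSubring.nonunits_subset h

theorem alg_nonunit {c : K} (h : algebraMap K E c ∈ P.ring.nonunits) : c = 0 := by
  by_contra hc
  rw [ValuationSubring.mem_nonunits_iff_or] at h
  rcases h with h | h
  · exact hc ((map_eq_zero _).1 h)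
  · apply h
    rw [← map_inv₀]
    exact P.alg_mem _

theorem sub_val {f : E} (h : f ∈ P.ring) : f - algebraMap K E (P.val f) ∈ P.ring.nonunits := by
  unfold val
  rw [dif_pos h]
  exact (P.res f h).choose_spec

theorem mem_of_sub {f : E} {c : K} (h : f - algebraMap K E c ∈ P.ring.nonunits) : f ∈ P.ring := by
  have := P.ring.add_mem _ _ (P.nonunits_mem h) (P.alg_mem c)
  simpa using this

theorem val_eq {f : E} {c : K} (h : f - algebraMap K E c ∈ P.ring.nonunits) : P.val f = c := by
  have hf := P.mem_of_sub h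
  have h1 := P.sub_val hf
  have h2 : algebraMap K E (P.val f - c) ∈ P.ring.nonunits := by
    have h3 := (P.ring.nonunits).sub_mem h h1
    have h4 : f - algebraMap K E c - (f - algebraMap K E (P.val f)) = algebraMap K E (P.val f - c) := by
      rw [map_sub]; ring
    rwa [h4] at h3
  exact sub_eq_zero.1 (P.alg_nonunit h2)

theorem val_of_not_mem {f : E} (h : f ∉ P.ring) : P.val f = 0 := by
  unfold val
  rw [dif_neg h]

@[simp] theorem val_algebraMap (c : K) : P.val (algebraMap K E c) = c :=
  P.val_eq (by simp)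

@[simp] theorem val_zero : P.val 0 = 0 := by simpa using P.val_algebraMap 0
@[simp] theorem val_one : P.val 1 = 1 := by simpa using P.val_algebraMap 1

theorem nonunits_mul {f g : E} (hf : f ∈ P.ring.nonunits) (hg : g ∈ P.ring) :
    f * g ∈ P.ring.nonunits := by
  rw [ValuationSubring.mem_nonunits_iff] at *
  rw [map_mul]
  have hg' := (P.ring.valuation_le_one_iff g).2 hg
  calc P.ring.valuation f * P.ring.valuation g ≤ P.ring.valuation f * 1 := by gcongr
    _ = P.ring.valuation f := mul_one _
    _ < 1 := hf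

theorem val_add {f g : E} (hf : f ∈ P.ring) (hg : g ∈ P.ring) :
    P.val (f + g) = P.val f + P.val g := by
  apply P.val_eq
  have h := (P.ring.nonunits).add_mem (P.sub_val hf) (P.sub_val hg)
  have e : f - algebraMap K E (P.val f) + (g - algebraMap K E (P.val g)) =
    f + g - algebraMap K E (P.val f + P.val g) := by rw [map_add]; ring
  rwa [e] at h

theorem val_neg (f : E) : P.val (-f) = - P.val f := by
  by_cases hf : f ∈ P.ring
  · apply P.val_eq
    have h := (P.ring.nonunits).neg_mem (P.sub_val hf)
    have e : -(f - algebraMap K E (P.val f)) = - f - algebraMap K E (- P.val f) := by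
      rw [map_neg]; ring
    rwa [e] at h
  · have h2 : -f ∉ P.ring := fun h => hf (by simpa using P.ring.neg_mem _ h)
    rw [P.val_of_not_mem hf, P.val_of_not_mem h2, neg_zero]

theorem val_sub {f g : E} (hf : f ∈ P.ring) (hg : g ∈ P.ring) :
    P.val (f - g) = P.val f - P.val g := by
  rw [sub_eq_add_neg, P.val_add hf (P.ring.neg_mem _ hg), P.val_neg, sub_eq_add_neg]

theorem val_mul {f g : E} (hf : f ∈ P.ring) (hg : g ∈ P.ring) :
    P.val (f * g) = P.val f * P.val g := by
  apply P.val_eq
  have h1 := P.nonunits_mul (P.sub_val hf) hg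
  have h2 := P.nonunits_mul (P.sub_val hg) (P.alg_mem (P.val f))
  have h := (P.ring.nonunits).add_mem h1 h2
  have e : (f - algebraMap K E (P.val f)) * g + (g - algebraMap K E (P.val g)) *
      algebraMap K E (P.val f) = f * g - algebraMap K E (P.val f * P.val g) := by
    rw [map_mul]; ring
  rwa [e] at h

theorem pow_mem {f : E} (hf : f ∈ P.ring) (n : ℕ) : f ^ n ∈ P.ring := by
  induction n with
  | zero => simp [P.ring.one_mem]
  | succ n ih => rw [pow_succ]; exact P.ring.mul_mem _ _ ih hf

theorem val_pow {f : E} (hf : f ∈ P.ring) (n : ℕ) : P.val (f ^ n) = P.val f ^ n := by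
  induction n with
  | zero => simp
  | succ n ih => rw [pow_succ, P.val_mul (P.pow_mem hf n) hf, ih, pow_succ]

theorem val_eq_zero_of_nonunit {f : E} (h : f ∈ P.ring.nonunits) : P.val f = 0 :=
  P.val_eq (by simpa using h)

theorem nonunit_of_val_eq_zero {f : E} (hf : f ∈ P.ring) (h : P.val f = 0) :
    f ∈ P.ring.nonunits := by
  have := P.sub_val hf
  rw [h] at this
  simpa using this

theorem mem_or_inv (f : E) : f ∈ P.ring ∨ f⁻¹ ∈ P.ring := P.ring.mem_or_inv_mem f

theorem inv_mem_of_not_mem {f : E} (h : f ∉ P.ring) : f⁻¹ ∈ P.ring :=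
  (P.mem_or_inv f).resolve_left h

theorem val_inv_of_not_mem {f : E} (h : f ∉ P.ring) : P.val f⁻¹ = 0 := by
  apply P.val_eq_zero_of_nonunit
  rw [ValuationSubring.mem_nonunits_iff_or, inv_inv]
  exact Or.inr h

theorem inv_mem_of_val {f : E} (hf : f ∈ P.ring) (h : P.val f ≠ 0) : f⁻¹ ∈ P.ring := by
  by_contra hn
  apply h
  have := P.val_inv_of_not_mem hn
  rwa [inv_inv] at this

theorem val_inv {f : E} (hf : f ∈ P.ring) (h : P.val f ≠ 0) : P.val f⁻¹ = (P.val f)⁻¹ := by
  have hne : f ≠ 0 := by rintro rfl; simp at h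
  have h1 := P.val_mul hf (P.inv_mem_of_val hf h)
  rw [mul_inv_cancel₀ hne, P.val_one] at h1
  exact (eq_inv_of_mul_eq_one_right h1.symm)

theorem inv_not_mem {f : E} (hf : f ∈ P.ring) (h : P.val f = 0) (hne : f ≠ 0) :
    f⁻¹ ∉ P.ring := by
  intro hi
  have h1 := P.val_mul hf hi
  rw [mul_inv_cancel₀ hne, P.val_one, h, zero_mul] at h1
  exact one_ne_zero h1

theorem inv_mem_iff {f : E} (hne : f ≠ 0) : f⁻¹ ∈ P.ring ↔ (f ∉ P.ring ∨ P.val f ≠ 0) := by
  constructor
  · intro h
    by_cases hf : f ∈ P.ring
    · exact Or.inr fun h0 => P.inv_not_mem hf h0 hne h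
    · exact Or.inl hf
  · rintro (h | h)
    · exact P.inv_mem_of_not_mem h
    · by_cases hf : f ∈ P.ring
      · exact P.inv_mem_of_val hf h
      · exact P.inv_mem_of_not_mem hf

theorem sum_mem {ι : Type*} (s : Finset ι) (f : ι → E) (h : ∀ i ∈ s, f i ∈ P.ring) :
    ∑ i ∈ s, f i ∈ P.ring :=
  Subring.sum_mem P.ring.toSubring h

theorem prod_mem {ι : Type*} (s : Finset ι) (f : ι → E) (h : ∀ i ∈ s, f i ∈ P.ring) :
    ∏ i ∈ s, f i ∈ P.ring :=
  Subring.prod_mem P.ring.toSubring h

theorem val_sum {ι : Type*} (s : Finset ι) (f : ι → E) (h : ∀ i ∈ s, f i ∈ P.ring) :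
    P.val (∑ i ∈ s, f i) = ∑ i ∈ s, P.val (f i) := by
  classical
  induction s using Finset.induction_on with
  | empty => simp
  | insert a s ha ih =>
    rw [Finset.sum_insert ha, Finset.sum_insert ha,
      P.val_add (h a (Finset.mem_insert_self _ _))
        (P.sum_mem s f fun i hi => h i (Finset.mem_insert_of_mem hi)),
      ih fun i hi => h i (Finset.mem_insert_of_mem hi)]

theorem val_prod {ι : Type*} (s : Finset ι) (f : ι → E) (h : ∀ i ∈ s, f i ∈ P.ring) :
    P.val (∏ i ∈ s, f i) = ∏ i ∈ s, P.val (f i) := by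
  classical
  induction s using Finset.induction_on with
  | empty => simp
  | insert a s ha ih =>
    rw [Finset.prod_insert ha, Finset.prod_insert ha,
      P.val_mul (h a (Finset.mem_insert_self _ _))
        (P.prod_mem s f fun i hi => h i (Finset.mem_insert_of_mem hi)),
      ih fun i hi => h i (Finset.mem_insert_of_mem hi)]

theorem aeval_mem {f : E} (hf : f ∈ P.ring) (Q : Polynomial K) : Polynomial.aeval f Q ∈ P.ring := by
  rw [Polynomial.aeval_eq_sum_range]
  apply P.sum_mem
  intro i _
  rw [Algebra.smul_def]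
  exact P.ring.mul_mem _ _ (P.alg_mem _) (P.pow_mem hf i)

theorem val_aeval {f : E} (hf : f ∈ P.ring) (Q : Polynomial K) :
    P.val (Polynomial.aeval f Q) = Q.eval (P.val f) := by
  rw [Polynomial.aeval_eq_sum_range, P.val_sum, Polynomial.eval_eq_sum_range]
  · apply Finset.sum_congr rfl
    intro i _
    rw [Algebra.smul_def, P.val_mul (P.alg_mem _) (P.pow_mem hf i), P.val_algebraMap, P.val_pow hf]
  · intro i _
    rw [Algebra.smul_def]
    exact P.ring.mul_mem _ _ (P.alg_mem _) (P.pow_mem hf i)

end Basic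

section Comap
variable {K : Type u} {E : Type v} {E' : Type w} [Field K] [Field E] [Algebra K E] [Field E']
  [Algebra K E']

theorem comap_nonunits (P : Place K E) (ι : E' →ₐ[K] E) (f : E') :
    f ∈ (P.ring.comap (ι : E' →+* E)).nonunits ↔ ι f ∈ P.ring.nonunits := by
  rw [ValuationSubring.mem_nonunits_iff_or, ValuationSubring.mem_nonunits_iff_or,
    ValuationSubring.mem_comap]
  simp only [RingHom.coe_coe, map_inv₀, map_eq_zero]

/-- Restriction of a place along a `K`-embedding of fields. -/
def comap (P : Place K E) (ι : E' →ₐ[K] E) : Place K E' where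
  ring := P.ring.comap (ι : E' →+* E)
  alg_mem c := by
    rw [ValuationSubring.mem_comap]
    simpa using P.alg_mem c
  res f hf := by
    rw [ValuationSubring.mem_comap] at hf
    obtain ⟨c, hc⟩ := P.res _ hf
    refine ⟨c, ?_⟩
    rw [comap_nonunits]
    simpa using hc

@[simp] theorem mem_comap (P : Place K E) (ι : E' →ₐ[K] E) (f : E') :
    f ∈ (P.comap ι).ring ↔ ι f ∈ P.ring := Iff.rfl

@[simp] theorem val_comap (P : Place K E) (ι : E' →ₐ[K] E) (f : E') :
    (P.comap ι).val f = P.val (ι f) := by
  by_cases hf : ι f ∈ P.ring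
  · apply (P.comap ι).val_eq
    show _ ∈ (P.ring.comap (ι : E' →+* E)).nonunits
    rw [comap_nonunits, map_sub, AlgHom.commutes]
    exact P.sub_val hf
  · rw [P.val_of_not_mem hf, val_of_not_mem]
    exact hf

/-- The action of `K`-automorphisms: `f(P.act σ) = (σ f)(P)`. -/
def act (P : Place K E) (σ : E ≃ₐ[K] E) : Place K E := P.comap (σ : E →ₐ[K] E)

@[simp] theorem mem_act (P : Place K E) (σ : E ≃ₐ[K] E) (f : E) :
    f ∈ (P.act σ).ring ↔ σ f ∈ P.ring := Iff.rfl

@[simp] theorem val_act (P : Place K E) (σ : E ≃ₐ[K] E) (f : E) :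
    (P.act σ).val f = P.val (σ f) := P.val_comap _ f

end Comap

end Place

end PUC
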