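import Pool.Agent.H77.PUC.Asm
import Pool.Agent.H77.PUC.Charts

/-! # The final statements -/

universe u

namespace PUC

open scoped NNReal

/-- the special parameter `s₀ ∈ {0, 1}` -/
noncomputable def FIN_s0 (K : Type u) [Field K] (p g : ℕ) : K := if p ∣ 2 * g + 1 then 1 else 0

theorem FIN_adm {K : Type u} [NontriviallyNormedField K] (p g : ℕ) (s : K)
    (h : ‖s - FIN_s0 K p g‖ < 1) : Adm p g s := by
  unfold FIN_s0 at h
  unfold Adm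
  by_cases hd : p ∣ 2 * g + 1
  · rw [if_pos hd] at h
    exact Or.inr ⟨hd, h⟩
  · rw [if_neg hd, sub_zero] at h
    exact Or.inl ⟨hd, h⟩

theorem FIN_smooth {K : Type u} [NontriviallyNormedField K] [IsUltrametricDist K] (p g : ℕ)
    (hp : p.Prime) (hpK : ‖(p : K)‖ < 1) (hg : 2 ≤ g) (s : K) (h : ‖s - FIN_s0 K p g‖ < 1) :
    ‖s‖ ≤ 1 ∧ Smooth0 g s ∧ SmoothI g s ∧ SmoothCharts K g s := by
  obtain ⟨h1, h2, h3⟩ := a_Smo K p g s hp hpK (by omega) (FIN_adm p g s h)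
  exact ⟨h1, h2, h3, CHT_smooth a_Itg g s h1 h2 h3⟩

theorem FIN_main {K : Type u} [NontriviallyNormedField K] [IsUltrametricDist K]
    [CompleteSpace K] [IsAlgClosed K] [CharZero K] (p g : ℕ)
    (hp : p.Prime) (hpK : ‖(p : K)‖ < 1) (hg : 2 ≤ g) (s : K) (h : ‖s - FIN_s0 K p g‖ < 1)
    (hs : Transcendental ℚ s) (F₀ F : Type u) [Field F₀] [Algebra K F₀] [Field F] [Algebra K F]
    (x₀ y₀ : F₀) (x y : F) (h0 : IsCurve g (FIN_s0 K p g) F₀ x₀ y₀) (h1 : IsCurve g s F x y) :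
    ¬ UCIso K F₀ F :=
  a_Mai K F₀ F p g hp hpK hg s x₀ y₀ x y hs h h0 h1

theorem FIN_mem (p : ℕ) [Fact p.Prime] (x : ℂ_[p]) : x ∈ 𝓞_ℂ_[p] ↔ ‖x‖ ≤ 1 := by
  have h1 : ‖x‖ = ((Valued.v x : ℝ≥0) : ℝ) := by
    rw [PadicComplex.norm_eq_norm, Valuation.norm_def, PadicComplex.RankOne.hom_eq_embedding,
      Valuation.embedding_restrict]
  rw [h1]
  have h2 : x ∈ 𝓞_ℂ_[p] ↔ Valued.v x ≤ 1 := Valuation.mem_valuationSubring_iff _ _
  rw [h2]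
  exact_mod_cast Iff.rfl

theorem FIN_residue (p : ℕ) [Fact p.Prime] (s t : 𝓞_ℂ_[p]) (h : ‖(s : ℂ_[p]) - t‖ < 1) :
    IsLocalRing.residue 𝓞_ℂ_[p] s = IsLocalRing.residue 𝓞_ℂ_[p] t := by
  rw [← sub_eq_zero, ← map_sub, IsLocalRing.residue_eq_zero_iff, IsLocalRing.mem_maximalIdeal,
    mem_nonunits_iff]
  intro hu
  obtain ⟨v, hv⟩ := hu.exists_right_inv
  have h1 : ((s : ℂ_[p]) - t) * (v : ℂ_[p]) = 1 := by
    have := congrArg (fun a : 𝓞_ℂ_[p] => (a : ℂ_[p])) hv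
    push_cast at this
    exact this
  have h2 : ‖(v : ℂ_[p])‖ ≤ 1 := (FIN_mem p _).1 v.2
  have h3 := congrArg norm h1
  rw [norm_mul, norm_one] at h3
  have h4 : 0 ≤ ‖(s : ℂ_[p]) - t‖ := norm_nonneg _
  nlinarith

end PUC
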