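import Pool.Agent.H77.PUC.PCO

universe u

namespace PUC

open Polynomial Filter Topology Metric

theorem LCO_closed {K : Type u} [NontriviallyNormedField K] [IsUltrametricDist K] {a b c : K} {r : ℝ}
    (h1 : ‖a - b‖ ≤ r) (h2 : ‖b - c‖ ≤ r) : ‖a - c‖ ≤ r := by
  have : a - c = (a - b) + (b - c) := by ring
  rw [this]
  exact (IsUltrametricDist.norm_add_le_max _ _).trans (max_le h1 h2)

theorem sLco (hLda : SLda.{u}) (hLdb : SLdb.{u}) (hLdc : SLdc.{u}) (hLdt : SLdt.{u})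
    (hGla : SGla.{u}) : SLco.{u} := by
  intro K Ω _ _ _ _ _ _ _ _ _ _ _ p hp hp1 a0 c0 η H hD R hR hRc c hc r hr hrR
  have hη : 0 < η := hD.2.1
  have h1 := PON_one_le (K := K) hp hp1
  have hη' : 0 < ‖(p : K)‖⁻¹ ^ 3 * η := by positivity
  have hcR : ‖c - a0‖ ≤ R := by rwa [mem_closedBall, dist_eq_norm] at hc
  have hcc : c ∈ closedBall a0 ‖c0‖ := by
    rw [mem_closedBall, dist_eq_norm]; linarith
  by_cases hϖ : ∃ ϖ : K, ‖ϖ‖ = r
  · obtain ⟨ϖ, hϖr⟩ := hϖ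
    have hϖ0 : ϖ ≠ 0 := by
      rintro rfl; rw [norm_zero] at hϖr; linarith
    obtain ⟨S, ρ, r', b, hS, hρ, hρr, hr', hb⟩ := hGla K H (‖(p : K)‖⁻¹ ^ 3 * η) c ϖ hη' hϖ0
      (hLda K Ω p hp hp1 a0 c0 η H hD c ϖ hϖ0 (by linarith) hcc)
      (by
        intro s hs
        rw [mem_closedBall, dist_eq_norm] at hs
        obtain ⟨ρ, S, b, hρ, hb1, hb2⟩ := hLdb K Ω p hp hp1 a0 c0 η H hD s ϖ hϖ0 (by linarith)
          (by
            rw [mem_closedBall, dist_eq_norm]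
            exact LCO_closed (hs.trans (by linarith)) (hcR.trans hRc.le))
        refine ⟨ρ, S, b, hρ, hb1, fun a ha => hb2 a ⟨?_, ha.2⟩⟩
        exact LCO_closed ha.1 (by rw [norm_sub_rev]; exact hs))
      (hLdc K Ω p hp hp1 a0 c0 η H hD c ϖ hϖ0 (by linarith) hcc)
    rw [hϖr] at hS hρr hr'
    exact ⟨S, ρ, r', b, hS, hρ, hρr, hr', fun a ha => hb a ⟨ha.2.1, ha.2.2⟩⟩
  · push Not at hϖ
    obtain ⟨ρ, r', b, hρ, hρr, hr', hb⟩ := hLdt K Ω p hp hp1 a0 c0 η H hD c r hr (by linarith) hcc hϖ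
    refine ⟨{c}, ρ, r', b, ?_, hρ, hρr, hr', fun a ha => hb a ⟨?_, ha.2.1⟩⟩
    · intro s hs
      rw [Finset.mem_singleton] at hs
      rw [hs]
      exact mem_closedBall_self hr.le
    · exact ha.2.2 c (Finset.mem_singleton_self _)

end PUC
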