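import Pool.Agent.H77.PUC.Charts

/-! # Sanity checks: `UCIso` is reflexive and symmetric -/

universe u v

namespace PUC

theorem AnF_id (K : Type u) {E : Type v} [NormedField K] [Field E] [Algebra K E] (f : E) :
    AnF (fun P : Place K E => P) f := by
  classical
  intro ε hε
  refine ⟨2, ![{f}, {f⁻¹}], ![f, f⁻¹], fun P => ?_, fun i => ?_⟩
  · by_cases h : f ∈ P.ring ∧ ‖P.val f‖ ≤ 1
    · refine ⟨0, ?_⟩
      intro t ht
      have e : t = f := by simpa using ht
      rw [e]; exact h
    · refine ⟨1, ?_⟩
      intro t ht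
      have e : t = f⁻¹ := by simpa using ht
      rw [e]
      by_cases hf : f ∈ P.ring
      · have h1 : 1 < ‖P.val f‖ := by
          by_contra hn; exact h ⟨hf, not_lt.1 hn⟩
        have h0 : P.val f ≠ 0 := by
          intro h0; rw [h0, norm_zero] at h1; linarith
        refine ⟨P.inv_mem_of_val hf h0, ?_⟩
        rw [P.val_inv hf h0, norm_inv]
        exact inv_le_one_of_one_le₀ h1.le
      · refine ⟨P.inv_mem_of_not_mem hf, ?_⟩
        rw [P.val_inv_of_not_mem hf, norm_zero]
        exact zero_le_one
  · fin_cases i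
    · left
      intro P hP
      have := hP f (by simp)
      exact ⟨this.1, this.1, by simpa using hε.le⟩
    · right
      intro P hP
      have := hP f⁻¹ (by simp)
      exact ⟨this.1, this.1, by simpa using hε.le⟩

theorem UCIso_refl (K : Type u) (F : Type v) [NormedField K] [Field F] [Algebra K F] :
    UCIso K F F :=
  ⟨Equiv.refl _, fun f => AnF_id K f, fun f => AnF_id K f⟩

theorem UCIso_symm (K : Type u) (F₁ F₂ : Type v) [NormedField K] [Field F₁] [Field F₂]
    [Algebra K F₁] [Algebra K F₂] (h : UCIso K F₁ F₂) : UCIso K F₂ F₁ := by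
  obtain ⟨φ, h1, h2⟩ := h
  exact ⟨φ.symm, h2, h1⟩

end PUC
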