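import Pool.Agent.H77.PUC.Base

/-!
# Statements, part A: valuation rings, places, ultrafilters, Ax's lemma, descent to `K(z)`
Module `XXX` proves `SXxx.{u}`.
-/

universe u

namespace PUC

open Polynomial Filter Topology

/-! ## General valuation theory -/

/-- EXV: every valuation ring of `k` extends to an algebraic (any) extension `L`. -/
def SExv : Prop := ∀ (k L : Type u) [Field k] [Field L] [Algebra k L] (A0 : ValuationSubring k),
  ∃ A : ValuationSubring L, ∀ c : k, algebraMap k L c ∈ A ↔ c ∈ A0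

/-- LOC: a valuation ring `A` of an algebraic extension is the localisation of the integral closure
of `A ∩ k`. (Write a root relation over `A ∩ k` with one coefficient a unit; `u, u⁻¹` lemma.) -/
def SLoc : Prop := ∀ (k L : Type u) [Field k] [Field L] [Algebra k L] [Algebra.IsAlgebraic k L]
  (A : ValuationSubring L) (R : Subring k), (∀ c : k, c ∈ R ↔ algebraMap k L c ∈ A) →
  ∀ f ∈ A, ∃ b c : L, b ∈ A ∧ c ∈ A ∧ c ∉ A.nonunits ∧ f = b / c ∧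
    (∃ Q : k[X], Q.Monic ∧ (∀ i, Q.coeff i ∈ R) ∧ aeval b Q = 0) ∧
    (∃ Q : k[X], Q.Monic ∧ (∀ i, Q.coeff i ∈ R) ∧ aeval c Q = 0)

/-- CNJ: conjugacy of the extensions of a valuation ring in a normal extension. -/
def SCnj : Prop := ∀ (k L : Type u) [Field k] [CharZero k] [Field L] [Algebra k L]
  [Algebra.IsAlgebraic k L] [Normal k L] (A B : ValuationSubring L),
  (∀ c : k, algebraMap k L c ∈ A ↔ algebraMap k L c ∈ B) →
  ∃ σ : L ≃ₐ[k] L, ∀ f, f ∈ B ↔ σ f ∈ A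

/-- COA: coarsenings extend. -/
def SCoa : Prop := ∀ (k L : Type u) [Field k] [Field L] [Algebra k L]
  (A : ValuationSubring L) (B0 : ValuationSubring k), (∀ c : k, algebraMap k L c ∈ A → c ∈ B0) →
  ∃ B : ValuationSubring L, A ≤ B ∧ ∀ c : k, algebraMap k L c ∈ B ↔ c ∈ B0

/-! ## Places -/

/-- CHV: a proper valuation ring containing `K` of an algebraic extension of `K(z)` is a `K`-place. -/
def SChv : Prop := ∀ (K Ω : Type u) [Field K] [IsAlgClosed K] [Field Ω] [Algebra K Ω]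
  [Algebra (RatFunc K) Ω] [IsScalarTower K (RatFunc K) Ω] [Algebra.IsAlgebraic (RatFunc K) Ω]
  (V : ValuationSubring Ω), (∀ c : K, algebraMap K Ω c ∈ V) → V ≠ ⊤ →
  ∀ f ∈ V, ∃ c : K, f - algebraMap K Ω c ∈ V.nonunits

/-- PLX: places extend along algebraic extensions. -/
def SPlx : Prop := ∀ (K E' E : Type u) [Field K] [IsAlgClosed K] [Field E'] [Field E] [Algebra K E']
  [Algebra K E] [Algebra E' E] [IsScalarTower K E' E] [Algebra.IsAlgebraic E' E]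
  (Q : Place K E'), ∃ P : Place K E, P.comap (IsScalarTower.toAlgHom K E' E) = Q

/-- ZPL: the places of `Ω` over the points of the projective line. -/
def SZpl : Prop := ∀ (K Ω : Type u) [Field K] [IsAlgClosed K] [CharZero K] [Field Ω] [Algebra K Ω]
  [Algebra (RatFunc K) Ω] [IsScalarTower K (RatFunc K) Ω] [Algebra.IsAlgebraic (RatFunc K) Ω]
  [IsAlgClosed Ω],
  (∀ a : K, ∃ P : Place K Ω, zz K Ω ∈ P.ring ∧ P.val (zz K Ω) = a) ∧
  (∃ P : Place K Ω, zz K Ω ∉ P.ring) ∧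
  (∀ P P' : Place K Ω, SameVal (zz K Ω) P P' → ∃ σ : Ω ≃ₐ[RatFunc K] Ω, P' = P.gact σ)

/-- EVR: values of rational functions of `z`. -/
def SEvr : Prop := ∀ (K Ω : Type u) [Field K] [Field Ω] [Algebra K Ω]
  [Algebra (RatFunc K) Ω] [IsScalarTower K (RatFunc K) Ω] (P : Place K Ω) (h : RatFunc K),
  zz K Ω ∈ P.ring →
  (algebraMap (RatFunc K) Ω h ∈ P.ring ↔ reg (P.val (zz K Ω)) h) ∧
  (reg (P.val (zz K Ω)) h → P.val (algebraMap (RatFunc K) Ω h) = ev (P.val (zz K Ω)) h)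

/-- NEA: a rational function of norm `≤ 1` at a place is of norm `≤ 1` at all nearby places
(nearby: in terms of `z`, also at infinity). -/
def SNea : Prop := ∀ (K Ω : Type u) [NontriviallyNormedField K] [IsUltrametricDist K] [Field Ω]
  [Algebra K Ω] [Algebra (RatFunc K) Ω] [IsScalarTower K (RatFunc K) Ω]
  (P0 : Place K Ω) (T : Finset (RatFunc K)), P0 ∈ DomR T →
  (zz K Ω ∈ P0.ring → ∃ r : ℝ, 0 < r ∧ ∀ P : Place K Ω, zz K Ω ∈ P.ring →
    ‖P.val (zz K Ω) - P0.val (zz K Ω)‖ ≤ r → P ∈ DomR T) ∧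
  (zz K Ω ∉ P0.ring → ∃ R : ℝ, ∀ P : Place K Ω, (zz K Ω ∈ P.ring → R ≤ ‖P.val (zz K Ω)‖) →
    P ∈ DomR T)

/-- AGR: places with the same restriction to an intermediate field `F'` are conjugate over `F'`. -/
def SAgr : Prop := ∀ (K Ω : Type u) [Field K] [IsAlgClosed K] [CharZero K] [Field Ω] [Algebra K Ω]
  [Algebra (RatFunc K) Ω] [IsScalarTower K (RatFunc K) Ω] [Algebra.IsAlgebraic (RatFunc K) Ω]
  [IsAlgClosed Ω] (F' : IntermediateField (RatFunc K) Ω) (P P' : Place K Ω),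
  Agree (F' : Set Ω) P P' →
  ∃ σ : Ω ≃ₐ[RatFunc K] Ω, (∀ f ∈ F', σ f = f) ∧ P' = P.gact σ

/-- ZER: a non-zero element of `Ω` is finite and non-zero outside finitely many values of `z`. -/
def SZer : Prop := ∀ (K Ω : Type u) [Field K] [Field Ω] [Algebra K Ω]
  [Algebra (RatFunc K) Ω] [IsScalarTower K (RatFunc K) Ω] [Algebra.IsAlgebraic (RatFunc K) Ω]
  (q : Ω), q ≠ 0 → ∃ B : Finset K, ∀ P : Place K Ω, zz K Ω ∈ P.ring → P.val (zz K Ω) ∉ B →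
  q ∈ P.ring ∧ P.val q ≠ 0

/-- GRO: growth of integral elements. -/
def SGro : Prop := ∀ (K Ω : Type u) [NontriviallyNormedField K] [IsUltrametricDist K] [Field Ω]
  [Algebra K Ω] [Algebra (RatFunc K) Ω] [IsScalarTower K (RatFunc K) Ω] (b : Ω) (Q : K[X][X]),
  Q.Monic → Q.eval₂ ((algebraMap (RatFunc K) Ω).comp (algebraMap K[X] (RatFunc K))) b = 0 →
  ∃ (κ : ℝ) (m : ℕ), ∀ P : Place K Ω, zz K Ω ∈ P.ring →
    b ∈ P.ring ∧ ‖P.val b‖ ≤ κ * max 1 ‖P.val (zz K Ω)‖ ^ m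

/-- FIN: every finite subset of `Ω` lies in a finite Galois extension of `K(z)`. -/
def SFin : Prop := ∀ (K Ω : Type u) [Field K] [CharZero K] [Field Ω] [Algebra K Ω]
  [Algebra (RatFunc K) Ω] [IsScalarTower K (RatFunc K) Ω] [Algebra.IsAlgebraic (RatFunc K) Ω]
  [IsAlgClosed Ω] (S : Finset Ω),
  ∃ F' : IntermediateField (RatFunc K) Ω, FiniteDimensional (RatFunc K) F' ∧
    IsGalois (RatFunc K) F' ∧ ∀ s ∈ S, s ∈ F'

/-! ## Ultrafilters of places -/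

/-- OPN: going down / openness of `P_Ω → P¹`. -/
def SOpn : Prop := ∀ (K Ω : Type u) [NontriviallyNormedField K] [IsUltrametricDist K]
  [IsAlgClosed K] [CharZero K] [Field Ω] [Algebra K Ω]
  [Algebra (RatFunc K) Ω] [IsScalarTower K (RatFunc K) Ω] [Algebra.IsAlgebraic (RatFunc K) Ω]
  [IsAlgClosed Ω] (A : ValuationSubring Ω) (T : Finset Ω), (∀ t ∈ T, t ∈ A) →
  ∃ T' : Finset (RatFunc K), (∀ t ∈ T', algebraMap (RatFunc K) Ω t ∈ A) ∧
    ∀ P : Place K Ω, P ∈ DomR T' → ∃ σ : Ω ≃ₐ[RatFunc K] Ω, P.gact σ ∈ Dom K T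

/-- VAL: an ultrafilter of places that induces a norm on `K(z)` induces an absolute value on `Ω`. -/
def SVal : Prop := ∀ (K Ω : Type u) [NontriviallyNormedField K] [IsUltrametricDist K]
  [Field Ω] [Algebra K Ω]
  [Algebra (RatFunc K) Ω] [IsScalarTower K (RatFunc K) Ω] [Algebra.IsAlgebraic (RatFunc K) Ω]
  (𝒰 : Ultrafilter (Place K Ω)) (v0 : RatFunc K → ℝ),
  (∀ h : RatFunc K, h ≠ 0 → 0 < v0 h ∧
    Tendsto (fun P : Place K Ω => ‖P.val (algebraMap (RatFunc K) Ω h)‖) 𝒰 (𝓝 (v0 h))) →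
  ∃ v : AbsoluteValue Ω ℝ, IsNonarchimedean v ∧ (∀ c : K, v (algebraMap K Ω c) = ‖c‖) ∧
    ∀ f : Ω, Tendsto (fun P : Place K Ω => ‖P.val f‖) 𝒰 (𝓝 (v f)) ∧
      ∀ᶠ P in (𝒰 : Filter (Place K Ω)), f ∈ P.ring

/-- LMP: limits of places. If `z → ∞` along an ultrafilter of places of an algebraic extension of
`K(z)`, then the ultrafilter converges to a place at infinity. -/
def SLmp : Prop := ∀ (K E : Type u) [NontriviallyNormedField K] [IsUltrametricDist K]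
  [IsAlgClosed K] [Field E] [Algebra K E]
  [Algebra (RatFunc K) E] [IsScalarTower K (RatFunc K) E] [Algebra.IsAlgebraic (RatFunc K) E]
  (𝒰 : Ultrafilter (Place K E)),
  (∀ κ : ℝ, ∀ᶠ P in (𝒰 : Filter (Place K E)), zz K E ∈ P.ring → κ ≤ ‖P.val (zz K E)‖) →
  ∃ Q : Place K E, zz K E ∉ Q.ring ∧ ∀ f ∈ Q.ring, ∀ ε : ℝ, 0 < ε →
    ∀ᶠ P in (𝒰 : Filter (Place K E)), f ∈ P.ring ∧ ‖P.val f - Q.val f‖ ≤ ε

/-- LMZ: the same at a finite point. -/
def SLmz : Prop := ∀ (K E : Type u) [NontriviallyNormedField K] [IsUltrametricDist K]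
  [IsAlgClosed K] [Field E] [Algebra K E]
  [Algebra (RatFunc K) E] [IsScalarTower K (RatFunc K) E] [Algebra.IsAlgebraic (RatFunc K) E]
  (𝒰 : Ultrafilter (Place K E)) (a : K),
  (∀ ε : ℝ, 0 < ε → ∀ᶠ P in (𝒰 : Filter (Place K E)),
    zz K E ∈ P.ring ∧ ‖P.val (zz K E) - a‖ ≤ ε) →
  ∃ Q : Place K E, zz K E ∈ Q.ring ∧ Q.val (zz K E) = a ∧ ∀ f ∈ Q.ring, ∀ ε : ℝ, 0 < ε →
    ∀ᶠ P in (𝒰 : Filter (Place K E)), f ∈ P.ring ∧ ‖P.val f - Q.val f‖ ≤ ε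

/-! ## Ax's lemma -/

/-- AXB: binomial coefficients. -/
def SAxb : Prop := ∀ (L : Type u) [NontriviallyNormedField L] [IsUltrametricDist L] [CharZero L]
  (p : ℕ), p.Prime → ‖(p : L)‖ < 1 → ∀ k : ℕ,
  (∀ d : ℕ, ¬ p ∣ d → ‖((Nat.choose (p ^ k * d) (p ^ k) : ℕ) : L)‖ = 1) ∧
  ‖((Nat.choose (p ^ (k + 1)) (p ^ k) : ℕ) : L)‖ = ‖(p : L)‖

/-- AXR: a derivative of a polynomial with all roots small has a small root.
(`A` algebraically closed, `v` a non-archimedean absolute value on `A`.) -/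
def SAxr : Prop := ∀ (A : Type u) [Field A] [CharZero A] [IsAlgClosed A] (v : AbsoluteValue A ℝ),
  IsNonarchimedean v → ∀ (Q : A[X]) (l : ℝ), Q.Monic → (∀ a ∈ Q.roots, v a ≤ l) → 0 ≤ l →
  ∀ m : ℕ, m < Q.natDegree →
  ∃ b : A, (Polynomial.hasseDeriv m Q).IsRoot b ∧
    v b ^ (Q.natDegree - m) * v ((Nat.choose Q.natDegree m : ℕ) : A) ≤ l ^ (Q.natDegree - m)

/-- AXL: Ax's lemma. -/
def SAxl : Prop := ∀ (L : Type u) [NontriviallyNormedField L] [IsUltrametricDist L]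
  [CompleteSpace L] [CharZero L] (p : ℕ), p.Prime → ‖(p : L)‖ < 1 →
  ∀ (g : AlgebraicClosure L) (η : ℝ),
  (∀ τ : AlgebraicClosure L ≃ₐ[L] AlgebraicClosure L,
    spectralNorm L (AlgebraicClosure L) (τ g - g) ≤ η) →
  ∃ b : L, spectralNorm L (AlgebraicClosure L) (g - algebraMap L (AlgebraicClosure L) b) ≤
    ‖(p : L)‖⁻¹ ^ 2 * η

/-- AXD: Ax's lemma for an absolute value on an algebraically closed algebraic extension `Ω` of a
field `k` (not nec. complete). -/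
def SAxd : Prop := ∀ (k Ω : Type u) [Field k] [CharZero k] [Field Ω] [Algebra k Ω]
  [Algebra.IsAlgebraic k Ω] [IsAlgClosed Ω] (p : ℕ) (v : AbsoluteValue Ω ℝ),
  p.Prime → IsNonarchimedean v → v (p : Ω) < 1 →
  ∀ (g : Ω) (η : ℝ), 0 < η →
  (∀ σ : Ω ≃ₐ[k] Ω, (∀ f, v (σ f) = v f) → v (σ g - g) ≤ η) →
  ∃ b : k, v (g - algebraMap k Ω b) ≤ v (p : Ω)⁻¹ ^ 2 * η

/-! ## Descent to `K(z)` -/

/-- DON: descent at an ultrafilter inducing a norm on `K(z)`. -/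
def SDon : Prop := ∀ (K Ω : Type u) [NontriviallyNormedField K] [IsUltrametricDist K]
  [CompleteSpace K] [IsAlgClosed K] [CharZero K] [Field Ω] [Algebra K Ω]
  [Algebra (RatFunc K) Ω] [IsScalarTower K (RatFunc K) Ω] [Algebra.IsAlgebraic (RatFunc K) Ω]
  [IsAlgClosed Ω] (p : ℕ), p.Prime → ‖(p : K)‖ < 1 →
  ∀ (TA : Finset (RatFunc K)) (G : Place K Ω → K) (η : ℝ), 0 < η →
  (∀ P ∈ DomR TA, ∀ σ : Ω ≃ₐ[RatFunc K] Ω, G (P.gact σ) = G P) →
  FCon (DomR TA) η G →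
  ∀ (𝒰 : Ultrafilter (Place K Ω)) (v0 : RatFunc K → ℝ),
  (∀ᶠ P in (𝒰 : Filter (Place K Ω)), P ∈ DomR TA) →
  (∀ h : RatFunc K, h ≠ 0 → 0 < v0 h ∧
    Tendsto (fun P : Place K Ω => ‖P.val (algebraMap (RatFunc K) Ω h)‖) 𝒰 (𝓝 (v0 h))) →
  (∀ T1 : Finset (RatFunc K), (∀ h ∈ T1, h = 0 ∨ v0 h ≤ 1) →
    ∃ P : Place K Ω, P ∈ DomR T1) →
  ∃ (T' : Finset (RatFunc K)) (b : RatFunc K),
    (∀ᶠ P in (𝒰 : Filter (Place K Ω)), P ∈ DomR T') ∧
    ∀ P : Place K Ω, P ∈ DomR T' → P ∈ DomR TA ∧ algebraMap (RatFunc K) Ω b ∈ P.ring ∧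
      ‖G P - P.val (algebraMap (RatFunc K) Ω b)‖ ≤ ‖(p : K)‖⁻¹ ^ 3 * η

/-- DPL: descent at a place. -/
def SDpl : Prop := ∀ (K Ω : Type u) [NontriviallyNormedField K] [IsUltrametricDist K]
  [CompleteSpace K] [IsAlgClosed K] [CharZero K] [Field Ω] [Algebra K Ω]
  [Algebra (RatFunc K) Ω] [IsScalarTower K (RatFunc K) Ω] [Algebra.IsAlgebraic (RatFunc K) Ω]
  [IsAlgClosed Ω] (TA : Finset (RatFunc K)) (G : Place K Ω → K) (η : ℝ), 0 < η →
  (∀ P ∈ DomR TA, ∀ σ : Ω ≃ₐ[RatFunc K] Ω, G (P.gact σ) = G P) →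
  FCon (DomR TA) η G →
  ∀ P0 : Place K Ω, P0 ∈ DomR TA →
  ∃ T' : Finset (RatFunc K), P0 ∈ DomR T' ∧
    ∀ P : Place K Ω, P ∈ DomR T' → P ∈ DomR TA ∧ ‖G P - G P0‖ ≤ η

end PUC
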