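import Pool.Agent.H77.PUC.StmtsA

/-!
# Statements, part B: rational functions on discs, gluing, descent to polynomials
Module `XXX` proves `SXxx.{u}`.  `Gen c r S` = generic points of the closed disc, `Apx H η W b` =
`b` regular and `η`-close to `H` on `W`.
-/

universe u

namespace PUC

open Polynomial Filter Topology Metric

/-! ## Rational functions -/

/-- EVA: evaluation of rational functions is additive and multiplicative at regular points. -/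
def SEva : Prop := ∀ (K : Type u) [Field K] (a : K) (h h' : RatFunc K),
  (reg a h → reg a h' → reg a (h + h') ∧ ev a (h + h') = ev a h + ev a h' ∧
    reg a (h - h') ∧ ev a (h - h') = ev a h - ev a h' ∧
    reg a (h * h') ∧ ev a (h * h') = ev a h * ev a h') ∧
  (reg a h → ev a h ≠ 0 → reg a h⁻¹ ∧ ev a h⁻¹ = (ev a h)⁻¹) ∧
  (∀ Q : K[X], reg a (algebraMap K[X] (RatFunc K) Q) ∧
    ev a (algebraMap K[X] (RatFunc K) Q) = Q.eval a)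

/-- PFD: separation of the poles in `D`. -/
def SPfd : Prop := ∀ (K : Type u) [Field K] [IsAlgClosed K] (b : RatFunc K) (D : Set K),
  ∃ b1 b2 : RatFunc K, b = b1 + b2 ∧ VanInf b1 ∧ (∀ a, a ∉ D → reg a b1) ∧ (∀ a ∈ D, reg a b2)

/-- PFU: uniqueness of the separation of poles. -/
def SPfu : Prop := ∀ (K : Type u) [Field K] [IsAlgClosed K] (D : Set K) (b1 b2 : RatFunc K),
  VanInf b1 → (∀ a, a ∉ D → reg a b1) → (∀ a ∈ D, reg a b2) → b1 + b2 = 0 → b1 = 0 ∧ b2 = 0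

/-- PFF: separation of the poles in finitely many disjoint sets. -/
def SPff : Prop := ∀ (K : Type u) [Field K] [IsAlgClosed K] (b : RatFunc K) (n : ℕ)
  (D : Fin n → Set K), (∀ i j, i ≠ j → Disjoint (D i) (D j)) →
  ∃ (b1 : Fin n → RatFunc K) (b2 : RatFunc K), b = (∑ i, b1 i) + b2 ∧ (∀ i, VanInf (b1 i)) ∧
    (∀ i a, a ∉ D i → reg a (b1 i)) ∧ (∀ i, ∀ a ∈ D i, reg a b2) ∧
    (∀ a, reg a b → (∀ i, reg a (b1 i)) ∧ reg a b2)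

/-- OPO: orthogonality of principal parts, open disc. If `b = b1 + b2`, `b1` has poles only in the
open disc `ball s r` and vanishes at infinity, `b2` is regular on the open disc, and `|b| ≤ η` at the
generic points of `closedBall s r`, then `|b1| ≤ η` outside the open disc and `|b2| ≤ η` inside.
(Gauss norms, `Polynomial.gaussNorm_mul`; division with remainder by the denominator of `b1`.) -/
def SOpo : Prop := ∀ (K : Type u) [NontriviallyNormedField K] [IsUltrametricDist K] [IsAlgClosed K]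
  (b b1 b2 : RatFunc K) (s ϖ : K) (η : ℝ) (S : Finset K), ϖ ≠ 0 → b = b1 + b2 → VanInf b1 →
  (∀ a, a ∉ ball s ‖ϖ‖ → reg a b1) → (∀ a ∈ ball s ‖ϖ‖, reg a b2) →
  (∀ a ∈ Gen s ‖ϖ‖ S, reg a b ∧ ‖ev a b‖ ≤ η) →
  (∀ a, a ∉ ball s ‖ϖ‖ → ‖ev a b1‖ ≤ η) ∧ (∀ a ∈ ball s ‖ϖ‖, ‖ev a b2‖ ≤ η)

/-- OPC: orthogonality of principal parts, closed disc. -/
def SOpc : Prop := ∀ (K : Type u) [NontriviallyNormedField K] [IsUltrametricDist K] [IsAlgClosed K]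
  (b b1 b2 : RatFunc K) (s ϖ : K) (η : ℝ) (S : Finset K), ϖ ≠ 0 → b = b1 + b2 → VanInf b1 →
  (∀ a, a ∉ closedBall s ‖ϖ‖ → reg a b1) → (∀ a ∈ closedBall s ‖ϖ‖, reg a b2) →
  (∀ a ∈ Gen s ‖ϖ‖ S, reg a b ∧ ‖ev a b‖ ≤ η) →
  (∀ a, a ∉ closedBall s ‖ϖ‖ → ‖ev a b1‖ ≤ η) ∧ (∀ a ∈ closedBall s ‖ϖ‖, ‖ev a b2‖ ≤ η)

/-- GNE: generic points exist. -/
def SGne : Prop := ∀ (K : Type u) [NontriviallyNormedField K] [IsUltrametricDist K] [IsAlgClosed K]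
  (s ϖ : K) (S : Finset K), ϖ ≠ 0 → (Gen s ‖ϖ‖ S).Nonempty

/-- RNG: Runge: a rational function without poles on a closed disc is a limit of polynomials. -/
def SRng : Prop := ∀ (K : Type u) [NontriviallyNormedField K] [IsUltrametricDist K] [IsAlgClosed K]
  (b : RatFunc K) (c : K) (r ε : ℝ), 0 < r → 0 < ε → (∀ a ∈ closedBall c r, reg a b) →
  ∃ Q : K[X], ∀ a ∈ closedBall c r, ‖ev a b - Q.eval a‖ ≤ ε

/-- MXP: maximum principle for polynomials on a disc. -/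
def SMxp : Prop := ∀ (K : Type u) [NontriviallyNormedField K] [IsUltrametricDist K] [IsAlgClosed K]
  (Q : K[X]) (c : K) (r R η : ℝ), 0 ≤ r → r < R → (∀ a, r < ‖a - c‖ → ‖a - c‖ ≤ R → ‖Q.eval a‖ ≤ η) →
  ∀ a, ‖a - c‖ ≤ R → ‖Q.eval a‖ ≤ η

/-! ## Gluing -/

/-- GLA: gluing at a type 2 point. -/
def SGla : Prop := ∀ (K : Type u) [NontriviallyNormedField K] [IsUltrametricDist K] [IsAlgClosed K]
  (H : K → K) (η : ℝ) (c ϖ : K), 0 < η → ϖ ≠ 0 →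
  (∃ (S : Finset K) (b : RatFunc K), Apx H η (Gen c ‖ϖ‖ S) b) →
  (∀ s ∈ closedBall c ‖ϖ‖, ∃ (ρ : ℝ) (S : Finset K) (b : RatFunc K), ρ < ‖ϖ‖ ∧
    Apx H η {a | ρ ≤ ‖a - s‖ ∧ ‖a - s‖ < ‖ϖ‖} b ∧ Apx H η (Gen c ‖ϖ‖ S) b) →
  (∃ (r' : ℝ) (S : Finset K) (b : RatFunc K), ‖ϖ‖ < r' ∧
    Apx H η {a | ‖ϖ‖ < ‖a - c‖ ∧ ‖a - c‖ ≤ r'} b ∧ Apx H η (Gen c ‖ϖ‖ S) b) →
  ∃ (S : Finset K) (ρ r' : ℝ) (b : RatFunc K), (∀ s ∈ S, s ∈ closedBall c ‖ϖ‖) ∧ 0 < ρ ∧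
    ρ < ‖ϖ‖ ∧ ‖ϖ‖ < r' ∧ Apx H η {a | ‖a - c‖ ≤ r' ∧ ∀ s ∈ S, ρ ≤ ‖a - s‖} b

/-- GLB: filling the holes. -/
def SGlb : Prop := ∀ (K : Type u) [NontriviallyNormedField K] [IsUltrametricDist K] [IsAlgClosed K]
  (H : K → K) (η : ℝ) (c : K) (r ρ : ℝ) (S : Finset K) (b : RatFunc K), 0 < η → 0 < ρ → ρ < r →
  (∀ s ∈ S, s ∈ closedBall c r) →
  Apx H η {a | ‖a - c‖ ≤ r ∧ ∀ s ∈ S, ρ ≤ ‖a - s‖} b →
  (∀ s ∈ S, ∃ ρ' : ℝ, ρ < ρ' ∧ PolyApx H η (closedBall s ρ')) →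
  PolyApx H η (closedBall c r)

/-- local approximation near the point `(c, r)` relative to the disc `closedBall c0 R` -/
def Loc1 {K : Type u} [NormedField K] (H : K → K) (η : ℝ) (c0 : K) (R : ℝ) (c : K) (r : ℝ) : Prop :=
  ∃ (S : Finset K) (ρ r' : ℝ) (b : RatFunc K), (∀ s ∈ S, s ∈ closedBall c r) ∧ 0 < ρ ∧ ρ < r ∧
    r < r' ∧ Apx H η {a | ‖a - c0‖ ≤ R ∧ ‖a - c‖ ≤ r' ∧ ∀ s ∈ S, ρ ≤ ‖a - s‖} b

/-- DLM: locally approximable functions on a disc are close to polynomials (maximal chains of bad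
closed discs). -/
def SDlm : Prop := ∀ (K : Type u) [NontriviallyNormedField K] [IsUltrametricDist K]
  [CompleteSpace K] [IsAlgClosed K] (H : K → K) (η : ℝ) (c0 : K) (R : ℝ), 0 < η → 0 < R →
  (∀ c ∈ closedBall c0 R, ∀ r : ℝ, 0 < r → r ≤ R → Loc1 H η c0 R c r) →
  (∀ c ∈ closedBall c0 R, ∃ (r : ℝ) (b : RatFunc K), 0 < r ∧ Apx H η (closedBall c r) b) →
  (∀ (c : ℕ → K) (r : ℕ → ℝ), (∀ n, 0 < r n) → (∀ n, c n ∈ closedBall c0 R) → (∀ n, r n ≤ R) →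
    Antitone r → (∀ n, c (n + 1) ∈ closedBall (c n) (r n)) →
    (⋂ n, closedBall (c n) (r n)) = ∅ →
    ∃ (n : ℕ) (b : RatFunc K), Apx H η (closedBall (c n) (r n)) b) →
  PolyApx H η (closedBall c0 R)

/-! ## Filters on `K` -/

/-- LIM: limits of the norm of rational functions along a filter. -/
def SLim : Prop := ∀ (K : Type u) [NontriviallyNormedField K] [IsUltrametricDist K] [IsAlgClosed K]
  (𝓕 : Filter K) [NeBot 𝓕] (w : K → ℝ),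
  (∀ β : K, 0 < w β ∧ Tendsto (fun a => ‖a - β‖) 𝓕 (𝓝 (w β))) →
  ∀ h : RatFunc K, h ≠ 0 → 0 < vw w h ∧ Tendsto (fun a => ‖ev a h‖) 𝓕 (𝓝 (vw w h)) ∧
    ∀ᶠ a in 𝓕, reg a h

/-- FLT: monomial behaviour along a filter. -/
def SFlt : Prop := ∀ (K : Type u) [NontriviallyNormedField K] [IsUltrametricDist K] [IsAlgClosed K]
  (𝓕 : Filter K) [NeBot 𝓕] (c : K),
  (∀ᶠ a in 𝓕, a ≠ c) →
  (∀ β : K, (∃ C : ℝ, 0 < C ∧ ∀ᶠ a in 𝓕, ‖a - β‖ = C) ∨ (∀ᶠ a in 𝓕, ‖a - β‖ = ‖a - c‖)) →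
  ∀ h : RatFunc K, h ≠ 0 → ∃ (C : ℝ) (m : ℤ), 0 < C ∧
    ∀ᶠ a in 𝓕, reg a h ∧ ‖ev a h‖ = C * ‖a - c‖ ^ m

/-- the data: `G` a `Γ`-invariant `η`-approximable function on the disc `Disc a0 c0`, `H` the
corresponding function on `K`. -/
def Data {K : Type u} (Ω : Type u) [NontriviallyNormedField K] [Field Ω] [Algebra K Ω]
    [Algebra (RatFunc K) Ω] (a0 c0 : K) (η : ℝ) (H : K → K) : Prop :=
  c0 ≠ 0 ∧ 0 < η ∧ ∃ G : Place K Ω → K,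
    (∀ P ∈ (Disc a0 c0 : Set (Place K Ω)), G P = H (P.val (zz K Ω))) ∧
    FCon (Disc a0 c0) η G

/-- LCF: local rational approximation along a filter of points of `K`. -/
def SLcf : Prop := ∀ (K Ω : Type u) [NontriviallyNormedField K] [IsUltrametricDist K]
  [CompleteSpace K] [IsAlgClosed K] [CharZero K] [Field Ω] [Algebra K Ω]
  [Algebra (RatFunc K) Ω] [IsScalarTower K (RatFunc K) Ω] [Algebra.IsAlgebraic (RatFunc K) Ω]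
  [IsAlgClosed Ω] (p : ℕ), p.Prime → ‖(p : K)‖ < 1 →
  ∀ (a0 c0 : K) (η : ℝ) (H : K → K), Data Ω a0 c0 η H →
  ∀ (𝓕 : Filter K) [NeBot 𝓕] (v0 : RatFunc K → ℝ),
  (∀ᶠ a in 𝓕, ‖a - a0‖ ≤ ‖c0‖) →
  (∀ h : RatFunc K, h ≠ 0 → 0 < v0 h ∧ Tendsto (fun a => ‖ev a h‖) 𝓕 (𝓝 (v0 h))) →
  (∀ h : RatFunc K, (∀ᶠ a in 𝓕, RV a h) ∨ (∀ᶠ a in 𝓕, ¬ RV a h)) →
  (∀ T1 : Finset (RatFunc K), (∀ h ∈ T1, h = 0 ∨ v0 h ≤ 1) → ∃ a : K, ∀ h ∈ T1, RV a h) →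
  ∃ (T' : Finset (RatFunc K)) (b : RatFunc K),
    (∀ h ∈ T', ∀ᶠ a in 𝓕, RV a h) ∧
    ∀ a : K, (∀ h ∈ T', RV a h) → reg a b ∧ ‖H a - ev a b‖ ≤ ‖(p : K)‖⁻¹ ^ 3 * η

/-- LDA: generic points of a disc `closedBall c ‖ϖ‖ ⊆ closedBall a0 ‖c0‖`. -/
def SLda : Prop := ∀ (K Ω : Type u) [NontriviallyNormedField K] [IsUltrametricDist K]
  [CompleteSpace K] [IsAlgClosed K] [CharZero K] [Field Ω] [Algebra K Ω]
  [Algebra (RatFunc K) Ω] [IsScalarTower K (RatFunc K) Ω] [Algebra.IsAlgebraic (RatFunc K) Ω]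
  [IsAlgClosed Ω] (p : ℕ), p.Prime → ‖(p : K)‖ < 1 →
  ∀ (a0 c0 : K) (η : ℝ) (H : K → K), Data Ω a0 c0 η H →
  ∀ c ϖ : K, ϖ ≠ 0 → ‖ϖ‖ ≤ ‖c0‖ → c ∈ closedBall a0 ‖c0‖ →
  ∃ (S : Finset K) (b : RatFunc K), Apx H (‖(p : K)‖⁻¹ ^ 3 * η) (Gen c ‖ϖ‖ S) b

/-- LDB: just inside a residue disc. -/
def SLdb : Prop := ∀ (K Ω : Type u) [NontriviallyNormedField K] [IsUltrametricDist K]
  [CompleteSpace K] [IsAlgClosed K] [CharZero K] [Field Ω] [Algebra K Ω]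
  [Algebra (RatFunc K) Ω] [IsScalarTower K (RatFunc K) Ω] [Algebra.IsAlgebraic (RatFunc K) Ω]
  [IsAlgClosed Ω] (p : ℕ), p.Prime → ‖(p : K)‖ < 1 →
  ∀ (a0 c0 : K) (η : ℝ) (H : K → K), Data Ω a0 c0 η H →
  ∀ s ϖ : K, ϖ ≠ 0 → ‖ϖ‖ ≤ ‖c0‖ → s ∈ closedBall a0 ‖c0‖ →
  ∃ (ρ : ℝ) (S : Finset K) (b : RatFunc K), ρ < ‖ϖ‖ ∧
    Apx H (‖(p : K)‖⁻¹ ^ 3 * η) {a | ρ ≤ ‖a - s‖ ∧ ‖a - s‖ < ‖ϖ‖} b ∧
    Apx H (‖(p : K)‖⁻¹ ^ 3 * η) (Gen s ‖ϖ‖ S) b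

/-- LDC: just outside a disc. -/
def SLdc : Prop := ∀ (K Ω : Type u) [NontriviallyNormedField K] [IsUltrametricDist K]
  [CompleteSpace K] [IsAlgClosed K] [CharZero K] [Field Ω] [Algebra K Ω]
  [Algebra (RatFunc K) Ω] [IsScalarTower K (RatFunc K) Ω] [Algebra.IsAlgebraic (RatFunc K) Ω]
  [IsAlgClosed Ω] (p : ℕ), p.Prime → ‖(p : K)‖ < 1 →
  ∀ (a0 c0 : K) (η : ℝ) (H : K → K), Data Ω a0 c0 η H →
  ∀ c ϖ : K, ϖ ≠ 0 → ‖ϖ‖ < ‖c0‖ → c ∈ closedBall a0 ‖c0‖ →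
  ∃ (r' : ℝ) (S : Finset K) (b : RatFunc K), ‖ϖ‖ < r' ∧
    Apx H (‖(p : K)‖⁻¹ ^ 3 * η) {a | ‖ϖ‖ < ‖a - c‖ ∧ ‖a - c‖ ≤ r'} b ∧
    Apx H (‖(p : K)‖⁻¹ ^ 3 * η) (Gen c ‖ϖ‖ S) b

/-- LDT: type 3 points (`r` not in the value group). -/
def SLdt : Prop := ∀ (K Ω : Type u) [NontriviallyNormedField K] [IsUltrametricDist K]
  [CompleteSpace K] [IsAlgClosed K] [CharZero K] [Field Ω] [Algebra K Ω]
  [Algebra (RatFunc K) Ω] [IsScalarTower K (RatFunc K) Ω] [Algebra.IsAlgebraic (RatFunc K) Ω]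
  [IsAlgClosed Ω] (p : ℕ), p.Prime → ‖(p : K)‖ < 1 →
  ∀ (a0 c0 : K) (η : ℝ) (H : K → K), Data Ω a0 c0 η H →
  ∀ (c : K) (r : ℝ), 0 < r → r < ‖c0‖ → c ∈ closedBall a0 ‖c0‖ → (∀ ϖ : K, ‖ϖ‖ ≠ r) →
  ∃ (ρ r' : ℝ) (b : RatFunc K), 0 < ρ ∧ ρ < r ∧ r < r' ∧
    Apx H (‖(p : K)‖⁻¹ ^ 3 * η) {a | ρ ≤ ‖a - c‖ ∧ ‖a - c‖ ≤ r'} b

/-- LDF: type 4 points (nested discs with empty intersection). -/
def SLdf : Prop := ∀ (K Ω : Type u) [NontriviallyNormedField K] [IsUltrametricDist K]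
  [CompleteSpace K] [IsAlgClosed K] [CharZero K] [Field Ω] [Algebra K Ω]
  [Algebra (RatFunc K) Ω] [IsScalarTower K (RatFunc K) Ω] [Algebra.IsAlgebraic (RatFunc K) Ω]
  [IsAlgClosed Ω] (p : ℕ), p.Prime → ‖(p : K)‖ < 1 →
  ∀ (a0 c0 : K) (η : ℝ) (H : K → K), Data Ω a0 c0 η H →
  ∀ (c : ℕ → K) (r : ℕ → ℝ), (∀ n, 0 < r n) → (∀ n, c n ∈ closedBall a0 ‖c0‖) →
    (∀ n, r n ≤ ‖c0‖) → Antitone r → (∀ n, c (n + 1) ∈ closedBall (c n) (r n)) →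
    (⋂ n, closedBall (c n) (r n)) = ∅ →
    ∃ (n : ℕ) (b : RatFunc K), Apx H (‖(p : K)‖⁻¹ ^ 3 * η) (closedBall (c n) (r n)) b

/-- LDP: at the points of `K`. -/
def SLdp : Prop := ∀ (K Ω : Type u) [NontriviallyNormedField K] [IsUltrametricDist K]
  [CompleteSpace K] [IsAlgClosed K] [CharZero K] [Field Ω] [Algebra K Ω]
  [Algebra (RatFunc K) Ω] [IsScalarTower K (RatFunc K) Ω] [Algebra.IsAlgebraic (RatFunc K) Ω]
  [IsAlgClosed Ω] (a0 c0 : K) (η : ℝ) (H : K → K), Data Ω a0 c0 η H →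
  ∀ c : K, ‖c - a0‖ ≤ ‖c0‖ → ∃ r : ℝ, 0 < r ∧ ∀ a ∈ closedBall c r, ‖H a - H c‖ ≤ η

/-- LCO: all local approximations together (hypotheses of DLM with the constant `‖p‖⁻³ η`). -/
def SLco : Prop := ∀ (K Ω : Type u) [NontriviallyNormedField K] [IsUltrametricDist K]
  [CompleteSpace K] [IsAlgClosed K] [CharZero K] [Field Ω] [Algebra K Ω]
  [Algebra (RatFunc K) Ω] [IsScalarTower K (RatFunc K) Ω] [Algebra.IsAlgebraic (RatFunc K) Ω]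
  [IsAlgClosed Ω] (p : ℕ), p.Prime → ‖(p : K)‖ < 1 →
  ∀ (a0 c0 : K) (η : ℝ) (H : K → K), Data Ω a0 c0 η H →
  ∀ R : ℝ, 0 < R → R < ‖c0‖ → ∀ c ∈ closedBall a0 R, ∀ r : ℝ, 0 < r → r ≤ R →
    Loc1 H (‖(p : K)‖⁻¹ ^ 3 * η) a0 R c r

/-- PON: the conclusion on discs: `H` is `‖p‖⁻³ η`-close to a polynomial on every smaller disc. -/
def SPon : Prop := ∀ (K Ω : Type u) [NontriviallyNormedField K] [IsUltrametricDist K]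
  [CompleteSpace K] [IsAlgClosed K] [CharZero K] [Field Ω] [Algebra K Ω]
  [Algebra (RatFunc K) Ω] [IsScalarTower K (RatFunc K) Ω] [Algebra.IsAlgebraic (RatFunc K) Ω]
  [IsAlgClosed Ω] (p : ℕ), p.Prime → ‖(p : K)‖ < 1 →
  ∀ (a0 c0 : K) (η : ℝ) (H : K → K), Data Ω a0 c0 η H →
  ∀ R : ℝ, 0 < R → R < ‖c0‖ → PolyApx H (‖(p : K)‖⁻¹ ^ 3 * η) (closedBall a0 R)

/-- PCO: approximately analytic invariant functions on the whole line are approximately constant. -/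
def SPco : Prop := ∀ (K Ω : Type u) [NontriviallyNormedField K] [IsUltrametricDist K]
  [CompleteSpace K] [IsAlgClosed K] [CharZero K] [Field Ω] [Algebra K Ω]
  [Algebra (RatFunc K) Ω] [IsScalarTower K (RatFunc K) Ω] [Algebra.IsAlgebraic (RatFunc K) Ω]
  [IsAlgClosed Ω] (p : ℕ), p.Prime → ‖(p : K)‖ < 1 →
  ∀ (G : Place K Ω → K) (η : ℝ), 0 < η →
  (∀ (P : Place K Ω) (σ : Ω ≃ₐ[RatFunc K] Ω), G (P.gact σ) = G P) →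
  FCon Set.univ η G → ∀ P P' : Place K Ω, ‖G P - G P'‖ ≤ ‖(p : K)‖⁻¹ ^ 3 * η

/-- PPO: entire functions of polynomial growth are polynomials. -/
def SPpo : Prop := ∀ (K : Type u) [NontriviallyNormedField K] [IsUltrametricDist K]
  [CompleteSpace K] [IsAlgClosed K] (H : K → K) (κ : ℝ) (m : ℕ),
  (∀ R ε : ℝ, 0 < R → 0 < ε → PolyApx H ε (closedBall 0 R)) →
  (∀ a, ‖H a‖ ≤ κ * max 1 ‖a‖ ^ m) → ∃ Q : K[X], ∀ a, H a = Q.eval a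

/-- LOW: lower bound near a zero. -/
def SLow : Prop := ∀ (K : Type u) [NontriviallyNormedField K] [IsUltrametricDist K]
  [CompleteSpace K] [IsAlgClosed K] (H : K → K) (a0 : K) (R : ℝ), 0 < R →
  (∀ ε : ℝ, 0 < ε → PolyApx H ε (closedBall a0 R)) → (∃ a1 ∈ closedBall a0 R, H a1 ≠ 0) →
  ∃ (m : ℕ) (κ r : ℝ), 0 < κ ∧ 0 < r ∧ ∀ a ∈ closedBall a0 r, κ * ‖a - a0‖ ^ m ≤ ‖H a‖

end PUC
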