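import Pool.Agent.H77.PUC.StmtsD

/-!
# Statements, part E: algebra (unramified extensions, derivations) and the final assembly
-/

universe u

namespace PUC

open Polynomial Filter Topology Metric

/-! ## Unramified extensions -/

/-- GEN: uniformizers at the places of `K(x, y)`, `y² + y = x^(2g+1) + s₀ x`, `s₀ ∈ {0, 1}`. -/
def SGen : Prop := ∀ (K F : Type u) [Field K] [IsAlgClosed K] [CharZero K] [Field F] [Algebra K F]
  (g : ℕ) (s0 : K) (x y : F), 1 ≤ g → (s0 = 0 ∨ s0 = 1) → IsCurve g s0 F x y →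
  ∀ P : Place K F,
  (x ∈ P.ring → IsUnif P (x - algebraMap K F (P.val x)) ∨ IsUnif P (y - algebraMap K F (P.val y))) ∧
  (x ∉ P.ring → IsUnif P (y / x ^ (g + 1)))

/-- ALC: `F = K(x, y)` is algebraic over `K(t)` for every transcendental `t ∈ F`. -/
def SAlc : Prop := ∀ (K F : Type u) [Field K] [Field F] [Algebra K F] (x t : F),
  Transcendental K x → Algebra.IsAlgebraic (IntermediateField.adjoin K {x}) F →
  Transcendental K t → Algebra.IsAlgebraic (IntermediateField.adjoin K {t}) F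

/-- TOW: tower of algebraic extensions. -/
def STow : Prop := ∀ (K F Ω : Type u) [Field K] [Field F] [Algebra K F] [Field Ω] [Algebra F Ω]
  [Algebra K Ω] [IsScalarTower K F Ω] [Algebra.IsAlgebraic F Ω] (x : F),
  Algebra.IsAlgebraic (IntermediateField.adjoin K {x}) F →
  Algebra.IsAlgebraic (IntermediateField.adjoin K {algebraMap F Ω x}) Ω

/-- ICA: `F = K(x, y)` is finite over `K(x)`, and every finite `L/F` is finite over `K(ξ)` for every
transcendental `ξ ∈ L`. -/
def SIca : Prop := ∀ (K F : Type u) [Field K] [Field F] [Algebra K F] (g : ℕ) (s0 : K) (x y : F),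
  IsCurve g s0 F x y →
  FiniteDimensional (IntermediateField.adjoin K {x}) F ∧
  ∀ (L : Type u) [Field L] [Algebra K L] [Algebra F L] [IsScalarTower K F L]
    [FiniteDimensional F L] (ξ : L), Transcendental K ξ →
    FiniteDimensional (IntermediateField.adjoin K {ξ}) L

/-- UNC: composita and subextensions of unramified extensions are unramified.
`F` has uniformizers at all its places and is algebraic over `K(t)` for all transcendental `t`. -/
def SUnc : Prop := ∀ (K F Ω : Type u) [Field K] [IsAlgClosed K] [CharZero K] [Field F]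
  [Algebra K F] [Field Ω] [Algebra F Ω] [Algebra K Ω] [IsScalarTower K F Ω]
  [Algebra.IsAlgebraic F Ω],
  (∀ P : Place K F, ∃ t : F, t ≠ 0 ∧ IsUnif P t) →
  (∀ t : F, Transcendental K t → Algebra.IsAlgebraic (IntermediateField.adjoin K {t}) F) →
  (∀ L M : IntermediateField F Ω, Unr K F L → Unr K F M → Unr K F (L ⊔ M : IntermediateField F Ω)) ∧
  (∀ L M : IntermediateField F Ω, L ≤ M → Unr K F M → Unr K F L)

/-- UNR: finite subextensions of `UC K F` are unramified. -/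
def SUnr : Prop := ∀ (K F : Type u) [Field K] [IsAlgClosed K] [CharZero K] [Field F] [Algebra K F]
  (g : ℕ) (s0 : K) (x y : F), 1 ≤ g → (s0 = 0 ∨ s0 = 1) → IsCurve g s0 F x y →
  ∀ L : IntermediateField F (AlgebraicClosure F), L ≤ UC K F → FiniteDimensional F L → Unr K F L

/-! ## Derivations -/

/-- DER: a derivation of `K` with `∂ s = 1`. -/
def SDer : Prop := ∀ (K : Type u) [Field K] [CharZero K] (s : K), Transcendental ℚ s →
  ∃ D : Derivation ℤ K K, D s = 1

/-- DEX: extension of a derivation of `K` to an algebraic extension of `K(x)`, with `D x = 0`. -/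
def SDex : Prop := ∀ (K L : Type u) [Field K] [CharZero K] [Field L] [Algebra K L] (x : L)
  (D : Derivation ℤ K K), Transcendental K x →
  Algebra.IsAlgebraic (IntermediateField.adjoin K {x}) L →
  ∃ D' : Derivation ℤ L L, (∀ c : K, D' (algebraMap K L c) = algebraMap K L (D c)) ∧ D' x = 0

/-- UNI: (U1) a derivation preserves the valuation ring if it does not lower the uniformizer. -/
def SUni : Prop := ∀ (K L : Type u) [Field K] [CharZero K] [Field L] [Algebra K L]
  (P : Place K L) (t : L), t ≠ 0 → IsUnif P t →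
  Algebra.IsAlgebraic (IntermediateField.adjoin K {t}) L →
  ∀ (D : Derivation ℤ K K) (D' : Derivation ℤ L L),
  (∀ c : K, D' (algebraMap K L c) = algebraMap K L (D c)) → D' t ∈ P.ring →
  ∀ f ∈ P.ring, D' f ∈ P.ring

/-- DPR: the derivation with `∂ x = 0` preserves all valuation rings of an unramified extension `L`
of `K(x, y)`. -/
def SDpr : Prop := ∀ (K F L : Type u) [Field K] [IsAlgClosed K] [CharZero K] [Field F] [Algebra K F]
  [Field L] [Algebra K L] [Algebra F L] [IsScalarTower K F L] [FiniteDimensional F L]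
  (g : ℕ) (s0 : K) (x y : F), 1 ≤ g → (s0 = 0 ∨ s0 = 1) → IsCurve g s0 F x y → Unr K F L →
  ∀ (D : Derivation ℤ K K) (D' : Derivation ℤ L L),
  (∀ c : K, D' (algebraMap K L c) = algebraMap K L (D c)) → D' (algebraMap F L x) = 0 →
  ∀ P : Place K L, ∀ f ∈ P.ring, D' f ∈ P.ring

/-- INT: an element of `L` that is finite at all places where `zz` is finite has a polynomial trace;
an element with constant values over `a` has a trace with value `[L : K(z)] c` at `a`. -/
def STrp : Prop := ∀ (K L : Type u) [Field K] [IsAlgClosed K] [CharZero K] [Field L] [Algebra K L]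
  [Algebra (RatFunc K) L] [IsScalarTower K (RatFunc K) L] [FiniteDimensional (RatFunc K) L] (h : L),
  (∀ P : Place K L, zz K L ∈ P.ring → h ∈ P.ring) →
  ∃ τ : K[X], Algebra.trace (RatFunc K) L h = algebraMap K[X] (RatFunc K) τ ∧
    (∀ a c : K, (∀ P : Place K L, zz K L ∈ P.ring → P.val (zz K L) = a → P.val h = c) →
      τ.eval a = (Module.finrank (RatFunc K) L : K) * c) ∧
    ((∀ P : Place K L, zz K L ∉ P.ring → h / zz K L ^ 2 ∈ P.ring.nonunits) → τ.natDegree ≤ 1)

/-- EVN: values of `∂ξ` at the branch points and at infinity. -/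
def SEvn : Prop := ∀ (K L : Type u) [Field K] [IsAlgClosed K] [CharZero K] [Field L] [Algebra K L]
  (g : ℕ) (s : K) (ξ υ : L), 1 ≤ g → ξ ≠ 0 →
  υ ^ 2 + υ = ξ ^ (2 * g + 1) + algebraMap K L s * ξ →
  ∀ (D : Derivation ℤ K K) (D' : Derivation ℤ L L),
  (∀ c : K, D' (algebraMap K L c) = algebraMap K L (D c)) →
  (∀ P : Place K L, ∀ f ∈ P.ring, D' f ∈ P.ring) →
  (∀ P : Place K L, ξ ∈ P.ring → 1 + 4 * s * P.val ξ + 4 * P.val ξ ^ (2 * g + 1) = 0 →
    4 * s + 4 * (2 * g + 1 : K) * P.val ξ ^ (2 * g) ≠ 0 → P.val (D' ξ) = D (P.val ξ)) ∧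
  (∀ P : Place K L, ξ ∉ P.ring → D' ξ / ξ ^ 2 ∈ P.ring.nonunits)

/-- PID: the polynomial identity at the end: there is no polynomial `V` of degree `≤ 1` with
`V(e) D_s'(e) + 4 e = 0` at all roots `e` of `D_s = 1 + 4 s T + 4 T^(2g+1)` (`s` transcendental). -/
def SPid : Prop := ∀ (K : Type u) [Field K] [IsAlgClosed K] [CharZero K] (g : ℕ) (s : K), 1 ≤ g →
  Transcendental ℚ s →
  (∀ e : K, 1 + 4 * s * e + 4 * e ^ (2 * g + 1) = 0 →
    4 * s + 4 * (2 * g + 1 : K) * e ^ (2 * g) ≠ 0) ∧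
  ¬ ∃ V : K[X], V.natDegree ≤ 1 ∧ ∀ e : K, 1 + 4 * s * e + 4 * e ^ (2 * g + 1) = 0 →
    V.eval e * (4 * s + 4 * (2 * g + 1 : K) * e ^ (2 * g)) + 4 * e = 0

/-- RFA: the structure of an algebra over `K(X)` defined by a transcendental element `z`. -/
def SRfa : Prop := ∀ (K Ω : Type u) [Field K] [Field Ω] [Algebra K Ω] (z : Ω),
  Transcendental K z → ∃ _ : Algebra (RatFunc K) Ω, IsScalarTower K (RatFunc K) Ω ∧ zz K Ω = z ∧
    (Algebra.IsAlgebraic (IntermediateField.adjoin K {z}) Ω → Algebra.IsAlgebraic (RatFunc K) Ω) ∧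
    (FiniteDimensional (IntermediateField.adjoin K {z}) Ω → FiniteDimensional (RatFunc K) Ω) ∧
    (∀ M : IntermediateField K Ω, z ∈ M → ∀ q : RatFunc K, algebraMap (RatFunc K) Ω q ∈ M)

/-- ACT: the contradiction: an unramified extension of `K(C_{s₀})` does not contain `K(C_s)`. -/
def SAct : Prop := ∀ (K F L : Type u) [Field K] [IsAlgClosed K] [CharZero K] [Field F] [Algebra K F]
  [Field L] [Algebra K L] [Algebra F L] [IsScalarTower K F L] [FiniteDimensional F L]
  (g : ℕ) (s0 s : K) (x y : F), 1 ≤ g → (s0 = 0 ∨ s0 = 1) → IsCurve g s0 F x y → Unr K F L →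
  Transcendental ℚ s → ∀ ξ υ : L, υ ^ 2 + υ = ξ ^ (2 * g + 1) + algebraMap K L s * ξ →
  ∃ c : K, ξ = algebraMap K L c

/-! ## Assembly -/

/-- restriction of places from the algebraic closure to the universal cover -/
noncomputable def rs {K F : Type u} [Field K] [Field F] [Algebra K F]
    (P : Place K (AlgebraicClosure F)) : Place K (UC K F) :=
  P.comap ((UC K F).val.restrictScalars K)

/-- the image of `f ∈ F` in the universal cover -/
noncomputable def up (K : Type u) {F : Type u} [Field K] [Field F] [Algebra K F] (f : F) : UC K F :=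
  algebraMap F (UC K F) f

/-- SUR: surjectivity of `z` on the places of an algebraic extension of `K(z)`. -/
def SSur : Prop := ∀ (K E : Type u) [Field K] [IsAlgClosed K] [CharZero K] [Field E] [Algebra K E]
  (z : E), Transcendental K z → Algebra.IsAlgebraic (IntermediateField.adjoin K {z}) E →
  (∀ c : K, ∃ P : Place K E, z ∈ P.ring ∧ P.val z = c) ∧ (∃ P : Place K E, z ∉ P.ring)

/-- OUA: `x₁` takes finitely many values at the points mapped to `x₂ = ∞`. -/
def SOua : Prop := ∀ (K F₁ F₂ : Type u) [NontriviallyNormedField K] [IsUltrametricDist K]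
  [CompleteSpace K] [IsAlgClosed K] [CharZero K] [Field F₁] [Algebra K F₁] [Field F₂]
  [Algebra K F₂] (p g : ℕ), p.Prime → ‖(p : K)‖ < 1 → 2 ≤ g →
  ∀ (s1 s2 : K) (x1 y1 : F₁) (x2 y2 : F₂), Adm p g s1 → Adm p g s2 →
  IsCurve g s1 F₁ x1 y1 → IsCurve g s2 F₂ x2 y2 →
  ∀ φ : Place K (UC K F₁) ≃ Place K (UC K F₂),
  (∀ f : UC K F₁, AnF (φ.symm : Place K (UC K F₂) → Place K (UC K F₁)) f) →
  ∃ A : Finset K, ∀ P : Place K (UC K F₁), up K x2 ∉ (φ P).ring → P.val (up K x1) ∈ A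

/-- OUB: boundedness of `x₂∘φ` outside neighbourhoods of its poles. -/
def SOub : Prop := ∀ (K F₁ F₂ : Type u) [NontriviallyNormedField K] [IsUltrametricDist K]
  [CompleteSpace K] [IsAlgClosed K] [CharZero K] [Field F₁] [Algebra K F₁] [Field F₂]
  [Algebra K F₂] (g : ℕ) (s2 : K) (x2 y2 : F₂), IsCurve g s2 F₂ x2 y2 →
  ∀ φ : Place K (UC K F₁) ≃ Place K (UC K F₂),
  (∀ f : UC K F₁, AnF (φ.symm : Place K (UC K F₂) → Place K (UC K F₁)) f) →
  ∀ (z : UC K F₁) (A : Finset K),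
  (∀ P : Place K (UC K F₁), up K x2 ∉ (φ P).ring → z ∈ P.ring ∧ P.val z ∈ A) →
  ∀ δ : ℝ, 0 < δ → ∃ κ : ℝ, ∀ P : Place K (UC K F₁),
    (z ∈ P.ring → ∀ a ∈ A, δ ≤ ‖P.val z - a‖) → ‖(φ P).val (up K x2)‖ ≤ κ

/-- OUC: the algebraic functions `ξ, υ`. -/
def SOuc : Prop := ∀ (K F₁ F₂ : Type u) [NontriviallyNormedField K] [IsUltrametricDist K]
  [CompleteSpace K] [IsAlgClosed K] [CharZero K] [Field F₁] [Algebra K F₁] [Field F₂]
  [Algebra K F₂] (p g : ℕ), p.Prime → ‖(p : K)‖ < 1 → 2 ≤ g →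
  ∀ (s1 s2 : K) (x1 y1 : F₁) (x2 y2 : F₂), Adm p g s1 → Adm p g s2 →
  IsCurve g s1 F₁ x1 y1 → IsCurve g s2 F₂ x2 y2 →
  ∀ φ : Place K (UC K F₁) ≃ Place K (UC K F₂),
  (∀ f : UC K F₂, AnF (φ : Place K (UC K F₁) → Place K (UC K F₂)) f) →
  (∀ f : UC K F₁, AnF (φ.symm : Place K (UC K F₂) → Place K (UC K F₁)) f) →
  ∃ z ∈ UC K F₁, ∃ (ξ υ : AlgebraicClosure F₁) (B : Finset K), Transcendental K z ∧
    (∀ P : Place K (AlgebraicClosure F₁), z ∈ P.ring → P.val z ∉ B →
      ξ ∈ P.ring ∧ υ ∈ P.ring ∧ up K x2 ∈ (φ (rs P)).ring ∧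
      P.val ξ = (φ (rs P)).val (up K x2) ∧ P.val υ = (φ (rs P)).val (up K y2)) ∧
    (∃ C : Finset K, ∀ P : Place K (AlgebraicClosure F₁), z ∉ P.ring →
      (φ (rs P)).val (up K x2) ∈ C) ∧
    (∀ a : K, ∃ C : Finset K, ∀ P : Place K (AlgebraicClosure F₁), z ∈ P.ring → P.val z = a →
      (φ (rs P)).val (up K x2) ∈ C)

/-- OUT: the analytic half: an isomorphism of universal covers gives `K(C_s) ⊆ L`, `L/F₁` finite,
contained in the universal cover. -/
def SOut : Prop := ∀ (K F₁ F₂ : Type u) [NontriviallyNormedField K] [IsUltrametricDist K]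
  [CompleteSpace K] [IsAlgClosed K] [CharZero K] [Field F₁] [Algebra K F₁] [Field F₂]
  [Algebra K F₂] (p g : ℕ), p.Prime → ‖(p : K)‖ < 1 → 2 ≤ g →
  ∀ (s1 s2 : K) (x1 y1 : F₁) (x2 y2 : F₂), Adm p g s1 → Adm p g s2 →
  IsCurve g s1 F₁ x1 y1 → IsCurve g s2 F₂ x2 y2 → UCIso K F₁ F₂ →
  ∃ ξ ∈ UC K F₁, ∃ υ ∈ UC K F₁,
    υ ^ 2 + υ = ξ ^ (2 * g + 1) + algebraMap K (AlgebraicClosure F₁) s2 * ξ ∧
    ¬ ∃ c : K, ξ = algebraMap K (AlgebraicClosure F₁) c

/-- MAI: the main theorem. -/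
def SMai : Prop := ∀ (K F₀ F : Type u) [NontriviallyNormedField K] [IsUltrametricDist K]
  [CompleteSpace K] [IsAlgClosed K] [CharZero K] [Field F₀] [Algebra K F₀] [Field F]
  [Algebra K F] (p g : ℕ), p.Prime → ‖(p : K)‖ < 1 → 2 ≤ g →
  ∀ (s : K) (x0 y0 : F₀) (x y : F), Transcendental ℚ s →
  ‖s - (if p ∣ 2 * g + 1 then 1 else 0 : K)‖ < 1 →
  IsCurve g (if p ∣ 2 * g + 1 then 1 else 0 : K) F₀ x0 y0 → IsCurve g s F x y → ¬ UCIso K F₀ F

/-- FFX: the function fields exist. -/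
def SFfx : Prop := ∀ (K : Type u) [Field K] [IsAlgClosed K] [CharZero K] (g : ℕ) (s : K), 1 ≤ g →
  ∃ (F : Type u) (_ : Field F) (_ : Algebra K F) (x y : F), IsCurve g s F x y

/-- TRS: transcendental parameters are dense. -/
def STrs : Prop := ∀ (K : Type u) [NontriviallyNormedField K] [IsUltrametricDist K]
  [CompleteSpace K] [IsAlgClosed K] [CharZero K] (p : ℕ), p.Prime → ‖(p : K)‖ < 1 →
  ∀ (s0 : K) (δ : ℝ), 0 < δ → ∃ s : K, ‖s - s0‖ < δ ∧ Transcendental ℚ s

end PUC
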